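import Pool.Agent.Lib.MP_1a0ddd_nt.Nc.Defs

/-! Existence of places, residue fields. -/

set_option autoImplicit false

namespace Pool.Agent.Lib.MP_1a0ddd_nt.Nc

open Polynomial

variable {L : Type} [Field L] [CharZero L] {F : Subfield L}

/-- Proof: `1/f` is not a unit in the ring `F[1/f]`; take a valuation ring which contains it and
whose maximal ideal contains `1/f` -/
theorem place_exists {f : L} (hf : Transcendental F f) : ∃ V : Place F, f ∉ V.1 := by
  have hf0 : f ≠ 0 := by
    rintro rfl
    exact hf (isAlgebraic_zero)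
  set B : Subalgebra F L := Algebra.adjoin F {f⁻¹} with hB
  set xinv : B.toSubring := ⟨f⁻¹, Algebra.subset_adjoin rfl⟩ with hx
  have hne : Ideal.span {xinv} ≠ ⊤ := by
    intro h
    rw [Ideal.span_singleton_eq_top] at h
    obtain ⟨g, hg⟩ := isUnit_iff_exists_inv.mp h
    have hg1 : f⁻¹ * (g : L) = 1 := congrArg Subtype.val hg
    have hgf : (g : L) = f := by
      field_simp at hg1
      exact hg1
    have hgB : f ∈ B := by
      rw [← hgf]; exact g.2
    rw [hB, Algebra.adjoin_singleton_eq_range_aeval] at hgB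
    obtain ⟨P, hP⟩ := hgB
    have hP' : aeval f⁻¹ P = f := hP
    apply hf
    rw [← inv_inv f]
    apply IsAlgebraic.inv
    refine ⟨X * P - 1, ?_, ?_⟩
    · intro h0
      have := congrArg (Polynomial.eval 0) h0
      simp at this
    · simp only [map_sub, map_mul, aeval_X, map_one, hP']
      rw [inv_mul_cancel₀ hf0, sub_self]
  obtain ⟨V, hV1, hV2⟩ := Ideal.image_subset_nonunits_valuationSubring _ hne
  have hfV : f ∉ V :=
    (V.inv_mem_nonunits_iff.mp (hV2 ⟨_, Ideal.subset_span rfl, rfl⟩)).resolve_left hf0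
  refine ⟨⟨V, ?_, ?_⟩, hfV⟩
  · rintro rfl
    exact hfV (ValuationSubring.mem_top f)
  · intro x hx
    exact hV1 (B.algebraMap_mem ⟨x, hx⟩)

/-- Proof: let `v` be in `V`. If its residue is transcendental over `F` then all non-zero elements of
`F[v]` are units of `V`, so `F(v) ⊆ V`; `L` is algebraic over `F(v)`, so `V = L`, because `V` is integrally
closed -/
theorem place_residue (htr : Algebra.trdeg F L = 1) (V : Place F) (v : V.1) :
    ∃ P : F[X], P ≠ 0 ∧ ∀ w : V.1, (w : L) = P.eval₂ F.subtype (v : L) →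
      IsLocalRing.residue V.1 w = 0 := by
  by_contra hcon
  push Not at hcon
  obtain ⟨V, hVtop, hVF⟩ := V
  -- all values are in V
  have hval : ∀ P : F[X], P.eval₂ F.subtype (v : L) ∈ V := by
    intro P
    rw [Polynomial.eval₂_eq_sum_range]
    refine sum_mem fun i _ => mul_mem ?_ (pow_mem v.2 i)
    exact hVF (P.coeff i).2
  have hinv : ∀ P : F[X], P ≠ 0 → (P.eval₂ F.subtype (v : L))⁻¹ ∈ V ∧
      P.eval₂ F.subtype (v : L) ≠ 0 := by
    intro P hP
    obtain ⟨w, hw, hres⟩ := hcon P hP
    have hu : IsUnit w := by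
      rw [Ne, IsLocalRing.residue_eq_zero_iff, IsLocalRing.mem_maximalIdeal, mem_nonunits_iff,
        not_not] at hres
      exact hres
    obtain ⟨z, hz⟩ := isUnit_iff_exists_inv.mp hu
    have hz' : (w : L) * (z : L) = 1 := congrArg Subtype.val hz
    rw [hw] at hz'
    refine ⟨?_, left_ne_zero_of_mul_eq_one hz'⟩
    rw [inv_eq_of_mul_eq_one_right hz']
    exact z.2
  have htv : Transcendental F (v : L) := by
    rintro ⟨P, hP, h0⟩
    exact (hinv P hP).2 h0
  -- transcendence basis
  have hai : AlgebraicIndependent F (fun _ : Unit => (v : L)) := by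
    rw [algebraicIndependent_unique_type_iff]
    exact htv
  have htb : IsTranscendenceBasis F (fun _ : Unit => (v : L)) :=
    hai.isTranscendenceBasis_of_trdeg_le_of_finite (by rw [htr]; simp)
  apply hVtop
  rw [eq_top_iff]
  intro x _
  have halg : Algebra.IsAlgebraic (Algebra.adjoin F (Set.range (fun _ : Unit => (v : L)))) L :=
    htb.isAlgebraic
  obtain ⟨P, hP, hPx⟩ := halg.isAlgebraic x
  have hrange : Set.range (fun _ : Unit => (v : L)) = {(v : L)} := by
    ext; simp
  -- elements of adjoin are in V with inverses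
  have hadj : ∀ a : L, a ∈ Algebra.adjoin F (Set.range (fun _ : Unit => (v : L))) → a ∈ V ∧
      a⁻¹ ∈ V := by
    intro a ha
    have ha2 : a ∈ Algebra.adjoin F {(v : L)} := by
      rw [← hrange]; exact ha
    rw [Algebra.adjoin_singleton_eq_range_aeval] at ha2
    obtain ⟨Q, hQ⟩ := ha2
    have hQ' : Q.eval₂ F.subtype (v : L) = a := hQ
    rw [← hQ']
    refine ⟨hval Q, ?_⟩
    by_cases hQ0 : Q = 0
    · rw [hQ0]; simp
    · exact (hinv Q hQ0).1
  by_contra hx
  have hxi : x⁻¹ ∈ V := (V.mem_or_inv_mem x).resolve_left hx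
  have hx0 : x ≠ 0 := by
    rintro rfl
    exact hx (zero_mem V)
  have hlc : (P.leadingCoeff : L) ≠ 0 := by
    intro h
    exact hP (leadingCoeff_eq_zero.mp (Subtype.ext h))
  have hsum : ∑ i ∈ Finset.range (P.natDegree + 1), ((P.coeff i : _) : L) * x ^ i = 0 := by
    rw [Polynomial.aeval_eq_sum_range] at hPx
    rw [← hPx]
    rfl
  rw [Finset.sum_range_succ] at hsum
  rcases Nat.eq_zero_or_pos P.natDegree with hn | hn
  · rw [hn] at hsum
    simp only [Finset.range_zero, Finset.sum_empty, pow_zero, mul_one, zero_add] at hsum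
    apply hlc
    rw [leadingCoeff, hn]
    exact hsum
  · obtain ⟨m, hm⟩ : ∃ m, P.natDegree = m + 1 := ⟨P.natDegree - 1, by omega⟩
    have hlc' : ((P.coeff P.natDegree : _) : L) ≠ 0 := hlc
    rw [hm] at hsum hlc'
    have hxe : x = -∑ i ∈ Finset.range (m + 1),
        ((P.coeff (m + 1) : _) : L)⁻¹ * ((P.coeff i : _) : L) * x⁻¹ ^ (m - i) := by
      have h1 : x = ((P.coeff (m + 1) : _) : L)⁻¹ * x⁻¹ ^ m *
          (((P.coeff (m + 1) : _) : L) * x ^ (m + 1)) := by
        rw [pow_succ x, inv_pow]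
        field_simp
      have h2 : ((P.coeff (m + 1) : _) : L) * x ^ (m + 1) =
          -∑ i ∈ Finset.range (m + 1), ((P.coeff i : _) : L) * x ^ i := by
        rw [eq_neg_iff_add_eq_zero, add_comm]
        exact hsum
      rw [h2, mul_neg, Finset.mul_sum] at h1
      refine h1.trans ?_
      congr 1
      refine Finset.sum_congr rfl fun i hi => ?_
      have him : i ≤ m := by
        have := Finset.mem_range.mp hi
        omega
      have h3 : x⁻¹ ^ m * x ^ i = x⁻¹ ^ (m - i) := by
        have h4 : x⁻¹ ^ m = x⁻¹ ^ (m - i) * x⁻¹ ^ i := by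
          rw [← pow_add]; congr 1; omega
        rw [h4, mul_assoc, ← mul_pow, inv_mul_cancel₀ hx0, one_pow, mul_one]
      calc _ = ((P.coeff (m + 1) : _) : L)⁻¹ * ((P.coeff i : _) : L) * (x⁻¹ ^ m * x ^ i) := by ring
        _ = _ := by rw [h3]
    apply hx
    rw [hxe]
    refine neg_mem (sum_mem fun i _ => mul_mem (mul_mem ?_ ?_) (pow_mem hxi _))
    · exact (hadj _ (P.coeff (m + 1)).2).2
    · exact (hadj _ (P.coeff i).2).1

end Pool.Agent.Lib.MP_1a0ddd_nt.Nc
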