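import Pool.Agent.Lib.MP_1a0ddd_nt.Un.Base

/-! Towers of conics, complete regular curves, averages of traces. -/

set_option autoImplicit false

namespace Pool.Agent.Lib.MP_1a0ddd_nt.Nc

open Polynomial

/-- `L` is the function field of a tower of `n` conics over the fraction field of `R`: the field
`F_0` is generated by `R`, `F_n = L`, and `F_{i+1} = F_i(x, y)`, where `x` is transcendental over
`F_i` and `y² = a x² + 2 b x + c` with `a, b, c ∈ F_i`, `b² ≠ a c` -/
def ConicTower (R L : Type) [CommRing R] [Field L] [Algebra R L] (n : ℕ) : Prop :=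
  ∃ F : ℕ → Subfield L, F 0 = Subfield.closure (Set.range (algebraMap R L)) ∧ F n = ⊤ ∧
    ∀ i < n, ∃ a ∈ F i, ∃ b ∈ F i, ∃ c ∈ F i, ∃ x y : L, Transcendental (F i) x ∧
      b ^ 2 ≠ a * c ∧ y ^ 2 = a * x ^ 2 + 2 * b * x + c ∧
      F (i + 1) = Subfield.closure ((F i : Set L) ∪ {x, y})

section
variable {L : Type} [Field L]

/-- the closed points of the complete regular curve over the field `F` with function field `L`:
the valuation rings of `L` which contain `F`, except `L` itself -/
def Place (F : Subfield L) : Type := {V : ValuationSubring L // V ≠ ⊤ ∧ (F : Set L) ⊆ V}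

/-- `D` is the divisor of `f`: `f = w π^(D V)`, `w` a unit of `V`, for every uniformizer `π` of `V` -/
def IsDiv (F : Subfield L) (f : L) (D : Place F →₀ ℤ) : Prop :=
  ∀ (V : Place F) (π : L), (∀ x : L, x ∈ V.1.nonunits ↔ x / π ∈ V.1) →
    ∃ w ∈ V.1.unitGroup, f = w * π ^ D V

/-- the divisor class group of the curve -/
abbrev ClGp (F : Subfield L) : Type :=
  (Place F →₀ ℤ) ⧸ AddSubgroup.closure {D : Place F →₀ ℤ | ∃ f : L, f ≠ 0 ∧ IsDiv F f D}

end

/-- the sum of `f τ` over the `F_p`-points `τ` of `Spec T` with `b ≠ 0`, divided by `p^e` -/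
noncomputable def avg {T : Type} [CommRing T] (b : T) (e p : ℕ) (f : (T →+* ZMod p) → ℤ) : ℝ :=
  (∑ᶠ τ : {τ : T →+* ZMod p // τ b ≠ 0}, (f τ : ℝ)) / (p : ℝ) ^ e

/-- the trace of Frobenius `p + 1 - #C_τ`: the points over `τ` of the open subset `g ≠ 0` of
`Spec S` and of the models `A V` of the residue fields of the other closed points are counted -/
noncomputable def trace {T S : Type} [CommRing T] [CommRing S] (φ : T →+* S) (g : S) {I : Type}
    (A : I → Type) [∀ i, CommRing (A i)] (ψ : ∀ i, T →+* A i) (p : ℕ) (τ : T →+* ZMod p) : ℤ :=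
  (p : ℤ) + 1 - Nat.card {σ : S →+* ZMod p // σ.comp φ = τ ∧ σ g ≠ 0} -
    ∑ᶠ i, (Nat.card {ρ : A i →+* ZMod p // ρ.comp (ψ i) = τ} : ℤ)

end Pool.Agent.Lib.MP_1a0ddd_nt.Nc
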