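import Pool.Agent.Lib.MP_1a0ddd_nt.Nc.Loc
import Pool.Agent.Lib.MP_1a0ddd_nt.Un.Fin

/-! The Tate property for open subsets is a birational invariant. -/

set_option autoImplicit false

namespace Pool.Agent.Lib.MP_1a0ddd_nt.Nc

open Polynomial Un

/-- proof: `loc_birat`, `loc_equiv`, `tate_equiv`, `fin_closureU` (`away`) -/
theorem tate_birat {R A B L : Type} [CommRing R] [IsDomain R] [CommRing A] [IsDomain A]
    [CommRing B] [Field L] [Algebra R A] [Algebra R B] [Algebra R L] {d n e : ℕ}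
    (hR : BaseVar R d) (hA : Algebra.FiniteType R A) (j : A →ₐ[R] L) (k : B →ₐ[R] L)
    (hj : Function.Injective j) (hk : Function.Injective k)
    (hfj : ∀ z : L, ∃ x y : A, y ≠ 0 ∧ z * j y = j x)
    (hfk : ∀ z : L, ∃ x y : B, y ≠ 0 ∧ z * k y = k x) (hB : Tate R B d n e) :
    ∃ a : A, a ≠ 0 ∧ ∀ a' : A, a' ≠ 0 → a ∣ a' →
      ∃ e' : ℕ, Tate R (Localization.Away a') d n e' := by
  have hdB : IsDomain B := hB.geo.dom
  have hfB : Algebra.FiniteType R B := hB.geo.finite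
  obtain ⟨a, ha, -, h⟩ := loc_birat hA hfB j k hj hk hfj hfk 1 one_ne_zero
  refine ⟨a, ha, fun a' ha' haa' => ?_⟩
  obtain ⟨b', hb', hloc⟩ := h a' ha' haa'
  obtain ⟨m, hm⟩ := (fin_closureU R hR).away B n e b' hB hb'
  obtain ⟨f, -⟩ := loc_equiv j hj ha'
  obtain ⟨g, -⟩ := loc_equiv k hk hb'
  exact ⟨e + m, tate_equiv ((g.trans (Subalgebra.equivOfEq _ _ hloc.symm)).trans f.symm) hm⟩

end Pool.Agent.Lib.MP_1a0ddd_nt.Nc
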