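import Mathlib

/-! The rank of a class group. -/

set_option autoImplicit false

namespace Pool.Agent.Lib.MP_1a0ddd_nt.Nc

/-- Proof. Let `M` be the group of the elements of `X →₀ ℤ` supported in `O`, free of rank `#O`. By `h1`,
`M` maps onto the cokernel of `div`, with kernel `div H`, and `H/ker div` is isomorphic to `div H` -/
theorem rank_alg {X G : Type} [AddCommGroup G] (div : G →+ (X →₀ ℤ)) (O : Set X) (hO : O.Finite)
    (h1 : ∀ x ∉ O, ∃ f : G, div f x = 1 ∧ ∀ y ∉ O, y ≠ x → div f y = 0) (H : AddSubgroup G)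
    (hH : ∀ f : G, f ∈ H ↔ ∀ x ∉ O, div f x = 0) :
    Module.Finite ℤ ((X →₀ ℤ) ⧸ div.range) ∧
      Module.finrank ℤ ((X →₀ ℤ) ⧸ div.range) +
        Module.finrank ℤ (H ⧸ div.ker.addSubgroupOf H) = O.ncard := by
  classical
  have : Finite O := hO
  let M : Submodule ℤ (X →₀ ℤ) := Finsupp.supported ℤ ℤ O
  have memM : ∀ D : X →₀ ℤ, D ∈ M ↔ ∀ x ∉ O, D x = 0 := by
    intro D
    constructor
    · intro h x hx
      by_contra hne
      exact hx (h (Finsupp.mem_support_iff.2 hne))
    · intro h x hx
      by_contra hne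
      exact (Finsupp.mem_support_iff.1 hx) (h x hne)
  let e : M ≃ₗ[ℤ] (O →₀ ℤ) := Finsupp.supportedEquivFinsupp O
  have : Module.Finite ℤ M := Module.Finite.equiv e.symm
  have hM : Module.finrank ℤ M = O.ncard := by
    rw [e.finrank_eq]
    have : Fintype O := Fintype.ofFinite O
    rw [Module.finrank_finsupp_self, ← Nat.card_eq_fintype_card, Nat.card_coe_set_eq]
  -- the quotient map
  let q0 : M →+ ((X →₀ ℤ) ⧸ div.range) :=
    (QuotientAddGroup.mk' div.range).comp M.toAddSubgroup.subtype
  let q : M →ₗ[ℤ] ((X →₀ ℤ) ⧸ div.range) := q0.toIntLinearMap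
  have hq : Function.Surjective q := by
    intro Q
    obtain ⟨D, rfl⟩ := QuotientAddGroup.mk'_surjective div.range Q
    choose! f hf1 hf2 using h1
    let F : G := ∑ x ∈ D.support.filter (fun x => x ∉ O), (D x) • f x
    have hF : ∀ y ∉ O, div F y = D y := by
      intro y hy
      simp only [F, map_sum, map_zsmul, Finsupp.finsetSum_apply, Finsupp.smul_apply]
      rw [Finset.sum_eq_single y]
      · rw [hf1 y hy]; simp
      · intro x hx hxy
        have hxO : x ∉ O := (Finset.mem_filter.1 hx).2
        rw [hf2 x hxO y hy hxy.symm]; simp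
      · intro hny
        have : D y = 0 := by
          by_contra hne
          exact hny (Finset.mem_filter.2 ⟨Finsupp.mem_support_iff.2 hne, hy⟩)
        rw [this]; simp
    refine ⟨⟨D - div F, ?_⟩, ?_⟩
    · rw [memM]
      intro x hx
      rw [Finsupp.sub_apply, hF x hx, sub_self]
    · change QuotientAddGroup.mk' div.range (D - div F) = QuotientAddGroup.mk' div.range D
      rw [map_sub]
      have : QuotientAddGroup.mk' div.range (div F) = 0 := by
        rw [QuotientAddGroup.mk'_apply, QuotientAddGroup.eq_zero_iff]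
        exact ⟨F, rfl⟩
      rw [this, sub_zero]
  refine ⟨Module.Finite.of_surjective q hq, ?_⟩
  have hker : ∀ m : M, q m = 0 ↔ (m : X →₀ ℤ) ∈ div.range := by
    intro m
    change QuotientAddGroup.mk' div.range (m : X →₀ ℤ) = 0 ↔ _
    rw [QuotientAddGroup.mk'_apply, QuotientAddGroup.eq_zero_iff]
  -- the map from H
  have hmem : ∀ h : H, div (h : G) ∈ M := fun h => (memM _).2 ((hH _).1 h.2)
  let r : H →+ LinearMap.ker q :=
    { toFun := fun h => ⟨⟨div (h : G), hmem h⟩, by
        rw [LinearMap.mem_ker, hker]; exact ⟨(h : G), rfl⟩⟩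
      map_zero' := by
        apply Subtype.ext; apply Subtype.ext
        change div ((0 : H) : G) = 0
        simp
      map_add' := by
        intro a b
        apply Subtype.ext; apply Subtype.ext
        change div ((a + b : H) : G) = div (a : G) + div (b : G)
        rw [AddSubgroup.coe_add, map_add] }
  have hr : Function.Surjective r := by
    rintro ⟨m, hm⟩
    rw [LinearMap.mem_ker, hker] at hm
    obtain ⟨g, hg⟩ := hm
    have hgH : g ∈ H := by
      rw [hH]
      intro x hx
      rw [hg]
      exact (memM _).1 m.2 x hx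
    refine ⟨⟨g, hgH⟩, ?_⟩
    apply Subtype.ext; apply Subtype.ext
    exact hg
  have hkr : r.ker = div.ker.addSubgroupOf H := by
    ext h
    rw [AddMonoidHom.mem_ker, AddSubgroup.mem_addSubgroupOf, AddMonoidHom.mem_ker]
    constructor
    · intro hh
      exact congrArg (fun z : LinearMap.ker q => ((z : M) : X →₀ ℤ)) hh
    · intro hh
      apply Subtype.ext; apply Subtype.ext
      exact hh
  let E : (H ⧸ div.ker.addSubgroupOf H) ≃+ LinearMap.ker q :=
    (QuotientAddGroup.quotientAddEquivOfEq hkr.symm).trans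
      (QuotientAddGroup.quotientKerEquivOfSurjective r hr)
  have hE : Module.finrank ℤ (H ⧸ div.ker.addSubgroupOf H) = Module.finrank ℤ (LinearMap.ker q) :=
    (E.toIntLinearEquiv).finrank_eq
  have hrange : Module.finrank ℤ (M ⧸ LinearMap.ker q) =
      Module.finrank ℤ ((X →₀ ℤ) ⧸ div.range) :=
    (q.quotKerEquivOfSurjective hq).finrank_eq
  have := Submodule.finrank_quotient_add_finrank (LinearMap.ker q)
  rw [hE, ← hrange, this, hM]

end Pool.Agent.Lib.MP_1a0ddd_nt.Nc
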