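import Pool.Agent.Lib.MP_1a0ddd_nt.Nc.Ord

/-! Divisors, and the places of a principal ideal domain. -/

set_option autoImplicit false

namespace Pool.Agent.Lib.MP_1a0ddd_nt.Nc

open Polynomial Pool.Agent.Lib.MP_1a0ddd_nt.V

variable {L : Type} [Field L] [CharZero L] {F : Subfield L}

omit [CharZero L] in
private theorem pr_one {V : ValuationSubring L} {ν : L → ℤ} (h : IsOrd V ν) : ν 1 = 0 := by
  have := h.mul 1 1 one_ne_zero one_ne_zero
  rw [mul_one] at this
  omega

omit [CharZero L] in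
private theorem pr_inv {V : ValuationSubring L} {ν : L → ℤ} (h : IsOrd V ν) {x : L}
    (hx : x ≠ 0) : ν x⁻¹ = -ν x := by
  have := h.mul x x⁻¹ hx (inv_ne_zero hx)
  rw [mul_inv_cancel₀ hx, pr_one h] at this
  omega

omit [CharZero L] in
private theorem pr_pow {V : ValuationSubring L} {ν : L → ℤ} (h : IsOrd V ν) {x : L}
    (hx : x ≠ 0) (n : ℕ) : ν (x ^ n) = n * ν x := by
  induction n with
  | zero => rw [pow_zero, pr_one h]; simp
  | succ n ih =>
    rw [pow_succ, h.mul _ _ (pow_ne_zero n hx) hx, ih]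
    push_cast
    ring

omit [CharZero L] in
private theorem pr_zpow {V : ValuationSubring L} {ν : L → ℤ} (h : IsOrd V ν) {x : L}
    (hx : x ≠ 0) (n : ℤ) : ν (x ^ n) = n * ν x := by
  obtain ⟨m, rfl | rfl⟩ := n.eq_nat_or_neg
  · rw [zpow_natCast, pr_pow h hx]
  · rw [zpow_neg, zpow_natCast, pr_inv h (pow_ne_zero m hx), pr_pow h hx]
    ring

omit [CharZero L] in
private theorem pr_nonunits {V : ValuationSubring L} {ν : L → ℤ} (h : IsOrd V ν) {x : L}
    (hx : x ≠ 0) : x ∈ V.nonunits ↔ 1 ≤ ν x := by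
  rw [ValuationSubring.mem_nonunits_iff_or, or_iff_right hx, h.mem _ (inv_ne_zero hx),
    pr_inv h hx]
  omega

omit [CharZero L] in
private theorem pr_unit {V : ValuationSubring L} {ν : L → ℤ} (h : IsOrd V ν) (w : Lˣ) :
    w ∈ V.unitGroup ↔ ν (w : L) = 0 := by
  rw [ValuationSubring.mem_unitGroup_iff]
  have h1 := ValuationSubring.valuation_le_one_iff V (w : L)
  have h2 := ValuationSubring.valuation_le_one_iff V (w : L)⁻¹
  rw [h.mem _ w.ne_zero] at h1
  rw [h.mem _ (inv_ne_zero w.ne_zero), pr_inv h w.ne_zero, map_inv₀] at h2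
  have h3 : V.valuation (w : L) ≠ 0 := (_root_.map_ne_zero _).mpr w.ne_zero
  rw [inv_le_one₀ (zero_lt_iff.mpr h3)] at h2
  constructor
  · intro hw
    have h4 := h1.mp hw.le
    have h5 := h2.mp hw.ge
    omega
  · intro hw
    exact le_antisymm (h1.mpr (by omega)) (h2.mpr (by omega))

omit [CharZero L] in
private theorem pr_unif {V : ValuationSubring L} {ν : L → ℤ} (h : IsOrd V ν) (π : L) :
    (∀ x : L, x ∈ V.nonunits ↔ x / π ∈ V) ↔ π ≠ 0 ∧ ν π = 1 := by
  constructor
  · intro hπ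
    have h0 : π ≠ 0 := by
      rintro rfl
      have h1 := (hπ 1).mpr (by rw [div_zero]; exact V.zero_mem)
      rw [pr_nonunits h one_ne_zero, pr_one h] at h1
      omega
    refine ⟨h0, ?_⟩
    have key : ∀ x : L, x ≠ 0 → (1 ≤ ν x ↔ ν π ≤ ν x) := by
      intro x hx
      rw [← pr_nonunits h hx, hπ x, h.mem _ (div_ne_zero hx h0), div_eq_mul_inv,
        h.mul _ _ hx (inv_ne_zero h0), pr_inv h h0]
      omega
    obtain ⟨π', h1, h2⟩ := h.one
    have h3 := (key π h0).mpr le_rfl
    have h4 := (key π' h1).mp (by omega)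
    omega
  · rintro ⟨h0, h1⟩ x
    by_cases hx : x = 0
    · subst hx
      rw [zero_div]
      refine iff_of_true ?_ V.zero_mem
      rw [ValuationSubring.mem_nonunits_iff_or]
      exact Or.inl rfl
    · rw [pr_nonunits h hx, h.mem _ (div_ne_zero hx h0), div_eq_mul_inv,
        h.mul _ _ hx (inv_ne_zero h0), pr_inv h h0]
      omega

omit [CharZero L] in
/-- the divisor of `f` in terms of the order functions -/
theorem isDiv_iff {ν : Place F → L → ℤ} (hν : ∀ V : Place F, IsOrd V.1 (ν V)) {f : L}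
    (hf : f ≠ 0) (D : Place F →₀ ℤ) : IsDiv F f D ↔ ∀ V : Place F, D V = ν V f := by
  constructor
  · intro h V
    obtain ⟨π, h0, h1⟩ := (hν V).one
    obtain ⟨w, hw, hf'⟩ := h V π ((pr_unif (hν V) π).mpr ⟨h0, h1⟩)
    rw [pr_unit (hν V)] at hw
    rw [hf', (hν V).mul _ _ w.ne_zero (zpow_ne_zero _ h0), hw, pr_zpow (hν V) h0, h1]
    ring
  · intro h V π hπ
    obtain ⟨h0, h1⟩ := (pr_unif (hν V) π).mp hπ
    have h2 : π ^ D V ≠ 0 := zpow_ne_zero _ h0
    refine ⟨Units.mk0 (f / π ^ D V) (div_ne_zero hf h2), ?_, ?_⟩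
    · rw [pr_unit (hν V), Units.val_mk0, div_eq_mul_inv, (hν V).mul _ _ hf (inv_ne_zero h2),
        pr_inv (hν V) h2, pr_zpow (hν V) h0, h1, h V]
      ring
    · rw [Units.val_mk0, div_mul_cancel₀ _ h2]

omit [CharZero L] in
private theorem pr_core {B : Type} [CommRing B] [IsDedekindDomain B] [Algebra B L]
    [IsFractionRing B L] (V : ValuationSubring L) (hV : V ≠ ⊤)
    (hB : ∀ b : B, algebraMap B L b ∈ V) :
    ∃ P : IsDedekindDomain.HeightOneSpectrum B,
      (∀ b, b ∈ P.asIdeal ↔ algebraMap B L b ∈ V.nonunits) ∧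
      V = (P.valuation L).valuationSubring := by
  have hmem : ∀ b : B, b ∈ (IsLocalRing.maximalIdeal V).comap
      ((algebraMap B L).codRestrict V.toSubring hB) ↔ algebraMap B L b ∈ V.nonunits := by
    intro b
    rw [Ideal.mem_comap]
    exact (ValuationSubring.coe_mem_nonunits_iff (A := V)
      (a := (algebraMap B L).codRestrict V.toSubring hB b)).symm
  have hne : (IsLocalRing.maximalIdeal V).comap
      ((algebraMap B L).codRestrict V.toSubring hB) ≠ ⊥ := by
    intro hbot
    apply hV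
    rw [eq_top_iff]
    intro z _
    obtain ⟨a, c, hc, rfl⟩ := IsFractionRing.div_surjective (A := B) z
    rw [div_eq_mul_inv]
    refine V.mul_mem _ _ (hB a) ?_
    by_contra hcon
    have hc0 : c ∈ (IsLocalRing.maximalIdeal V).comap
        ((algebraMap B L).codRestrict V.toSubring hB) := by
      rw [hmem]
      exact (ValuationSubring.mem_nonunits_iff_or _).mpr (Or.inr hcon)
    rw [hbot, Ideal.mem_bot] at hc0
    exact nonZeroDivisors.ne_zero hc hc0
  refine ⟨⟨_, Ideal.comap_isPrime _ _, hne⟩, hmem, ?_⟩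
  rw [← IsDedekindDomain.HeightOneSpectrum.valuationSubringAtPrime_eq_valuationSubring]
  symm
  refine ValuationSubring.eq_of_le_of_ne_top _ ?_ hV
  rintro z ⟨a, s, hs, rfl⟩
  refine V.mul_mem _ _ (hB a) ?_
  by_contra hcon
  apply hs
  show s ∈ (IsLocalRing.maximalIdeal V).comap
        ((algebraMap B L).codRestrict V.toSubring hB)
  rw [hmem]
  exact (ValuationSubring.mem_nonunits_iff_or _).mpr (Or.inr hcon)

omit [CharZero L] in
private theorem pr_frac {A : Subring L}
    (hfr : ∀ x : L, ∃ a ∈ A, ∃ b ∈ A, b ≠ 0 ∧ x * b = a) : IsFractionRing A L := by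
  refine IsFractionRing.of_field A L fun z => ?_
  obtain ⟨a, ha, b, hb, hb0, h⟩ := hfr z
  refine ⟨⟨a, ha⟩, ⟨b, hb⟩, ?_⟩
  show z = a / b
  rw [← h, mul_div_assoc, div_self hb0, mul_one]

/-- Proof: a valuation ring `V ≠ L` which contains the principal ideal domain `A` (with fraction field
`L`) is the localisation at the prime `π`, the generator of the contraction of its maximal ideal; `π`
is a unit in all others -/
theorem place_prime {A : Subring L} (hFA : ∀ x ∈ F, x ∈ A) (hpid : IsPrincipalIdealRing A)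
    (hfr : ∀ x : L, ∃ a ∈ A, ∃ b ∈ A, b ≠ 0 ∧ x * b = a) {ν : Place F → L → ℤ}
    (hν : ∀ V : Place F, IsOrd V.1 (ν V)) {V : Place F} (hV : (A : Set L) ⊆ V.1) :
    ∃ π : L, π ≠ 0 ∧ ν V π = 1 ∧
      ∀ W : Place F, (A : Set L) ⊆ W.1 → W ≠ V → ν W π = 0 := by
  have := pr_frac hfr
  have hcore : ∀ W : Place F, (A : Set L) ⊆ W.1 → ∃ P : IsDedekindDomain.HeightOneSpectrum A,
      (∀ b, b ∈ P.asIdeal ↔ algebraMap A L b ∈ W.1.nonunits) ∧
      W.1 = (P.valuation L).valuationSubring := fun W hW =>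
    pr_core W.1 W.2.1 fun b => hW b.2
  obtain ⟨P, hP1, hP2⟩ := hcore V hV
  obtain ⟨π, hπ⟩ := hpid.principal P.asIdeal
  have hπm : π ∈ P.asIdeal := by
    rw [hπ]
    exact Submodule.mem_span_singleton_self π
  have h0 : π ≠ 0 := by
    rintro rfl
    apply P.ne_bot
    rw [hπ]
    simp
  have h0' : (π : L) ≠ 0 := fun h => h0 (Subtype.ext h)
  refine ⟨π, h0', ?_, ?_⟩
  · have h1 : 1 ≤ ν V (π : L) := by
      rw [← pr_nonunits (hν V) h0']
      exact (hP1 π).mp hπm
    obtain ⟨ϖ, hϖ0, hϖ1⟩ := (hν V).one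
    have h2 : P.valuation L ϖ ≤ 1 := by
      have h3 : ϖ ∈ V.1 := ((hν V).mem ϖ hϖ0).mpr (by omega)
      rw [hP2] at h3
      exact (Valuation.mem_valuationSubring_iff _ _).mp h3
    obtain ⟨n, d, hnd⟩ := P.exists_primeCompl_mul_eq_of_integer ϖ h2
    have hd0 : ((d : A) : L) ≠ 0 := by
      intro h
      apply d.2
      have : (d : A) = 0 := Subtype.ext h
      rw [this]
      exact P.asIdeal.zero_mem
    have hd1 : ν V ((d : A) : L) = 0 := by
      have h3 : ¬ (1 ≤ ν V ((d : A) : L)) := by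
        rw [← pr_nonunits (hν V) hd0]
        intro h
        exact d.2 ((hP1 _).mpr h)
      have h4 : 0 ≤ ν V ((d : A) : L) := ((hν V).mem _ hd0).mp (hV (d : A).2)
      omega
    have hn : ϖ * ((d : A) : L) = (n : L) := hnd
    have hn0 : (n : L) ≠ 0 := by
      rw [← hn]
      exact mul_ne_zero hϖ0 hd0
    have hn1 : ν V (n : L) = 1 := by
      rw [← hn, (hν V).mul _ _ hϖ0 hd0, hϖ1, hd1]
      ring
    have hnP : n ∈ P.asIdeal := by
      rw [hP1]
      exact (pr_nonunits (hν V) hn0).mpr hn1.ge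
    rw [hπ] at hnP
    obtain ⟨c, hc⟩ := Submodule.mem_span_singleton.mp hnP
    have hc' : (c : L) * (π : L) = (n : L) := congrArg (fun z : A => (z : L)) hc
    have hc0 : (c : L) ≠ 0 := by
      intro h
      rw [h, zero_mul] at hc'
      exact hn0 hc'.symm
    have h5 : ν V (c : L) + ν V (π : L) = 1 := by
      rw [← (hν V).mul _ _ hc0 h0', hc', hn1]
    have h6 : 0 ≤ ν V (c : L) := ((hν V).mem _ hc0).mp (hV c.2)
    omega
  · intro W hW hWV
    obtain ⟨Q, hQ1, hQ2⟩ := hcore W hW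
    by_contra hcon
    have h1 : 0 ≤ ν W (π : L) := ((hν W).mem _ h0').mp (hW π.2)
    have h2 : π ∈ Q.asIdeal := by
      rw [hQ1]
      exact (pr_nonunits (hν W) h0').mpr (by omega)
    have h3 : P.asIdeal ≤ Q.asIdeal := by
      rw [hπ]
      exact (Submodule.span_singleton_le_iff_mem _ _).mpr h2
    have h4 : P.asIdeal = Q.asIdeal := P.isMaximal.eq_of_le Q.isPrime.ne_top h3
    have h5 : P = Q := IsDedekindDomain.HeightOneSpectrum.ext h4
    apply hWV
    apply Subtype.ext
    rw [hQ2, hP2, h5]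

/-- Proof: a fraction `a/b` in lowest terms with `b` not a unit; take a prime factor of `b` and its
localisation -/
theorem mem_of_places {A : Subring L} (hFA : ∀ x ∈ F, x ∈ A) (hpid : IsPrincipalIdealRing A)
    (hfr : ∀ x : L, ∃ a ∈ A, ∃ b ∈ A, b ≠ 0 ∧ x * b = a) {x : L}
    (hx : ∀ W : Place F, (A : Set L) ⊆ W.1 → x ∈ W.1) : x ∈ A := by
  have := pr_frac hfr
  have h : x ∈ (algebraMap A L).range := by
    refine IsDedekindDomain.HeightOneSpectrum.mem_integers_of_valuation_le_one L x fun P => ?_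
    have h1 : (A : Set L) ⊆ (P.valuation L).valuationSubring := by
      intro a ha
      exact (Valuation.mem_valuationSubring_iff _ _).mpr (P.valuation_le_one ⟨a, ha⟩)
    have h2 : (P.valuation L).valuationSubring ≠ ⊤ := by
      intro htop
      obtain ⟨π, hπ⟩ := P.valuation_exists_uniformizer L
      have h3 : π⁻¹ ∈ (P.valuation L).valuationSubring := by
        rw [htop]
        trivial
      have h4 := (Valuation.mem_valuationSubring_iff _ _).mp h3
      rw [map_inv₀, hπ, ← WithZero.exp_neg, neg_neg] at h4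
      have h5 := WithZero.log_le_log (x := WithZero.exp (1 : ℤ)) WithZero.exp_ne_zero
        one_ne_zero |>.mpr h4
      rw [WithZero.log_exp, WithZero.log_one] at h5
      omega
    have h3 := hx ⟨_, h2, fun a ha => h1 (hFA a ha)⟩ h1
    exact (Valuation.mem_valuationSubring_iff _ _).mp h3
  obtain ⟨a, rfl⟩ := h
  exact a.2

end Pool.Agent.Lib.MP_1a0ddd_nt.Nc
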