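import Pool.Agent.Lib.MP_1a0ddd_nt.Nc.Plx
import Pool.Agent.Lib.MP_1a0ddd_nt.Nc.Pri
import Pool.Agent.Lib.MP_1a0ddd_nt.Nc.Grp

/-! The divisor class group of a function field of one variable. -/

set_option autoImplicit false

namespace Pool.Agent.Lib.MP_1a0ddd_nt.Nc

open Polynomial Pool.Agent.Lib.MP_1a0ddd_nt.V

section ord

variable {L : Type} [Field L] {V : ValuationSubring L} {ν : L → ℤ}

private theorem ord_one (h : IsOrd V ν) : ν 1 = 0 := by
  have := h.mul 1 1 one_ne_zero one_ne_zero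
  rw [mul_one] at this
  omega

private theorem ord_inv (h : IsOrd V ν) {x : L} (hx : x ≠ 0) : ν x⁻¹ = -ν x := by
  have := h.mul x x⁻¹ hx (inv_ne_zero hx)
  rw [mul_inv_cancel₀ hx, ord_one h] at this
  omega

private theorem ord_eq_zero (h : IsOrd V ν) {x : L} (hx : x ≠ 0) :
    ν x = 0 ↔ x ∈ V ∧ x⁻¹ ∈ V := by
  rw [h.mem x hx, h.mem x⁻¹ (inv_ne_zero hx), ord_inv h hx]
  omega

end ord

section dv

variable {L : Type} [Field L] {F : Subfield L} {ν : Place F → L → ℤ}

private theorem supp_finite (hν : ∀ V : Place F, IsOrd V.1 (ν V))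
    (hfin : ∀ f : L, {V : Place F | f ∉ V.1}.Finite) {f : L} (hf : f ≠ 0) :
    {V : Place F | ν V f ≠ 0}.Finite := by
  refine ((hfin f).union (hfin f⁻¹)).subset fun V hV => ?_
  by_contra h
  simp only [Set.mem_union, Set.mem_ofPred_eq, not_or, not_not] at h
  exact hV ((ord_eq_zero (hν V) hf).2 h)

/-- the divisor map -/
private noncomputable def dv (hν : ∀ V : Place F, IsOrd V.1 (ν V))
    (hfin : ∀ f : L, {V : Place F | f ∉ V.1}.Finite) : Additive Lˣ →+ (Place F →₀ ℤ) where
  toFun u := Finsupp.ofSupportFinite (fun V => ν V (Additive.toMul u : Lˣ))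
    (supp_finite hν hfin (Additive.toMul u).ne_zero)
  map_zero' := by
    ext V
    exact ord_one (hν V)
  map_add' u v := by
    ext V
    exact (hν V).mul _ _ (Additive.toMul u).ne_zero (Additive.toMul v).ne_zero

private theorem dv_apply (hν : ∀ V : Place F, IsOrd V.1 (ν V))
    (hfin : ∀ f : L, {V : Place F | f ∉ V.1}.Finite) (u : Additive Lˣ) (V : Place F) :
    dv hν hfin u V = ν V (Additive.toMul u : Lˣ) := rfl

private theorem dv_range [CharZero L] (hν : ∀ V : Place F, IsOrd V.1 (ν V))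
    (hfin : ∀ f : L, {V : Place F | f ∉ V.1}.Finite) :
    AddSubgroup.closure {D : Place F →₀ ℤ | ∃ f : L, f ≠ 0 ∧ IsDiv F f D} =
      (dv hν hfin).range := by
  have : {D : Place F →₀ ℤ | ∃ f : L, f ≠ 0 ∧ IsDiv F f D} = ((dv hν hfin).range : Set _) := by
    ext D
    constructor
    · rintro ⟨f, hf, hD⟩
      refine ⟨Additive.ofMul (Units.mk0 f hf), ?_⟩
      ext V
      exact ((isDiv_iff hν hf D).1 hD V).symm
    · rintro ⟨u, rfl⟩
      exact ⟨_, (Additive.toMul u).ne_zero, (isDiv_iff hν (Additive.toMul u).ne_zero _).2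
        fun V => rfl⟩
  rw [this, AddSubgroup.closure_eq]

end dv

section units

variable {L : Type} [Field L] {F : Subfield L} {A : Subring L}

/-- the units of `A` -/
private def un (A : Subring L) : AddSubgroup (Additive Lˣ) :=
  (Units.map (A.subtype : A →* L)).range.toAddSubgroup

private theorem mem_un {u : Additive Lˣ} :
    u ∈ un A ↔ ((Additive.toMul u : Lˣ) : L) ∈ A ∧ ((Additive.toMul u : Lˣ) : L)⁻¹ ∈ A := by
  constructor
  · rintro ⟨a, ha⟩
    have h1 : ((Additive.toMul u : Lˣ) : L) = (a : A) := by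
      have : Additive.toMul u = Units.map (A.subtype : A →* L) a := ha.symm
      rw [this]
      rfl
    have h2 : ((Additive.toMul u : Lˣ) : L)⁻¹ = ((a⁻¹ : Aˣ) : A) := by
      refine inv_eq_of_mul_eq_one_right ?_
      rw [h1, ← Subring.coe_mul, Units.mul_inv, Subring.coe_one]
    rw [h2, h1]
    exact ⟨(a : A).2, ((a⁻¹ : Aˣ) : A).2⟩
  · rintro ⟨h1, h2⟩
    refine ⟨⟨⟨_, h1⟩, ⟨_, h2⟩, Subtype.ext (mul_inv_cancel₀ (Additive.toMul u).ne_zero),
      Subtype.ext (inv_mul_cancel₀ (Additive.toMul u).ne_zero)⟩, ?_⟩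
    refine Units.ext ?_
    rfl

private theorem finrank_un (κ : F →+* A) (hκ : ∀ x : F, ((κ x : A) : L) = x)
    (K : AddSubgroup (Additive Lˣ))
    (hK : ∀ u : Additive Lˣ, u ∈ K ↔ ((Additive.toMul u : Lˣ) : L) ∈ F) :
    Module.finrank ℤ (un A ⧸ K.addSubgroupOf (un A)) = Module.finrank ℤ (UnitsMod κ) := by
  let υ' : Additive Aˣ →+ (un A ⧸ K.addSubgroupOf (un A)) :=
    (QuotientAddGroup.mk' (K.addSubgroupOf (un A))).comp
      (MonoidHom.toAdditive (Units.map (A.subtype : A →* L))).rangeRestrict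
  let υ : Additive Aˣ →ₗ[ℤ] (un A ⧸ K.addSubgroupOf (un A)) := υ'.toIntLinearMap
  have hυ : Function.Surjective υ :=
    (QuotientAddGroup.mk'_surjective _).comp (AddMonoidHom.rangeRestrict_surjective _)
  let π' : Additive Aˣ →+ UnitsMod κ :=
    MonoidHom.toAdditive (QuotientGroup.mk' (Units.map (κ : F →* A)).range)
  let π : Additive Aˣ →ₗ[ℤ] UnitsMod κ := π'.toIntLinearMap
  have hπ : Function.Surjective π :=
    QuotientGroup.mk'_surjective (Units.map (κ : F →* A)).range
  have hk : LinearMap.ker υ = LinearMap.ker π := by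
    ext u
    rw [LinearMap.mem_ker, LinearMap.mem_ker]
    have h1 : π u = 0 ↔ Additive.toMul u ∈ (Units.map (κ : F →* A)).range :=
      QuotientGroup.eq_one_iff (Additive.toMul u)
    have h2 : υ u = 0 ↔ (((Additive.toMul u : Aˣ) : A) : L) ∈ F := by
      refine (QuotientAddGroup.eq_zero_iff _).trans ?_
      exact hK _
    rw [h1, h2, MonoidHom.mem_range]
    constructor
    · intro h
      have h0 : (⟨_, h⟩ : F) ≠ 0 := by
        intro h0
        have h3 : (((Additive.toMul u : Aˣ) : A) : L) = 0 := congrArg Subtype.val h0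
        have h4 : ((Additive.toMul u : Aˣ) : A) = 0 := Subtype.ext h3
        exact (Additive.toMul u).ne_zero h4
      refine ⟨Units.mk0 ⟨_, h⟩ h0, Units.ext (Subtype.ext ?_)⟩
      exact hκ _
    · rintro ⟨c, hc⟩
      rw [← hc]
      have : ((Units.map (κ : F →* A) c : Aˣ) : A) = κ c := rfl
      rw [this, hκ]
      exact (c : F).2
  rw [← (LinearMap.quotKerEquivOfSurjective υ hυ).finrank_eq, hk]
  exact (LinearMap.quotKerEquivOfSurjective π hπ).finrank_eq

end units

variable {L : Type} [Field L] [CharZero L] {F : Subfield L}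

/-- Proof: `place_finite` for the generators, `place_ord`, `isDiv_iff`, `place_prime`, `mem_of_places`,
`place_exists` (an element with divisor `0` is algebraic over `F`, so it is in `F`), and `rank_alg` for
`G = Additive Lˣ`, `H` the units of `A` -/
theorem class_rank {A : Subring L} (κ : F →+* A) (hκ : ∀ x : F, ((κ x : A) : L) = x)
    (hfg : ∃ s : Set L, s.Finite ∧ A = Subring.closure ((F : Set L) ∪ s))
    (hpid : IsPrincipalIdealRing A) (hfr : ∀ x : L, ∃ a ∈ A, ∃ b ∈ A, b ≠ 0 ∧ x * b = a)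
    (htr : Algebra.trdeg F L = 1) (hcl : ∀ x : L, IsAlgebraic F x → x ∈ F) :
    {V : Place F | ¬ (A : Set L) ⊆ V.1}.Finite ∧ Module.Finite ℤ (ClGp F) ∧
      Module.finrank ℤ (ClGp F) + Module.finrank ℤ (UnitsMod κ) =
        {V : Place F | ¬ (A : Set L) ⊆ V.1}.ncard := by
  classical
  have hFA : ∀ x ∈ F, x ∈ A := fun x hx => by
    have h : ((κ ⟨x, hx⟩ : A) : L) = x := hκ ⟨x, hx⟩
    exact h ▸ (κ ⟨x, hx⟩).2
  have hfg' : ∃ s : Set L, s.Finite ∧ Subfield.closure ((F : Set L) ∪ s) = ⊤ := by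
    obtain ⟨s, hs, hA⟩ := hfg
    refine ⟨s, hs, top_unique fun x _ => ?_⟩
    have hle : A ≤ (Subfield.closure ((F : Set L) ∪ s)).toSubring := by
      rw [hA]
      exact Subring.closure_le.2 Subfield.subset_closure
    obtain ⟨a, ha, b, hb, hb0, hab⟩ := hfr x
    rw [eq_div_of_mul_eq hb0 hab]
    exact div_mem (hle ha) (hle hb)
  have hfin : ∀ f : L, {V : Place F | f ∉ V.1}.Finite := place_finite htr hfg'
  choose ν hν using place_ord htr hfg'
  have hO : {V : Place F | ¬ (A : Set L) ⊆ V.1}.Finite := by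
    obtain ⟨s, hs, hA⟩ := hfg
    refine (hs.biUnion fun f _ => hfin f).subset fun V hV => ?_
    by_contra h
    simp only [Set.mem_iUnion, Set.mem_ofPred_eq, not_exists, not_not] at h
    refine hV ?_
    have : A ≤ V.1.toSubring := by
      rw [hA]
      refine Subring.closure_le.2 (Set.union_subset V.2.2 fun f hf => h f hf)
    exact this
  have hker : ∀ u : Additive Lˣ, u ∈ (dv hν hfin).ker ↔ ((Additive.toMul u : Lˣ) : L) ∈ F := by
    intro u
    have hu : ((Additive.toMul u : Lˣ) : L) ≠ 0 := (Additive.toMul u).ne_zero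
    constructor
    · intro h
      refine hcl _ ?_
      by_contra hna
      obtain ⟨V, hV⟩ := place_exists (F := F) (f := ((Additive.toMul u : Lˣ) : L)) hna
      refine hV ?_
      have h1 : dv hν hfin u V = 0 := by
        rw [AddMonoidHom.mem_ker.1 h]
        rfl
      exact ((ord_eq_zero (hν V) hu).1 h1).1
    · intro h
      refine AddMonoidHom.mem_ker.2 ?_
      ext V
      exact (ord_eq_zero (hν V) hu).2 ⟨V.2.2 h, V.2.2 (inv_mem h)⟩
  obtain ⟨h1, h2⟩ := rank_alg (dv hν hfin) {V : Place F | ¬ (A : Set L) ⊆ V.1} hO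
    (by
      intro V hV
      simp only [Set.mem_ofPred_eq, not_not] at hV
      obtain ⟨π, h0, h1, h2⟩ := place_prime hFA hpid hfr hν hV
      refine ⟨Additive.ofMul (Units.mk0 π h0), h1, fun W hW hWV => ?_⟩
      simp only [Set.mem_ofPred_eq, not_not] at hW
      exact h2 W hW hWV)
    (un A)
    (by
      intro u
      have hu : ((Additive.toMul u : Lˣ) : L) ≠ 0 := (Additive.toMul u).ne_zero
      rw [mem_un]
      constructor
      · rintro ⟨h1, h2⟩ V hV
        simp only [Set.mem_ofPred_eq, not_not] at hV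
        exact (ord_eq_zero (hν V) hu).2 ⟨hV h1, hV h2⟩
      · intro h
        have h' : ∀ W : Place F, (A : Set L) ⊆ W.1 →
            ((Additive.toMul u : Lˣ) : L) ∈ W.1 ∧ ((Additive.toMul u : Lˣ) : L)⁻¹ ∈ W.1 :=
          fun W hW => (ord_eq_zero (hν W) hu).1 (h W fun hn => hn hW)
        exact ⟨mem_of_places hFA hpid hfr fun W hW => (h' W hW).1,
          mem_of_places hFA hpid hfr fun W hW => (h' W hW).2⟩)
  rw [finrank_un κ hκ _ hker] at h2
  let e : ClGp F ≃ₗ[ℤ] ((Place F →₀ ℤ) ⧸ (dv hν hfin).range) :=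
    (QuotientAddGroup.quotientAddEquivOfEq (dv_range hν hfin)).toIntLinearEquiv
  refine ⟨hO, Module.Finite.equiv e.symm, ?_⟩
  rw [e.finrank_eq, h2]

end Pool.Agent.Lib.MP_1a0ddd_nt.Nc
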