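import Pool.Agent.Lib.MP_1a0ddd_nt.Nc.Shr

/-! Averages over open subsets. -/

set_option autoImplicit false

namespace Pool.Agent.Lib.MP_1a0ddd_nt.Nc

open Polynomial Pool.Agent.Lib.MP_1a0ddd_nt.Cn Pool.Agent.Lib.MP_1a0ddd_nt.Fb Un

variable {R T S : Type} [CommRing R] [CommRing T] [CommRing S] [Algebra R T] [Algebra R S]

/-- homomorphisms from a localisation are determined by their restriction -/
private theorem cnt_ext {A F : Type} [CommRing A] [CommRing F] (a : A)
    {f g : Localization.Away a →+* F}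
    (h : f.comp (algebraMap A (Localization.Away a)) = g.comp (algebraMap A _)) : f = g :=
  IsLocalization.ringHom_ext (Submonoid.powers a) h

/-- a homomorphism to a field with `σ a ≠ 0` extends to the localisation -/
private theorem cnt_lift {A F : Type} [CommRing A] [Field F] (a : A) (σ : A →+* F) (h : σ a ≠ 0) :
    ∃ ρ : Localization.Away a →+* F, ρ.comp (algebraMap A (Localization.Away a)) = σ :=
  ⟨IsLocalization.Away.lift (S := Localization.Away a) a (isUnit_iff_ne_zero.2 h),
    IsLocalization.Away.lift_comp (S := Localization.Away a) a _⟩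

private theorem cnt_ne {A F : Type} [CommRing A] [Field F] (a : A)
    (ρ : Localization.Away a →+* F) : ρ (algebraMap A _ a) ≠ 0 :=
  ((IsLocalization.Away.algebraMap_isUnit (S := Localization.Away a) a).map ρ).ne_zero

private theorem cnt_map {A B : Type} [CommRing A] [CommRing B] (f : A →+* B) (a : A) :
    (Localization.awayMap f a).comp (algebraMap A (Localization.Away a)) =
      (algebraMap B (Localization.Away (f a))).comp f :=
  IsLocalization.map_comp _

private theorem cnt_S {F : Type} [Field F] (φ : T →ₐ[R] S) (b : T) (g : S)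
    (τ : Localization.Away b →+* F) :
    Nat.card {ρ : Localization.Away (g * φ b) →+* F //
      ρ.comp (shr φ b g : Localization.Away b →+* Localization.Away (g * φ b)) = τ} =
    Nat.card {σ : S →+* F // σ.comp (φ : T →+* S) =
      τ.comp (algebraMap T (Localization.Away b)) ∧ σ g ≠ 0} := by
  have hsh : (shr φ b g : Localization.Away b →+* Localization.Away (g * φ b)).comp
      (algebraMap T (Localization.Away b)) =
        (algebraMap S (Localization.Away (g * φ b))).comp (φ : T →+* S) :=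
    RingHom.ext fun t => shr_apply φ b g t
  refine Nat.card_congr (Equiv.ofBijective (fun ρ => ⟨ρ.1.comp (algebraMap S _), ?_, ?_⟩)
    ⟨?_, ?_⟩)
  · rw [RingHom.comp_assoc, ← hsh, ← RingHom.comp_assoc, ρ.2]
  · have h1 := cnt_ne (g * φ b) ρ.1
    rw [map_mul, map_mul] at h1
    exact left_ne_zero_of_mul h1
  · intro ρ ρ' h
    exact Subtype.ext (cnt_ext _ (congrArg Subtype.val h))
  · rintro ⟨σ, h1, h2⟩
    have h3 : σ (g * φ b) ≠ 0 := by
      rw [map_mul]
      refine mul_ne_zero h2 ?_
      have h4 : σ (φ b) = τ (algebraMap T (Localization.Away b) b) := RingHom.congr_fun h1 b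
      rw [h4]
      exact cnt_ne b τ
    obtain ⟨ρ, hρ⟩ := cnt_lift (g * φ b) σ h3
    refine ⟨⟨ρ, ?_⟩, Subtype.ext hρ⟩
    apply cnt_ext
    rw [RingHom.comp_assoc, hsh, ← RingHom.comp_assoc, hρ]
    exact h1

private theorem cnt_A {A F : Type} [CommRing A] [Field F] (ψ : T →+* A) (b : T)
    (τ : Localization.Away b →+* F) :
    Nat.card {ρ : Localization.Away (ψ b) →+* F // ρ.comp (Localization.awayMap ψ b) = τ} =
    Nat.card {σ : A →+* F // σ.comp ψ = τ.comp (algebraMap T (Localization.Away b))} := by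
  refine Nat.card_congr (Equiv.ofBijective (fun ρ => ⟨ρ.1.comp (algebraMap A _), ?_⟩)
    ⟨?_, ?_⟩)
  · rw [RingHom.comp_assoc, ← cnt_map, ← RingHom.comp_assoc, ρ.2]
  · intro ρ ρ' h
    exact Subtype.ext (cnt_ext _ (congrArg Subtype.val h))
  · rintro ⟨σ, h1⟩
    have h3 : σ (ψ b) ≠ 0 := by
      have h4 : σ (ψ b) = τ (algebraMap T (Localization.Away b) b) := RingHom.congr_fun h1 b
      rw [h4]
      exact cnt_ne b τ
    obtain ⟨ρ, hρ⟩ := cnt_lift (ψ b) σ h3
    refine ⟨⟨ρ, ?_⟩, Subtype.ext hρ⟩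
    apply cnt_ext
    rw [RingHom.comp_assoc, cnt_map, ← RingHom.comp_assoc, hρ]
    exact h1

/-- the points of `T[1/b]` with `D ≠ 0` are those of `T` with `D b ≠ 0`, and similarly for `S` and the
`A i` -/
theorem avg_shr (φ : T →ₐ[R] S) (b : T) (g : S) (D : R) (e p : ℕ) (hp : p.Prime) {I : Type}
    (A : I → Type) [∀ i, CommRing (A i)] (ψ : ∀ i, T →+* A i) {c : ℕ} (v : Fin c ≃ I) :
    avgT (T := Localization.Away b) D e p (fun τ => (p : ℤ) + 1 -
      ptsT (shr φ b g : Localization.Away b →+* Localization.Away (g * φ b)) p τ -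
        ∑ i : Fin c, (ptsT (Localization.awayMap (ψ (v i)) b) p τ : ℤ)) =
      avg (algebraMap R T D * b) e p (trace (φ : T →+* S) g A ψ p) := by
  have : Fact p.Prime := ⟨hp⟩
  unfold avgT avg
  congr 1
  refine finsum_eq_of_bijective (fun τ => ⟨τ.1.comp (algebraMap T (Localization.Away b)), ?_⟩)
    ⟨?_, ?_⟩ ?_
  · rw [map_mul]
    refine mul_ne_zero ?_ (cnt_ne b τ.1)
    have h1 : ∀ x, x = algebraMap R (Localization.Away b) D → τ.1 x ≠ 0 := by
      rintro _ rfl
      exact τ.2
    exact h1 _ (IsScalarTower.algebraMap_apply R T (Localization.Away b) D).symm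
  · intro τ τ' h
    exact Subtype.ext (cnt_ext _ (congrArg Subtype.val h))
  · rintro ⟨σ, h⟩
    rw [map_mul] at h
    obtain ⟨τ, hτ⟩ := cnt_lift b σ (right_ne_zero_of_mul h)
    refine ⟨⟨τ, ?_⟩, Subtype.ext hτ⟩
    rw [IsScalarTower.algebraMap_apply R T (Localization.Away b)]
    have h1 := left_ne_zero_of_mul h
    rw [← hτ] at h1
    exact h1
  · intro τ
    congr 1
    unfold trace ptsT
    beta_reduce
    rw [cnt_S]
    congr 1
    rw [← finsum_comp_equiv v, finsum_eq_sum_of_fintype]
    refine Finset.sum_congr rfl fun i _ => ?_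
    rw [cnt_A]

end Pool.Agent.Lib.MP_1a0ddd_nt.Nc
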