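import Pool.Agent.Lib.MP_1a0ddd_nt.Nc.Shr

/-! The coordinate ring of the generic fibre. -/

set_option autoImplicit false

namespace Pool.Agent.Lib.MP_1a0ddd_nt.Nc

open Polynomial Pool.Agent.Lib.MP_1a0ddd_nt.Cn Pool.Agent.Lib.MP_1a0ddd_nt.Fb Un
  Pool.Agent.Lib.MP_1a0ddd_nt.V

variable {R T S : Type} [CommRing R] [IsDomain R] [CommRing T] [IsDomain T] [CommRing S]
  [IsDomain S] [Algebra R T] [Algebra R S]

/-- the constants in the coordinate ring -/
noncomputable def baseC (φ : T →+* S) (g : S) : baseF φ →+* coordR φ g :=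
  (baseF φ).subtype.codRestrict (coordR φ g)
    fun x => Subring.subset_closure (Or.inl (Or.inl x.2))

private theorem loc_lift {B X L : Type} [CommRing B] [CommRing X] [Algebra B X] [Field L]
    (M : Submonoid B) [IsLocalization M X] (j : B →+* L) (hj : Function.Injective j)
    (hM : ∀ m ∈ M, j m ≠ 0) :
    ∃ J : X →+* L, (∀ s, J (algebraMap B X s) = j s) ∧ Function.Injective J ∧
      ∀ x, ∃ s, ∃ m ∈ M, J x = j s / j m := by
  have hu : ∀ y : M, IsUnit (j y) := fun y => (hM y y.2).isUnit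
  refine ⟨IsLocalization.lift hu, fun s => IsLocalization.lift_eq hu s, ?_, ?_⟩
  · rw [injective_iff_map_eq_zero]
    intro x hx
    obtain ⟨b, m, rfl⟩ := IsLocalization.exists_mk'_eq M x
    have h1 : IsLocalization.lift hu (IsLocalization.mk' X b m * algebraMap B X m) = 0 := by
      rw [map_mul, hx, zero_mul]
    rw [IsLocalization.mk'_spec, IsLocalization.lift_eq] at h1
    have h2 : b = 0 := hj (by rw [h1, map_zero])
    rw [h2, IsLocalization.mk'_zero]
  · intro x
    obtain ⟨b, m, rfl⟩ := IsLocalization.exists_mk'_eq M x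
    refine ⟨b, m, m.2, ?_⟩
    rw [eq_div_iff (hM m m.2)]
    have h1 : IsLocalization.lift hu (IsLocalization.mk' X b m * algebraMap B X m) =
        IsLocalization.lift hu (IsLocalization.mk' X b m) * j m := by
      rw [map_mul, IsLocalization.lift_eq]
    rw [← h1, IsLocalization.mk'_spec, IsLocalization.lift_eq]

private theorem gen_lift {T S L : Type} [CommRing T] [Nontrivial T] [CommRing S] [Field L]
    (φ : T →+* S) (j : S →+* L) (hj : Function.Injective j) (hφ : ∀ t, t ≠ 0 → j (φ t) ≠ 0) :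
    ∃ J : Gen φ →+* L, (∀ s, J (toGen φ s) = j s) ∧ Function.Injective J ∧
      ∀ x, ∃ s t, t ≠ 0 ∧ J x = j s / j (φ t) := by
  obtain ⟨J, h1, h2, h3⟩ := loc_lift (X := Localization ((nonZeroDivisors T).map φ))
    ((nonZeroDivisors T).map φ) j hj (by
      rintro _ ⟨t, ht, rfl⟩
      exact hφ t (nonZeroDivisors.ne_zero ht))
  refine ⟨J, h1, h2, fun x => ?_⟩
  obtain ⟨s, _, ⟨t, ht, rfl⟩, hx⟩ := h3 x
  exact ⟨s, t, nonZeroDivisors.ne_zero ht, hx⟩

private theorem gen_ext' {T S L : Type} [CommRing T] [CommRing S] [CommRing L]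
    (φ : T →+* S) (h h' : Localization ((nonZeroDivisors T).map φ) →+* L)
    (e : ∀ s, h (algebraMap S _ s) = h' (algebraMap S _ s)) : h = h' :=
  IsLocalization.ringHom_ext ((nonZeroDivisors T).map φ) (RingHom.ext e)

private theorem gen_ext {T S L : Type} [CommRing T] [CommRing S] [CommRing L]
    (φ : T →+* S) (h h' : Gen φ →+* L) (e : ∀ s, h (toGen φ s) = h' (toGen φ s)) (x : Gen φ) :
    h x = h' x :=
  RingHom.congr_fun (gen_ext' φ h h' e) x

private theorem baseK_gen {R T S : Type} [CommRing R] [CommRing T] [CommRing S] [Algebra R T]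
    [Algebra R S] (φ : T →ₐ[R] S) (t : T) :
    baseK φ (toGen (algebraMap R T) t) = toGen (algebraMap R S) (φ t) := by
  have h1 : (IsLocalization.map (M := (nonZeroDivisors R).map (algebraMap R T))
    (T := (nonZeroDivisors R).map (algebraMap R S))
    (Localization ((nonZeroDivisors R).map (algebraMap R S))) (φ : T →+* S) (by
      rintro _ ⟨r, hr, rfl⟩
      exact ⟨r, hr, (φ.commutes r).symm⟩) :
    Localization ((nonZeroDivisors R).map (algebraMap R T)) →+* _) (algebraMap T _ t) =
      algebraMap S _ (φ t) := IsLocalization.map_eq _ t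
  exact h1

private theorem cst_alg {T S : Type} [CommRing T] [CommRing S] (φ : T →+* S) (a : T) :
    Fb.cst φ (algebraMap T (FractionRing T) a) = toGen φ (φ a) := by
  have h1 : IsLocalization.map (M := nonZeroDivisors T) (T := (nonZeroDivisors T).map φ)
      (Localization ((nonZeroDivisors T).map φ)) φ (Submonoid.le_comap_map _)
      (algebraMap T (FractionRing T) a) =
        algebraMap S (Localization ((nonZeroDivisors T).map φ)) (φ a) :=
    IsLocalization.map_eq _ a
  exact h1

private theorem away_lift {S L : Type} [CommRing S] [Field L] (j : S →+* L)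
    (hj : Function.Injective j) {g : S} (hg : g ≠ 0) :
    ∃ J : Localization.Away g →+* L, (∀ s, J (algebraMap S (Localization.Away g) s) = j s) ∧
      Function.Injective J ∧ ∀ x, ∃ (s : S) (n : ℕ), J x = j s / j g ^ n := by
  have hg' : j g ≠ 0 := fun h => hg (hj (by rw [h, map_zero]))
  obtain ⟨J, h1, h2, h3⟩ := loc_lift (X := Localization.Away g) (Submonoid.powers g) j hj (by
    rintro _ ⟨n, rfl⟩
    show j (g ^ n) ≠ 0
    rw [map_pow]
    exact pow_ne_zero n hg')
  refine ⟨J, h1, h2, fun x => ?_⟩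
  obtain ⟨s, _, ⟨n, rfl⟩, hx⟩ := h3 x
  refine ⟨s, n, ?_⟩
  rw [hx]
  show j s / j (g ^ n) = _
  rw [map_pow]

/-- Proof. `Gen (baseK (shr φ b g)) → L`, `L = FractionRing S`, is injective with image `coordR φ g`
(`φ b` is a unit there), and the fraction field of `Gen (algebraMap R (Localization.Away b))` has
image `baseF φ` in `L` -/
theorem coordR_equiv (hi : Function.Injective (algebraMap R T)) (φ : T →ₐ[R] S)
    (hφ : Function.Injective φ) {b : T} (hb : b ≠ 0) {g : S} (hg : g ≠ 0)
    [IsDomain (Gen (algebraMap R (Localization.Away b)))] :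
    ∃ (f : Gen (baseK (shr φ b g)) ≃+* coordR (φ : T →+* S) g)
      (c : FractionRing (Gen (algebraMap R (Localization.Away b))) ≃+* baseF (φ : T →+* S)),
      ∀ x, f (Fb.cst (baseK (shr φ b g)) x) = baseC (φ : T →+* S) g (c x) := by
  set L := FractionRing S with hL
  have hφ0 : ∀ t, t ≠ 0 → φ t ≠ 0 := fun t ht h => ht (hφ (by rw [h, map_zero]))
  have hi0 : ∀ r, r ≠ 0 → algebraMap R T r ≠ 0 := fun r hr h => hr (hi (by rw [h, map_zero]))
  have hjS : Function.Injective (algebraMap S L) := IsFractionRing.injective S L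
  have hgb : g * φ b ≠ 0 := mul_ne_zero hg (hφ0 b hb)
  -- the embedding of the open subset
  obtain ⟨j1, j1a, j1i, j1f⟩ := away_lift (algebraMap S L) hjS hgb
  -- the base
  have hshr : ∀ t : T, j1 (shr φ b g (algebraMap T (Localization.Away b) t)) =
      toL (φ : T →+* S) t := by
    intro t
    rw [shr_apply, j1a]
    rfl
  obtain ⟨k1, k1a, k1i, k1f⟩ := away_lift (toL (φ : T →+* S)) (by
    intro x y h
    exact hφ (hjS h)) hb
  have hk1 : ∀ t : Localization.Away b, j1 (shr φ b g t) = k1 t := by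
    have h0 : (j1.comp ((shr φ b g : Localization.Away b →ₐ[R] _) :
        Localization.Away b →+* Localization.Away (g * φ b))) = k1 := by
      apply IsLocalization.ringHom_ext (Submonoid.powers b)
      ext t
      exact (hshr t).trans (k1a t).symm
    exact fun t => RingHom.congr_fun h0 t
  have hrT : ∀ r : R, r ≠ 0 → k1 (algebraMap R (Localization.Away b) r) ≠ 0 := by
    intro r hr h
    have h1 : algebraMap R (Localization.Away b) r =
      algebraMap T (Localization.Away b) (algebraMap R T r) :=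
        IsScalarTower.algebraMap_apply R T (Localization.Away b) r
    rw [h1, k1a] at h
    exact hφ0 _ (hi0 r hr) (hjS (by rw [map_zero]; exact h))
  have hrS : ∀ r : R, r ≠ 0 → j1 (algebraMap R (Localization.Away (g * φ b)) r) ≠ 0 := by
    intro r hr h
    have h1 := (shr φ b g).commutes r
    rw [← h1, hk1] at h
    exact hrT r hr h
  obtain ⟨j2, j2a, j2i, j2f⟩ := gen_lift (algebraMap R (Localization.Away (g * φ b))) j1 j1i hrS
  obtain ⟨k2, k2a, k2i, k2f⟩ := gen_lift (algebraMap R (Localization.Away b)) k1 k1i hrT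
  have hbK : ∀ t : Localization.Away b, baseK (shr φ b g)
      (toGen (algebraMap R (Localization.Away b)) t) =
      toGen (algebraMap R (Localization.Away (g * φ b))) (shr φ b g t) :=
    fun t => baseK_gen (shr φ b g) t
  have hk2 : ∀ a, j2 (baseK (shr φ b g) a) = k2 a := by
    refine gen_ext (algebraMap R (Localization.Away b)) (j2.comp (baseK (shr φ b g))) k2 ?_
    intro t
    show j2 (baseK (shr φ b g) (toGen (algebraMap R (Localization.Away b)) t)) =
        k2 (toGen (algebraMap R (Localization.Away b)) t)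
    rw [hbK, j2a, k2a, hk1]
  have hA : ∀ a, a ≠ 0 → j2 (baseK (shr φ b g) a) ≠ 0 := by
    intro a ha h
    rw [hk2] at h
    exact ha (k2i (by rw [h, map_zero]))
  obtain ⟨j3, j3a, j3i, j3f⟩ := gen_lift (baseK (shr φ b g)) j2 j2i hA
  obtain ⟨k3, k3a, k3i, k3f⟩ := loc_lift
    (X := FractionRing (Gen (algebraMap R (Localization.Away b))))
    (nonZeroDivisors (Gen (algebraMap R (Localization.Away b)))) k2 k2i (by
      intro m hm h
      exact nonZeroDivisors.ne_zero hm (k2i (by rw [h, map_zero])))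
  have hk3 : ∀ x, j3 (Fb.cst (baseK (shr φ b g)) x) = k3 x := by
    have h0 : j3.comp (Fb.cst (baseK (shr φ b g))) = k3 := by
      apply IsLocalization.ringHom_ext
        (nonZeroDivisors (Gen (algebraMap R (Localization.Away b))))
      ext a
      show j3 (Fb.cst (baseK (shr φ b g)) (algebraMap _ _ a)) = k3 (algebraMap _ _ a)
      rw [cst_alg, j3a, k3a, hk2]
    exact fun t => RingHom.congr_fun h0 t
  -- images
  have m0 : ∀ t : T, toL (φ : T →+* S) t ∈ baseF (φ : T →+* S) := fun t =>
    Subfield.subset_closure ⟨t, rfl⟩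
  have m1 : ∀ t, k1 t ∈ baseF (φ : T →+* S) := by
    intro t
    obtain ⟨s, n, h⟩ := k1f t
    rw [h]
    exact div_mem (m0 s) (pow_mem (m0 b) n)
  have m2 : ∀ t, k2 t ∈ baseF (φ : T →+* S) := by
    intro t
    obtain ⟨s, r, _, h⟩ := k2f t
    rw [h]
    exact div_mem (m1 s) (m1 _)
  have m3 : ∀ t, k3 t ∈ baseF (φ : T →+* S) := by
    intro t
    obtain ⟨s, r, _, h⟩ := k3f t
    rw [h]
    exact div_mem (m2 s) (m2 r)
  have s3 : ∀ y ∈ baseF (φ : T →+* S), ∃ x, k3 x = y := by
    intro y hy
    have h1 : baseF (φ : T →+* S) ≤ k3.fieldRange := by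
      rw [baseF, Subfield.closure_le]
      rintro _ ⟨t, rfl⟩
      refine ⟨algebraMap _ _ (toGen (algebraMap R (Localization.Away b))
        (algebraMap T (Localization.Away b) t)), ?_⟩
      rw [k3a, k2a, k1a]
    exact h1 hy
  have c0 : ∀ x ∈ baseF (φ : T →+* S), x ∈ coordR (φ : T →+* S) g := fun x hx =>
    Subring.subset_closure (Or.inl (Or.inl hx))
  have n0 : ∀ s : S, algebraMap S L s ∈ coordR (φ : T →+* S) g := fun s =>
    Subring.subset_closure (Or.inl (Or.inr ⟨s, rfl⟩))
  have n1 : ∀ s, j1 s ∈ coordR (φ : T →+* S) g := by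
    intro x
    obtain ⟨s, n, h⟩ := j1f x
    have g1 : (algebraMap S L g)⁻¹ ∈ coordR (φ : T →+* S) g := Subring.subset_closure (Or.inr rfl)
    have g2 : (toL (φ : T →+* S) b)⁻¹ ∈ coordR (φ : T →+* S) g := c0 _ (inv_mem (m0 b))
    have h1 : j1 x = algebraMap S L s * ((algebraMap S L g)⁻¹ * (toL (φ : T →+* S) b)⁻¹) ^ n := by
      rw [h, div_eq_mul_inv, map_mul, ← mul_inv, inv_pow]
      rfl
    rw [h1]
    exact mul_mem (n0 s) (pow_mem (mul_mem g1 g2) n)
  have n2 : ∀ s, j2 s ∈ coordR (φ : T →+* S) g := by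
    intro x
    obtain ⟨s, r, _, h⟩ := j2f x
    rw [h, div_eq_mul_inv]
    refine mul_mem (n1 s) (c0 _ (inv_mem ?_))
    have h1 := (shr φ b g).commutes r
    rw [← h1, hk1]
    exact m1 _
  have n3 : ∀ s, j3 s ∈ coordR (φ : T →+* S) g := by
    intro x
    obtain ⟨s, r, _, h⟩ := j3f x
    rw [h, div_eq_mul_inv]
    refine mul_mem (n2 s) (c0 _ (inv_mem ?_))
    rw [hk2]
    exact m2 _
  have s4 : ∀ y ∈ coordR (φ : T →+* S) g, ∃ x, j3 x = y := by
    intro y hy
    have h1 : coordR (φ : T →+* S) g ≤ j3.range := by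
      rw [coordR, Subring.closure_le]
      rintro y ((hy | ⟨s, rfl⟩) | hy)
      · obtain ⟨x, rfl⟩ := s3 y hy
        exact ⟨_, hk3 x⟩
      · exact ⟨toGen _ (toGen _ (algebraMap S (Localization.Away (g * φ b)) s)),
          (j3a _).trans ((j2a _).trans (j1a _))⟩
      · refine ⟨toGen _ (toGen _ (algebraMap S (Localization.Away (g * φ b)) (φ b) *
          IsLocalization.Away.invSelf (g * φ b))), ?_⟩
        rw [Set.mem_singleton_iff.mp hy]
        refine (j3a _).trans ((j2a _).trans ?_)
        rw [map_mul, j1a]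
        have h2 : j1 (algebraMap S (Localization.Away (g * φ b)) (g * φ b) *
            IsLocalization.Away.invSelf (g * φ b)) = 1 := by
          rw [IsLocalization.Away.mul_invSelf, map_one]
        rw [map_mul, j1a, map_mul] at h2
        apply eq_inv_of_mul_eq_one_right
        rw [← h2]
        ring
    exact h1 hy
  let f0 : Gen (baseK (shr φ b g)) →+* coordR (φ : T →+* S) g := j3.codRestrict _ n3
  let c1 : FractionRing (Gen (algebraMap R (Localization.Away b))) →+* baseF (φ : T →+* S) :=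
    k3.codRestrict _ m3
  refine ⟨RingEquiv.ofBijective f0 ⟨?_, ?_⟩, RingEquiv.ofBijective c1 ⟨?_, ?_⟩, ?_⟩
  · intro x y h
    exact j3i (congrArg Subtype.val h)
  · rintro ⟨y, hy⟩
    obtain ⟨x, hx⟩ := s4 y hy
    exact ⟨x, Subtype.ext hx⟩
  · intro x y h
    exact k3i (congrArg Subtype.val h)
  · rintro ⟨y, hy⟩
    obtain ⟨x, hx⟩ := s3 y hy
    exact ⟨x, Subtype.ext hx⟩
  · intro x
    exact Subtype.ext (hk3 x)

private theorem finrank_unitsMod {K K' A A' : Type} [Field K] [Field K'] [CommRing A]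
    [CommRing A'] (κ : K →+* A) (κ' : K' →+* A') (f : A ≃+* A') (c : K ≃+* K')
    (h : ∀ x, f (κ x) = κ' (c x)) :
    Module.finrank ℤ (UnitsMod κ) = Module.finrank ℤ (UnitsMod κ') := by
  have h1 : (Units.map (κ : K →* A)).range.map (Units.mapEquiv (f : A ≃* A')).toMonoidHom =
      (Units.map (κ' : K' →* A')).range := by
    ext u
    constructor
    · rintro ⟨_, ⟨x, rfl⟩, rfl⟩
      refine ⟨Units.map (c : K →* K') x, ?_⟩
      ext
      exact (h x).symm
    · rintro ⟨x, rfl⟩
      refine ⟨_, ⟨Units.map (c.symm : K' →* K) x, rfl⟩, ?_⟩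
      ext
      show f (κ (c.symm x)) = κ' x
      rw [h, RingEquiv.apply_symm_apply]
  let e : (Aˣ ⧸ (Units.map (κ : K →* A)).range) ≃* (A'ˣ ⧸ (Units.map (κ' : K' →* A')).range) :=
    QuotientGroup.congr _ _ (Units.mapEquiv (f : A ≃* A')) h1
  let e2 : UnitsMod κ ≃+ UnitsMod κ' := MulEquiv.toAdditive e
  exact e2.toIntLinearEquiv.finrank_eq

/-- transport along `coordR_equiv` -/
theorem coordR_rank (hi : Function.Injective (algebraMap R T)) (φ : T →ₐ[R] S)
    (hφ : Function.Injective φ) {b : T} (hb : b ≠ 0) {g : S} (hg : g ≠ 0)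
    [IsDomain (Gen (algebraMap R (Localization.Away b)))]
    (hp : IsPrincipalIdealRing (Gen (baseK (shr φ b g)))) :
    IsPrincipalIdealRing (coordR (φ : T →+* S) g) ∧
      unitRk (baseK (shr φ b g)) = Module.finrank ℤ (UnitsMod (baseC (φ : T →+* S) g)) := by
  obtain ⟨f, c, h⟩ := coordR_equiv hi φ hφ hb hg
  refine ⟨IsPrincipalIdealRing.of_surjective
    (f : Gen (baseK (shr φ b g)) →+* coordR (φ : T →+* S) g) f.surjective, ?_⟩
  exact finrank_unitsMod _ _ f c h

end Pool.Agent.Lib.MP_1a0ddd_nt.Nc
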