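import Pool.Agent.Lib.MP_1a0ddd_nt.Un.Defs
import Pool.Agent.Lib.MP_1a0ddd_nt.Nc.Bas

/-! Fibrations in curves of towers of conics: definitions. -/

set_option autoImplicit false

namespace Pool.Agent.Lib.MP_1a0ddd_nt.Nc

open Polynomial

/-- the map from `T` to the function field of `Spec S` -/
noncomputable abbrev toL {T S : Type} [CommRing T] [CommRing S] (φ : T →+* S) :
    T →+* FractionRing S :=
  (algebraMap S (FractionRing S)).comp φ

/-- the function field of `Spec T`, inside the function field of `Spec S` -/
noncomputable def baseF {T S : Type} [CommRing T] [CommRing S] [IsDomain S] (φ : T →+* S) :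
    Subfield (FractionRing S) :=
  Subfield.closure (Set.range (toL φ))

/-- `Spec S → Spec T` is a family of curves over `Spec R` with geometrically irreducible generic
fibre, and over the fraction field of `R` the varieties `Spec T` and `Spec S` are birational to
towers of `n` and of `n + 1` conics -/
structure CurveFib {R T S : Type} [CommRing R] [CommRing T] [IsDomain T] [CommRing S]
    [IsDomain S] [Algebra R T] [Algebra R S] (φ : T →ₐ[R] S) (n : ℕ) : Prop where
  finT : Algebra.FiniteType R T
  finS : Algebra.FiniteType R S
  injT : Function.Injective (algebraMap R T)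
  inj : Function.Injective φ
  towT : ConicTower R (FractionRing T) n
  towS : ConicTower R (FractionRing S) (n + 1)
  closed : ∀ x : FractionRing S, IsAlgebraic (baseF (φ : T →+* S)) x → x ∈ baseF (φ : T →+* S)

variable {T S : Type} [CommRing T] [CommRing S] [IsDomain S]

/-- the coordinate ring of the open subset `g ≠ 0` of the generic fibre of `Spec S → Spec T` -/
noncomputable def coordR (φ : T →+* S) (g : S) : Subring (FractionRing S) :=
  Subring.closure ((baseF φ : Set (FractionRing S)) ∪ Set.range (algebraMap S (FractionRing S)) ∪
    {(algebraMap S (FractionRing S) g)⁻¹})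

/-- the closed points of the complete curve which are not in this open subset -/
def Out (φ : T →+* S) (g : S) : Set (Place (baseF φ)) :=
  {V | ¬ (coordR φ g : Set (FractionRing S)) ⊆ V.1}

/-- `A` is a finitely generated domain over `T`, and its fraction field is the residue field of the
complete curve at the closed point `V` -/
structure ResModel (φ : T →+* S) (V : Place (baseF φ)) {A : Type} [CommRing A] (ψ : T →+* A) :
    Prop where
  fin : ψ.FiniteType
  emb : ∃ ι : A →+* IsLocalRing.ResidueField V.1, Function.Injective ι ∧
    (∀ (t : T) (v : V.1), (v : FractionRing S) = toL φ t →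
      ι (ψ t) = IsLocalRing.residue V.1 v) ∧
    ∀ x, ∃ a b : A, b ≠ 0 ∧ x * ι b = ι a

/-- Q1 for the complete regular curve `C` which is the generic fibre of `Spec S → Spec T`. `fg`:
its divisor class group is finitely generated. `models`: the residue fields of `C` have
models over `Spec T`. `mean`: on a suitable open subset `g ≠ 0` of
`Spec S` (inside any given one) the generic fibre is affine with a factorial coordinate ring, and
for all models of the other closed points of `C` and for a suitable open subset `b ≠ 0` of `Spec T`
(inside any given one) the mean of the averages of the traces of Frobenius is `1 - rank Cl(C)`,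
that is, minus the rank of `Pic⁰(C)` -/
structure Nagao (φ : T →+* S) (e : ℕ) : Prop where
  fg : Module.Finite ℤ (ClGp (baseF φ))
  models : ∀ V : Place (baseF φ), ∃ (A : Type) (_ : CommRing A) (ψ : T →+* A), ResModel φ V ψ
  mean : ∀ g₀ : S, g₀ ≠ 0 → ∃ g : S, g ≠ 0 ∧ g₀ ∣ g ∧ IsPrincipalIdealRing (coordR φ g) ∧
    (Out φ g).Finite ∧ ∀ (A : Out φ g → Type) [∀ V, CommRing (A V)] (ψ : ∀ V, T →+* A V),
      (∀ V : Out φ g, ResModel φ V.1 (ψ V)) → ∀ b₀ : T, b₀ ≠ 0 → ∃ b : T, b ≠ 0 ∧ b₀ ∣ b ∧
        Quad.TauMean (fun p => avg b e p (trace φ g A ψ p))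
          (1 - Module.finrank ℤ (ClGp (baseF φ)))

end Pool.Agent.Lib.MP_1a0ddd_nt.Nc
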