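import Pool.Agent.Lib.MP_1a0ddd_nt.Nc.Loc
import Pool.Agent.Lib.MP_1a0ddd_nt.Cn.Prm
import Pool.Agent.Lib.MP_1a0ddd_nt.Un.Fin

/-! Conic bundles and affine lines inside a field. -/

set_option autoImplicit false

namespace Pool.Agent.Lib.MP_1a0ddd_nt.Nc

open Polynomial Un Pool.Agent.Lib.MP_1a0ddd_nt.Cn Pool.Agent.Lib.MP_1a0ddd_nt.Fb

variable {R L : Type} [CommRing R] [IsDomain R] [Field L] [Algebra R L] {d n e : ℕ}

omit [IsDomain R] in
/-- a polynomial over `S` does not vanish at `t` -/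
private theorem emb_zero {S : Subalgebra R L} {t : L}
    (ht : Transcendental (Subfield.closure (S : Set L)) t) {α : S[X]}
    (h : eval₂ (S.val : S →+* L) t α = 0) : α = 0 := by
  obtain ⟨i, hi⟩ : ∃ i : S →+* Subfield.closure (S : Set L),
      ∀ s : S, ((i s : Subfield.closure (S : Set L)) : L) = s :=
    ⟨(S.val : S →+* L).codRestrict (Subfield.closure (S : Set L))
      (fun s => Subfield.subset_closure s.2), fun s => rfl⟩
  have hinj : Function.Injective i := fun x y h => Subtype.ext (by rw [← hi, ← hi, h])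
  have h1 : aeval t (α.map i) = 0 := by
    rw [aeval_def, eval₂_map]
    have h2 : (algebraMap (Subfield.closure (S : Set L)) L).comp i = (S.val : S →+* L) :=
      RingHom.ext fun s => hi s
    rw [h2]
    exact h
  have h3 := transcendental_iff.1 ht _ h1
  exact Polynomial.map_injective i hinj (by rw [h3, Polynomial.map_zero])

omit [IsDomain R] in
/-- values of polynomials over `S` -/
private theorem emb_mem {S B : Subalgebra R L} (hS : ∀ s : S, (s : L) ∈ B) {t : L} (ht : t ∈ B)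
    (α : S[X]) : eval₂ (S.val : S →+* L) t α ∈ B := by
  rw [eval₂_eq_sum_range]
  exact B.sum_mem fun i _ => B.mul_mem (hS _) (B.pow_mem ht i)

omit [IsDomain R] in
/-- a ring with an embedding into `L` is isomorphic to its image -/
private theorem emb_equiv {A : Type} [CommRing A] [Algebra R A] (J : A →+* L)
    (hc : ∀ r : R, J (algebraMap R A r) = algebraMap R L r) (hJ : Function.Injective J)
    (B : Subalgebra R L) (h1 : ∀ x : A, J x ∈ B) (h2 : ∀ z ∈ B, ∃ x : A, J x = z) :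
    Nonempty (A ≃ₐ[R] B) := by
  obtain ⟨φ, hφ⟩ : ∃ φ : A →ₐ[R] L, ∀ x, φ x = J x :=
    ⟨{ J with commutes' := hc }, fun x => rfl⟩
  have hinj : Function.Injective φ := fun x y h => hJ (by rw [← hφ, ← hφ, h])
  have hrange : φ.range = B := by
    apply le_antisymm
    · rintro _ ⟨x, rfl⟩
      have h3 := h1 x
      rw [← hφ] at h3
      exact h3
    · intro z hz
      obtain ⟨x, hx⟩ := h2 z hz
      exact ⟨x, by rw [← hx, ← hφ]; rfl⟩
  exact ⟨(AlgEquiv.ofInjective φ hinj).trans (Subalgebra.equivOfEq _ _ hrange)⟩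

/-- proof: `S[X]` and `S[t]` are isomorphic -/
theorem emb_line (hR : BaseVar R d) (S : Subalgebra R L) (h : Tate R S d n e) {t : L}
    (ht : Transcendental (Subfield.closure (S : Set L)) t) :
    Tate R (Algebra.adjoin R ((S : Set L) ∪ {t}) : Subalgebra R L) d (n + 1) e := by
  obtain ⟨J, hJ⟩ : ∃ J : S[X] →+* L, ∀ α, J α = eval₂ (S.val : S →+* L) t α :=
    ⟨eval₂RingHom (S.val : S →+* L) t, fun α => rfl⟩
  have hS : ∀ s : S, (s : L) ∈ (Algebra.adjoin R ((S : Set L) ∪ {t}) : Subalgebra R L) :=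
    fun s => Algebra.subset_adjoin (Or.inl s.2)
  have htB : t ∈ (Algebra.adjoin R ((S : Set L) ∪ {t}) : Subalgebra R L) :=
    Algebra.subset_adjoin (Or.inr rfl)
  have hJC : ∀ s : S, J (C s) = s := fun s => by rw [hJ, eval₂_C]; rfl
  have hc : ∀ r : R, J (algebraMap R S[X] r) = algebraMap R L r := by
    intro r
    have h1 : algebraMap R S[X] r = C (algebraMap R S r) := rfl
    rw [h1, hJC]
    rfl
  obtain ⟨f⟩ := emb_equiv J hc ((injective_iff_map_eq_zero J).2 fun α hα => by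
    rw [hJ] at hα
    exact emb_zero ht hα) (Algebra.adjoin R ((S : Set L) ∪ {t}) : Subalgebra R L)
    (fun α => by rw [hJ]; exact emb_mem hS htB α) (fun z hz => by
      induction hz using Algebra.adjoin_induction with
      | mem x hx =>
        rcases hx with hx | hx
        · exact ⟨C ⟨x, hx⟩, hJC _⟩
        · rw [Set.mem_singleton_iff.1 hx]
          exact ⟨X, by rw [hJ, eval₂_X]⟩
      | algebraMap r => exact ⟨algebraMap R S[X] r, hc r⟩
      | add x y _ _ hx hy =>
        obtain ⟨u, rfl⟩ := hx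
        obtain ⟨v, rfl⟩ := hy
        exact ⟨u + v, map_add J u v⟩
      | mul x y _ _ hx hy =>
        obtain ⟨u, rfl⟩ := hx
        obtain ⟨v, rfl⟩ := hy
        exact ⟨u * v, map_mul J u v⟩)
  exact tate_equiv f (tate_poly hR h)

/-- the element `α + β v` -/
private theorem emb_elc {S : Type} [CommRing S] {a b c : S} (α β : S[X]) :
    elc a b c α β = AdjoinRoot.mk (X ^ 2 - C (cq a b c) : S[X][X]) (C α + C β * X) := by
  rw [map_add, map_mul, AdjoinRoot.mk_X, AdjoinRoot.mk_C, AdjoinRoot.mk_C]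
  rfl

/-- the conic bundle over `S` is the ring `S[x, y]`: `P(x) + Q(x) y = 0` gives `P² = Q² (a X² + 2 b X + c)`,
and then the leading coefficients give a solution of `aniso` unless `Q = 0` -/
theorem emb_conic {S : Subalgebra R L} {a b c : S} {x y : L}
    (hx : Transcendental (Subfield.closure (S : Set L)) x)
    (hy : y ^ 2 = a * x ^ 2 + 2 * b * x + c)
    (h : ∀ x y z : S, y ^ 2 = a * x ^ 2 + 2 * b * x * z + c * z ^ 2 → x = 0 ∧ z = 0) :
    Nonempty (Conic a b c ≃ₐ[R] (Algebra.adjoin R ((S : Set L) ∪ {x, y}) : Subalgebra R L)) := by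
  have hcq : eval₂ (S.val : S →+* L) x (cq a b c) = y ^ 2 := by
    rw [hy, cq, eval₂_add, eval₂_add, eval₂_mul, eval₂_mul, eval₂_pow, eval₂_X, eval₂_C,
      eval₂_C, eval₂_C, map_mul, map_ofNat]
    rfl
  obtain ⟨J, hJ⟩ : ∃ J : Conic a b c →+* L, ∀ α β : S[X], J (elc a b c α β) =
      eval₂ (S.val : S →+* L) x α + eval₂ (S.val : S →+* L) x β * y := by
    have h0 : eval₂ (eval₂RingHom (S.val : S →+* L) x) y
        (X ^ 2 - C (cq a b c) : S[X][X]) = 0 := by
      rw [eval₂_sub, eval₂_pow, eval₂_X, eval₂_C, coe_eval₂RingHom, hcq, sub_self]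
    let J : AdjoinRoot (X ^ 2 - C (cq a b c) : S[X][X]) →+* L :=
      AdjoinRoot.lift (eval₂RingHom (S.val : S →+* L) x) y h0
    refine ⟨J, fun α β => ?_⟩
    have h1 : J (AdjoinRoot.mk (X ^ 2 - C (cq a b c) : S[X][X]) (C α + C β * X)) =
        eval₂ (S.val : S →+* L) x α + eval₂ (S.val : S →+* L) x β * y := by
      simp only [J]
      rw [AdjoinRoot.lift_mk, eval₂_add, eval₂_mul, eval₂_C, eval₂_C, eval₂_X]
      rfl
    rw [emb_elc]
    exact h1
  have hS : ∀ s : S, (s : L) ∈ (Algebra.adjoin R ((S : Set L) ∪ {x, y}) : Subalgebra R L) :=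
    fun s => Algebra.subset_adjoin (Or.inl s.2)
  have hxB : x ∈ (Algebra.adjoin R ((S : Set L) ∪ {x, y}) : Subalgebra R L) :=
    Algebra.subset_adjoin (Or.inr (Or.inl rfl))
  have hyB : y ∈ (Algebra.adjoin R ((S : Set L) ∪ {x, y}) : Subalgebra R L) :=
    Algebra.subset_adjoin (Or.inr (Or.inr rfl))
  have hJC : ∀ s : S, J (toConic a b c s) = s := fun s => by
    rw [elc_C, hJ, eval₂_C, eval₂_zero, zero_mul, add_zero]
    rfl
  have hc : ∀ r : R, J (algebraMap R (Conic a b c) r) = algebraMap R L r := by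
    intro r
    have h1 : algebraMap R (Conic a b c) r = toConic a b c (algebraMap R S r) := rfl
    rw [h1, hJC]
    rfl
  have hinj : Function.Injective J := by
    rw [injective_iff_map_eq_zero]
    intro z hz
    obtain ⟨α, β, rfl⟩ := elc_surj z
    rw [hJ] at hz
    have h1 : α ^ 2 - cq a b c * β ^ 2 = 0 := by
      apply emb_zero hx
      rw [eval₂_sub, eval₂_mul, eval₂_pow, eval₂_pow, hcq]
      linear_combination (eval₂ (S.val : S →+* L) x α - eval₂ (S.val : S →+* L) x β * y) * hz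
    have h2 : ¬ (α ≠ 0 ∨ β ≠ 0) := fun h3 => (norm_degree h h3).1 h1
    push Not at h2
    have h4 : (0 : Conic a b c) = elc a b c 0 0 := by
      have h5 := elc_C (a := a) (b := b) (c := c) 0
      rwa [map_zero, C_0] at h5
    rw [h2.1, h2.2, ← h4]
  refine emb_equiv J hc hinj _ (fun z => ?_) (fun z hz => ?_)
  · obtain ⟨α, β, rfl⟩ := elc_surj z
    rw [hJ]
    exact Subalgebra.add_mem _ (emb_mem hS hxB α) (Subalgebra.mul_mem _ (emb_mem hS hxB β) hyB)
  · induction hz using Algebra.adjoin_induction with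
    | mem w hw =>
      rcases hw with hw | hw | hw
      · exact ⟨toConic a b c ⟨w, hw⟩, hJC _⟩
      · exact ⟨elc a b c X 0, by rw [hJ, eval₂_X, eval₂_zero, zero_mul, add_zero, hw]⟩
      · rw [Set.mem_singleton_iff.1 hw]
        exact ⟨elc a b c 0 1, by rw [hJ, eval₂_one, eval₂_zero, one_mul, zero_add]⟩
    | algebraMap r => exact ⟨algebraMap R (Conic a b c) r, hc r⟩
    | add u v _ _ hu hv =>
      obtain ⟨u, rfl⟩ := hu
      obtain ⟨v, rfl⟩ := hv
      exact ⟨u + v, map_add J u v⟩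
    | mul u v _ _ hu hv =>
      obtain ⟨u, rfl⟩ := hu
      obtain ⟨v, rfl⟩ := hv
      exact ⟨u * v, map_mul J u v⟩

section

private theorem emb_prm_coeff {F : Type} [CommRing F] (p q r : F) :
    (C p * X ^ 2 + C q * X + C r).coeff 2 = p ∧ (C p * X ^ 2 + C q * X + C r).coeff 1 = q ∧
      (C p * X ^ 2 + C q * X + C r).coeff 0 = r := by
  refine ⟨?_, ?_, ?_⟩ <;> simp [coeff_X, coeff_C, coeff_X_pow]

/-- a quadratic polynomial over a field which is a square up to squares -/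
private theorem emb_prm_field {F : Type} [Field F] (h2 : (2 : F) ≠ 0) {a b c : F} {A B : F[X]}
    (h : A ^ 2 = cq a b c * B ^ 2) (hB : B ≠ 0) : ∃ l l' : F, a = l ^ 2 ∧ b = l * l' ∧
      c = l' ^ 2 := by
  have h1 : B ^ 2 ∣ A ^ 2 := ⟨cq a b c, by rw [h, mul_comm]⟩
  have h3 : B ∣ A := (IsIntegrallyClosed.pow_dvd_pow_iff two_ne_zero).1 h1
  obtain ⟨g, hg⟩ := h3
  have h4 : g ^ 2 = cq a b c := by
    have h5 : B ^ 2 * g ^ 2 = B ^ 2 * cq a b c := by
      rw [← mul_pow, ← hg, h, mul_comm]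
    exact mul_left_cancel₀ (pow_ne_zero 2 hB) h5
  have h5 : g.natDegree ≤ 1 := by
    have h6 : (cq a b c).natDegree ≤ 2 := by
      unfold cq
      compute_degree
    rw [← h4, natDegree_pow] at h6
    omega
  obtain ⟨l, l', rfl⟩ := exists_eq_X_add_C_of_natDegree_le_one h5
  have e : (C l * X + C l') ^ 2 = C (l ^ 2) * X ^ 2 + C (2 * (l * l')) * X + C (l' ^ 2) := by
    simp only [C_mul, C_pow, map_ofNat]
    ring
  rw [e] at h4
  unfold cq at h4
  obtain ⟨k1, k2, k3⟩ := emb_prm_coeff (l ^ 2) (2 * (l * l')) (l' ^ 2)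
  obtain ⟨k4, k5, k6⟩ := emb_prm_coeff a (2 * b) c
  rw [h4] at k1 k2 k3
  exact ⟨l, l', k4.symm.trans k1, mul_left_cancel₀ h2 (k5.symm.trans k2), k6.symm.trans k3⟩

/-- the reduction modulo a prime element -/
private theorem emb_prm_red {O : Type} [CommRing O] [IsDomain O] {π : O} (hπ : Prime π) :
    ∃ (F : Type) (_ : Field F) (ψ : O →+* F), (∀ x, ψ x = 0 ↔ π ∣ x) ∧
      ∀ z : F, ∃ x y : O, ψ x ≠ 0 ∧ z = ψ y / ψ x := by
  have hp : (Ideal.span {π}).IsPrime := (Ideal.span_singleton_prime hπ.ne_zero).2 hπ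
  have : IsDomain (O ⧸ Ideal.span {π}) := Ideal.Quotient.isDomain _
  let F := FractionRing (O ⧸ Ideal.span {π})
  let ψ : O →+* F := (algebraMap (O ⧸ Ideal.span {π}) F).comp (Ideal.Quotient.mk _)
  have h0 : ∀ x, ψ x = 0 ↔ π ∣ x := by
    intro x
    show algebraMap (O ⧸ Ideal.span {π}) F (Ideal.Quotient.mk _ x) = 0 ↔ _
    rw [FaithfulSMul.algebraMap_eq_zero_iff, Ideal.Quotient.eq_zero_iff_mem,
      Ideal.mem_span_singleton]
  refine ⟨F, inferInstance, ψ, h0, fun z => ?_⟩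
  obtain ⟨y, x, hx, hz⟩ := IsFractionRing.div_surjective (A := O ⧸ Ideal.span {π}) z
  obtain ⟨y, rfl⟩ := Ideal.Quotient.mk_surjective y
  obtain ⟨x, rfl⟩ := Ideal.Quotient.mk_surjective x
  refine ⟨x, y, ?_, hz.symm⟩
  show algebraMap (O ⧸ Ideal.span {π}) F (Ideal.Quotient.mk _ x) ≠ 0
  rw [Ne, FaithfulSMul.algebraMap_eq_zero_iff]
  exact nonZeroDivisors.ne_zero hx

variable {O : Type} [CommRing O] [IsDomain O] {a b c : O}

/-- proof: let `F` be the fraction field of `O/π`. If `α² = f β²` modulo `π` and `β ≠ 0` modulo `π`,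
then `f` modulo `π` is a square in `F(X)`, hence `f = (l X + l')²` with `l, l'` in `F`: so
`a = l²`, `c = l'²` and `b = l l'` in `F` (`2` is invertible). So `b² - a c = 0` modulo `π` and both
`a` and `c` are squares in `F`, which contradicts `h` (clear denominators) -/
private theorem emb_prime_norm (h2 : IsUnit (2 : O)) {π : O} (hπ : Prime π)
    (h : π ∣ b ^ 2 - a * c → ∃ u : O, (u = a ∨ u = c) ∧ ∀ x y : O, π ∣ y ^ 2 - u * x ^ 2 → π ∣ x)
    {α β : O[X]} (hd : C π ∣ α ^ 2 - cq a b c * β ^ 2) : C π ∣ α ∧ C π ∣ β := by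
  obtain ⟨F, _, ψ, hψ, hfr⟩ := emb_prm_red hπ
  have hdvd : ∀ P : O[X], C π ∣ P ↔ P.map ψ = 0 := by
    intro P
    rw [C_dvd_iff_dvd_coeff, Polynomial.ext_iff]
    refine forall_congr' fun i => ?_
    rw [coeff_map, coeff_zero, hψ]
  have h2F : (2 : F) ≠ 0 := by
    have := (h2.map ψ).ne_zero
    rwa [map_ofNat] at this
  rw [hdvd, hdvd]
  rw [hdvd, Polynomial.map_sub, Polynomial.map_mul, Polynomial.map_pow, Polynomial.map_pow] at hd
  have hf : (cq a b c).map ψ = cq (ψ a) (ψ b) (ψ c) := by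
    unfold cq
    rw [Polynomial.map_add, Polynomial.map_add, Polynomial.map_mul, Polynomial.map_mul,
      Polynomial.map_pow, map_X, map_C, map_C, map_C, map_mul, map_ofNat]
  rw [hf, sub_eq_zero] at hd
  by_cases hB : β.map ψ = 0
  · refine ⟨?_, hB⟩
    rw [hB, zero_pow two_ne_zero, mul_zero] at hd
    exact pow_eq_zero_iff two_ne_zero |>.1 hd
  · exfalso
    obtain ⟨l, l', ha, hb, hc⟩ := emb_prm_field h2F hd hB
    have h3 : π ∣ b ^ 2 - a * c := by
      rw [← hψ, map_sub, map_pow, map_mul, ha, hb, hc]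
      ring
    obtain ⟨u, hu, huu⟩ := h h3
    have h4 : ∃ z : F, ψ u = z ^ 2 := by
      rcases hu with rfl | rfl
      · exact ⟨l, ha⟩
      · exact ⟨l', hc⟩
    obtain ⟨z, hz⟩ := h4
    obtain ⟨x, y, hx, hxy⟩ := hfr z
    apply hx
    rw [hψ]
    refine huu x y ?_
    rw [← hψ, map_sub, map_mul, map_pow, map_pow, hz, hxy]
    field_simp
    ring

/-- divisibility by a constant -/
private theorem emb_prm_dvd {π : O} {α β : O[X]} (h : toConic a b c π ∣ elc a b c α β) :
    C π ∣ α ∧ C π ∣ β := by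
  obtain ⟨z, hz⟩ := h
  obtain ⟨α', β', rfl⟩ := elc_surj z
  rw [elc_C, elc_mul] at hz
  obtain ⟨h1, h2⟩ := elc_inj hz
  rw [mul_zero, zero_mul, add_zero] at h1
  rw [zero_mul, add_zero] at h2
  exact ⟨⟨α', h1⟩, ⟨β', h2⟩⟩

private theorem emb_prm_dvd' {π : O} {α β : O[X]} (h1 : C π ∣ α) (h2 : C π ∣ β) :
    toConic a b c π ∣ elc a b c α β := by
  obtain ⟨α', rfl⟩ := h1
  obtain ⟨β', rfl⟩ := h2
  refine ⟨elc a b c α' β', ?_⟩
  rw [elc_C, elc_mul, mul_zero, zero_mul, zero_mul, add_zero, add_zero]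

/-- proof: by `emb_prime_norm` and the multiplicativity of the norm; `C π` is prime in `O[X]` -/
private theorem emb_conic_prime (h2 : IsUnit (2 : O)) {π : O} (hπ : Prime π)
    (h : π ∣ b ^ 2 - a * c → ∃ u : O, (u = a ∨ u = c) ∧ ∀ x y : O, π ∣ y ^ 2 - u * x ^ 2 → π ∣ x) :
    Prime (toConic a b c π) := by
  have hCπ : Prime (C π : O[X]) := prime_C_iff.2 hπ
  refine ⟨fun h0 => ?_, fun hu => ?_, fun z z' hz => ?_⟩
  · have h3 : elc a b c (C π) 0 = elc a b c (C 0) 0 := by
      rw [← elc_C, ← elc_C, h0, map_zero]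
    have h4 := (elc_inj h3).1
    exact hπ.ne_zero (C_injective h4)
  · have h3 : toConic a b c π ∣ elc a b c 1 0 := by
      obtain ⟨w, hw⟩ := hu.exists_right_inv
      exact Dvd.intro (w * elc a b c 1 0) (by rw [← mul_assoc, hw, one_mul])
    obtain ⟨h4, -⟩ := emb_prm_dvd h3
    exact hCπ.not_isUnit (isUnit_of_dvd_one h4)
  · obtain ⟨α, β, rfl⟩ := elc_surj z
    obtain ⟨α', β', rfl⟩ := elc_surj z'
    rw [elc_mul] at hz
    obtain ⟨h3, h4⟩ := emb_prm_dvd hz
    have h5 : C π ∣ (α ^ 2 - cq a b c * β ^ 2) * (α' ^ 2 - cq a b c * β' ^ 2) := by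
      have e : (α ^ 2 - cq a b c * β ^ 2) * (α' ^ 2 - cq a b c * β' ^ 2) =
          (α * α' + cq a b c * β * β') * (α * α' + cq a b c * β * β') -
            (α * β' + β * α') * (cq a b c * (α * β' + β * α')) := by ring
      rw [e]
      exact dvd_sub (h3.mul_right _) (h4.mul_right _)
    rcases hCπ.dvd_or_dvd h5 with h6 | h6
    · obtain ⟨h7, h8⟩ := emb_prime_norm h2 hπ h h6
      exact Or.inl (emb_prm_dvd' h7 h8)
    · obtain ⟨h7, h8⟩ := emb_prime_norm h2 hπ h h6
      exact Or.inr (emb_prm_dvd' h7 h8)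

end

/-- `conic_prime`: no prime divides the unit `b² - a c` -/
theorem conicGeo_unit {S : Type} [CommRing S] [IsDomain S] [CharZero R] [Algebra R S]
    (hi : Function.Injective (algebraMap R S)) {a b c : S} (hu : IsUnit (b ^ 2 - a * c))
    (h : ∀ x y z : S, y ^ 2 = a * x ^ 2 + 2 * b * x * z + c * z ^ 2 → x = 0 ∧ z = 0) :
    ConicGeo R a b c := by
  refine ⟨h, fun π hπ => ?_⟩
  have hj := kmodel_gen (R := R) (S := S) hi
  have hdO : IsDomain (Gen (algebraMap R S)) := kmodel_domain hj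
  have h2 : IsUnit (2 : Gen (algebraMap R S)) := by
    have h3 : (2 : FractionRing R) ≠ 0 := by
      have h4 : algebraMap R (FractionRing R) 2 ≠ 0 := by
        rw [Ne, IsFractionRing.to_map_eq_zero_iff]
        exact two_ne_zero
      rwa [map_ofNat] at h4
    have h5 := (IsUnit.mk0 _ h3).map (Fb.cst (algebraMap R S))
    rwa [map_ofNat] at h5
  refine emb_conic_prime h2 hπ fun h3 => ?_
  have h4 : IsUnit (toGen (algebraMap R S) b ^ 2 -
      toGen (algebraMap R S) a * toGen (algebraMap R S) c) := by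
    have h5 := hu.map (toGen (algebraMap R S))
    rwa [map_sub, map_pow, map_mul] at h5
  exact absurd (isUnit_of_dvd_unit h3 h4) hπ.not_isUnit

end Pool.Agent.Lib.MP_1a0ddd_nt.Nc
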