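import Pool.Agent.Lib.MP_1a0ddd_nt.Nc.Bas

/-! Fibrations in curves of towers of conics: the statement. -/

set_option autoImplicit false

namespace Pool.Agent.Lib.MP_1a0ddd_nt.Cf

open Polynomial Pool.Agent.Lib.MP_1a0ddd_nt.Nc

section
variable {T S L : Type} [CommRing T] [CommRing S] [Field L]

/-- the field generated by the image of `θ` -/
def fieldOf (θ : T →+* L) : Subfield L := Subfield.closure (Set.range θ)

/-- `F` is algebraically closed in `L` -/
def RelClosed (F : Subfield L) : Prop := ∀ x : L, IsAlgebraic F x → x ∈ F

/-- the subring of `L` generated by `F`, the image of `j` and the inverse of `j g` -/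
def coordRing (F : Subfield L) (j : S →+* L) (g : S) : Subring L :=
  Subring.closure ((F : Set L) ∪ Set.range j ∪ {(j g)⁻¹})

/-- the closed points of the complete curve which are not in its open subset `Spec A` -/
def Outside (F : Subfield L) (A : Subring L) : Set (Place F) := {V | ¬ (A : Set L) ⊆ V.1}

/-- `A` is a domain over `T`, and its fraction field is a residue field `κ` of the subring `O` of `L`,
which contains the image of `T` -/
def ResField {O A : Type} [CommRing O] [CommRing A] (o : O →+* L) (θ : T →+* L) (ψ : T →+* A) :
    Prop :=
  ∃ (κ : Type) (_ : Field κ) (r : O →+* κ) (ι : A →+* κ), Function.Surjective r ∧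
    Function.Injective ι ∧ (∀ (t : T) (v : O), o v = θ t → ι (ψ t) = r v) ∧
    ∀ x : κ, ∃ a b : A, b ≠ 0 ∧ x * ι b = ι a

/-- `A` is a finitely generated domain over `T`, its fraction field is the residue field of the
complete curve at the closed point `V` -/
structure Model {F : Subfield L} (θ : T →+* L) (V : Place F) {A : Type} [CommRing A]
    (ψ : T →+* A) : Prop where
  fin : ψ.FiniteType
  res : ResField V.1.subtype θ ψ

/-- for all models of the closed points of the complete curve outside the open subset `g ≠ 0` of
`Spec S` and for a suitable open subset `b ≠ 0` of `Spec T` (inside any given one), the mean of the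
averages of the traces of Frobenius is `1 - rank Cl`; here `θ = j ∘ φ` -/
def MeanFor (F : Subfield L) (φ : T →+* S) (j : S →+* L) (θ : T →+* L) (e : ℕ) (g : S) : Prop :=
  ∀ (A : Outside F (coordRing F j g) → Type) [∀ V, CommRing (A V)] (ψ : ∀ V, T →+* A V),
    (∀ V, Model θ V.1 (ψ V)) → ∀ b₀ : T, b₀ ≠ 0 → ∃ b : T, b ≠ 0 ∧ b₀ ∣ b ∧
      Quad.TauMean (fun p => avg b e p (trace φ g A ψ p)) (1 - Module.finrank ℤ (ClGp F))

/-- Q1 for the complete regular curve `C` over `F`, the generic fibre of `Spec S → Spec T`, with
`F` the function field of `Spec T`, `L` the function field of `Spec S`, `θ = j ∘ φ`. `fg`: the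
divisor class group of `C` is finitely generated. `models`: the residue fields of `C` have models
over `Spec T`. `mean`: on a suitable open subset `g ≠ 0` of `Spec S` (inside any given one) the
generic fibre is affine with a factorial coordinate ring, and the mean of the averages of the
traces of Frobenius is `1 - rank Cl(C)`, that is, minus the rank of `Pic⁰(C)` -/
structure NagaoF (F : Subfield L) (φ : T →+* S) (j : S →+* L) (θ : T →+* L) (e : ℕ) : Prop where
  fg : Module.Finite ℤ (ClGp F)
  models : ∀ V : Place F, ∃ (A : Type) (_ : CommRing A) (ψ : T →+* A), Model θ V ψ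
  mean : ∀ g₀ : S, g₀ ≠ 0 → ∃ g : S, g ≠ 0 ∧ g₀ ∣ g ∧ IsPrincipalIdealRing (coordRing F j g) ∧
    (Outside F (coordRing F j g)).Finite ∧ MeanFor F φ j θ e g

/-- Q1 for the generic fibre of `Spec S → Spec T`, `L` is the fraction field of `S` -/
def Nagao (φ : T →+* S) (j : S →+* L) (e : ℕ) : Prop :=
  NagaoF (fieldOf (j.comp φ)) φ j (j.comp φ) e

end

/-- `Spec S → Spec T` is a family of curves over `Spec R` with geometrically irreducible generic
fibre, and over the fraction field of `R` the varieties `Spec T` and `Spec S` are birational to
towers of `n` and of `n + 1` conics; `E` and `L` are the fraction fields of `T` and `S` -/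
structure ConicFib {R T S : Type} (E L : Type) [CommRing R] [CommRing T] [CommRing S] [Field E]
    [Field L] [Algebra R T] [Algebra R S] [Algebra R E] [Algebra R L] (φ : T →ₐ[R] S)
    (j : S →+* L) (n : ℕ) : Prop where
  finT : Algebra.FiniteType R T
  finS : Algebra.FiniteType R S
  injT : Function.Injective (algebraMap R T)
  inj : Function.Injective φ
  towT : ConicTower R E n
  towS : ConicTower R L (n + 1)
  closed : RelClosed (fieldOf (j.comp (φ : T →+* S)))

end Pool.Agent.Lib.MP_1a0ddd_nt.Cf
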