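import Pool.Agent.Lib.MP_1a0ddd_nt.Nc.Main
import Pool.Agent.Lib.MP_1a0ddd_nt.Nc.Sta

/-! The statement in terms of the definitions of `Nc/Sta.lean`. -/

set_option autoImplicit false

namespace Pool.Agent.Lib.MP_1a0ddd_nt.Cf

open Pool.Agent.Lib.MP_1a0ddd_nt.Nc

private theorem toNew {T S A : Type} [CommRing T] [CommRing S] [IsDomain S] [CommRing A]
    {φ : T →+* S} {V : Place (baseF φ)} {ψ : T →+* A} (h : ResModel φ V ψ) :
    Model ((algebraMap S (FractionRing S)).comp φ) V ψ := by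
  obtain ⟨ι, h1, h2, h3⟩ := h.emb
  exact ⟨h.fin, IsLocalRing.ResidueField V.1, inferInstance, IsLocalRing.residue V.1, ι,
    IsLocalRing.residue_surjective, h1, h2, h3⟩

private theorem toOld {T S A : Type} [CommRing T] [CommRing S] [IsDomain S] [CommRing A]
    {φ : T →+* S} {V : Place (baseF φ)} {ψ : T →+* A}
    (h : Model ((algebraMap S (FractionRing S)).comp φ) V ψ) : ResModel φ V ψ := by
  obtain ⟨κ, _, r, ι, h0, h1, h2, h3⟩ := h.res
  have hker : RingHom.ker r = IsLocalRing.maximalIdeal V.1 :=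
    IsLocalRing.eq_maximalIdeal (RingHom.ker_isMaximal_of_surjective r h0)
  have hker' : RingHom.ker r = RingHom.ker (IsLocalRing.residue V.1) := by
    rw [hker, IsLocalRing.ker_residue]
  let f : κ →+* IsLocalRing.ResidueField V.1 :=
    (r.liftOfRightInverse (Function.surjInv h0) (Function.rightInverse_surjInv h0))
      ⟨IsLocalRing.residue V.1, hker'.le⟩
  have hf : ∀ v, f (r v) = IsLocalRing.residue V.1 v := fun v =>
    RingHom.liftOfRightInverse_comp_apply _ _ _ ⟨IsLocalRing.residue V.1, hker'.le⟩ v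
  refine ⟨h.fin, f.comp ι, f.injective.comp h1, fun t v hv => ?_, fun x => ?_⟩
  · rw [RingHom.comp_apply, h2 t v hv, hf]
  · obtain ⟨v, rfl⟩ := IsLocalRing.residue_surjective x
    obtain ⟨a, b, hb, hx⟩ := h3 (r v)
    refine ⟨a, b, hb, ?_⟩
    rw [RingHom.comp_apply, RingHom.comp_apply, ← hx, map_mul, hf]

theorem fin_nagao {R T S : Type} [CommRing R] [CommRing T] [IsDomain T] [CommRing S]
    [IsDomain S] [Algebra R T] [Algebra R S] {d n : ℕ} (hR : Un.BaseVar R d) (φ : T →ₐ[R] S)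
    (h : ConicFib (FractionRing T) (FractionRing S) φ (algebraMap S (FractionRing S)) n) :
    Nagao (φ : T →+* S) (algebraMap S (FractionRing S)) (n + d) := by
  have := hR.domain
  have h1 : Nc.Nagao (φ : T →+* S) (n + d) := nagao hR φ
    ⟨h.finT, h.finS, h.injT, h.inj, h.towT, h.towS, h.closed⟩
  refine ⟨h1.fg, fun V => ?_, fun g₀ h0 => ?_⟩
  · obtain ⟨A, i, ψ, h2⟩ := h1.models V
    exact ⟨A, i, ψ, toNew h2⟩
  · obtain ⟨g, h2, h3, h4, h5, h6⟩ := h1.mean g₀ h0
    exact ⟨g, h2, h3, h4, h5, fun A _ ψ hA => h6 A ψ fun V => toOld (hA V)⟩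

end Pool.Agent.Lib.MP_1a0ddd_nt.Cf
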