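import Pool.Agent.Lib.MP_1a0ddd_nt.Fb.Defs

/-! Families of absolutely irreducible affine curves have irreducible fibres. -/

set_option autoImplicit false

namespace Pool.Agent.Lib.MP_1a0ddd_nt.Nc

open Polynomial

/-- base change of `T[X][Y]/(f)` -/
noncomputable def bc {T P : Type} [CommRing T] [CommRing P] (ρ : T →+* P) (f : T[X][X]) :
    AdjoinRoot f →+* AdjoinRoot (f.map (mapRingHom ρ)) :=
  AdjoinRoot.map (mapRingHom ρ) f (f.map (mapRingHom ρ)) dvd_rfl

private theorem bc_mk {T P : Type} [CommRing T] [CommRing P] (ρ : T →+* P) (f : T[X][X])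
    (p : T[X][X]) : bc ρ f (AdjoinRoot.mk f p) =
      AdjoinRoot.mk (f.map (mapRingHom ρ)) (p.map (mapRingHom ρ)) := by
  unfold bc AdjoinRoot.map
  rw [AdjoinRoot.lift_mk, ← eval₂_map, ← AdjoinRoot.aeval_eq]
  rfl

private theorem bc_of {T P : Type} [CommRing T] [CommRing P] (ρ : T →+* P) (f : T[X][X])
    (p : T[X]) : bc ρ f (AdjoinRoot.of f p) =
      AdjoinRoot.of (f.map (mapRingHom ρ)) (mapRingHom ρ p) := by
  unfold bc
  rw [AdjoinRoot.map_of]

private theorem mh_bc {T P : Type} [CommRing T] [CommRing P] (ρ : T →+* P) {f : T[X][X]}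
    (hm : f.Monic) (u : AdjoinRoot f) :
    AdjoinRoot.modByMonicHom (hm.map (mapRingHom ρ)) (bc ρ f u) =
      (AdjoinRoot.modByMonicHom hm u).map (mapRingHom ρ) := by
  induction u using AdjoinRoot.induction_on with
  | ih p => rw [bc_mk, AdjoinRoot.modByMonicHom_mk, AdjoinRoot.modByMonicHom_mk,
      Polynomial.map_modByMonic _ hm]

private theorem dvd_of_coeff {T : Type} [CommRing T] {f : T[X][X]} (hm : f.Monic) {q : T}
    {u : AdjoinRoot f} (h : ∀ i j, q ∣ ((AdjoinRoot.modByMonicHom hm u).coeff i).coeff j) :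
    AdjoinRoot.of f (C q) ∣ u := by
  have h1 : C (C q) ∣ AdjoinRoot.modByMonicHom hm u := by
    rw [C_dvd_iff_dvd_coeff]
    intro i
    rw [C_dvd_iff_dvd_coeff]
    exact h i
  obtain ⟨s, hs⟩ := h1
  refine ⟨AdjoinRoot.mk f s, ?_⟩
  rw [← AdjoinRoot.mk_leftInverse hm u, hs, map_mul, AdjoinRoot.mk_C]

private theorem coeff_of_dvd {T : Type} [CommRing T] {f : T[X][X]} (hm : f.Monic) {q : T}
    {u : AdjoinRoot f} (h : AdjoinRoot.of f (C q) ∣ u) (i j : ℕ) :
    q ∣ ((AdjoinRoot.modByMonicHom hm u).coeff i).coeff j := by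
  obtain ⟨v, rfl⟩ := h
  have h1 : AdjoinRoot.of f (C q) * v = C q • v := by
    rw [Algebra.smul_def, AdjoinRoot.algebraMap_eq]
  rw [h1, map_smul, coeff_smul, smul_eq_mul, coeff_C_mul]
  exact dvd_mul_right _ _

private theorem dvd_of_bc {T P : Type} [CommRing T] [CommRing P] {ρ : T →+* P} {f : T[X][X]}
    (hm : f.Monic) {q : T} (hq : ∀ t, ρ t = 0 → q ∣ t) {u : AdjoinRoot f}
    (h : bc ρ f u = 0) : AdjoinRoot.of f (C q) ∣ u := by
  refine dvd_of_coeff hm fun i j => hq _ ?_
  have h1 := mh_bc ρ hm u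
  rw [h, map_zero] at h1
  have h2 := congrArg (fun p => (p.coeff i).coeff j) h1
  simpa using h2.symm

theorem bc_injective {T P : Type} [CommRing T] [CommRing P] {ρ : T →+* P}
    (hρ : Function.Injective ρ) {f : T[X][X]} (hm : f.Monic) : Function.Injective (bc ρ f) := by
  rw [injective_iff_map_eq_zero]
  intro u hu
  have h := dvd_of_bc hm (q := 0) (fun t ht => by
    rw [(injective_iff_map_eq_zero ρ).1 hρ t ht]) hu
  rw [C_0, map_zero] at h
  exact zero_dvd_iff.1 h

/-- a coefficient of the reduced representative of `g` -/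
theorem adjoin_coeff {T : Type} [CommRing T] {f : T[X][X]} (hm : f.Monic) {g : AdjoinRoot f}
    (hg : g ≠ 0) : ∃ β : T, β ≠ 0 ∧ ∀ (P : Type) [CommRing P] (ρ : T →+* P) (π : P),
      AdjoinRoot.of (f.map (mapRingHom ρ)) (C π) ∣ bc ρ f g → π ∣ ρ β := by
  have h0 : AdjoinRoot.modByMonicHom hm g ≠ 0 := by
    intro h
    apply hg
    rw [← AdjoinRoot.mk_leftInverse hm g, h, map_zero]
  obtain ⟨i, hi⟩ : ∃ i, (AdjoinRoot.modByMonicHom hm g).coeff i ≠ 0 := by
    by_contra hc
    push Not at hc
    exact h0 (Polynomial.ext fun i => by rw [hc i, coeff_zero])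
  obtain ⟨j, hj⟩ : ∃ j, ((AdjoinRoot.modByMonicHom hm g).coeff i).coeff j ≠ 0 := by
    by_contra hc
    push Not at hc
    exact hi (Polynomial.ext fun j => by rw [hc j, coeff_zero])
  refine ⟨_, hj, fun P _ ρ π hπ => ?_⟩
  have h := coeff_of_dvd (hm.map (mapRingHom ρ)) hπ i j
  rw [mh_bc ρ hm g] at h
  simpa using h

/-- Proof: `AdjoinRoot f_P / π = (P/π)[X][Y]/(f̄)` is a domain, because `f̄` is monic and
irreducible over the fraction field of `P/π` (hypothesis `hh` for `T → P/π → Frac(P/π)`), and it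
contains `P/π`; an element of `P` which is divisible by `π` in the localisation is divisible by `π` -/
theorem irr_away {T P : Type} [CommRing T] [CommRing P] [IsDomain P]
    [UniqueFactorizationMonoid P] (ρ : T →+* P) {f : T[X][X]} (hm : f.Monic)
    (hd : 0 < f.natDegree) {h : T} (hh : ∀ (E : Type) [Field E] (χ : T →+* E), χ h ≠ 0 →
      Irreducible (f.map (mapRingHom χ))) (hρ : IsUnit (ρ h)) {g : AdjoinRoot f} {β : T}
    (hβ : ∀ π : P, AdjoinRoot.of (f.map (mapRingHom ρ)) (C π) ∣ bc ρ f g → π ∣ ρ β)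
    (hβ' : IsUnit (ρ β)) : Fb.IrrOver ((algebraMap (AdjoinRoot (f.map (mapRingHom ρ)))
      (Localization.Away (bc ρ f g))).comp ((AdjoinRoot.of _).comp C)) 1 := by
  set fP : P[X][X] := f.map (mapRingHom ρ) with hfP
  have hmP : fP.Monic := hm.map _
  have hnd : ∀ (E : Type) [Field E] (χ : P →+* E),
      (fP.map (mapRingHom χ)) = f.map (mapRingHom (χ.comp ρ)) := by
    intro E _ χ
    rw [hfP, Polynomial.map_map, mapRingHom_comp]
  -- the fibres are domains
  have hdom : ∀ (E : Type) [Field E] (χ : P →+* E),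
      IsDomain (AdjoinRoot (fP.map (mapRingHom χ))) := by
    intro E _ χ
    have h1 : (χ.comp ρ) h ≠ 0 := by
      rw [RingHom.comp_apply]
      exact (hρ.map χ).ne_zero
    have h2 := hh E (χ.comp ρ) h1
    rw [← hnd] at h2
    exact AdjoinRoot.isDomain_of_prime h2.prime
  have hdegE : ∀ (E : Type) [Field E] (χ : P →+* E), (fP.map (mapRingHom χ)).degree ≠ 0 := by
    intro E _ χ h0
    have h1 : (fP.map (mapRingHom χ)).natDegree = 0 := natDegree_eq_of_degree_eq_some h0
    rw [hnd, hm.natDegree_map] at h1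
    omega
  -- the total space is a domain
  have hA : IsDomain (AdjoinRoot fP) := by
    have := hdom (FractionRing P) (algebraMap P (FractionRing P))
    exact (bc_injective (IsFractionRing.injective P (FractionRing P)) hmP).isDomain
      (bc (algebraMap P (FractionRing P)) fP)
  set G : AdjoinRoot fP := bc ρ f g with hG
  have hG0 : G ≠ 0 := by
    intro h0
    have h1 := hβ 0 (by rw [h0]; exact dvd_zero _)
    rw [zero_dvd_iff] at h1
    exact hβ'.ne_zero h1
  have hle : Submonoid.powers G ≤ nonZeroDivisors (AdjoinRoot fP) :=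
    powers_le_nonZeroDivisors_of_noZeroDivisors hG0
  have hinj : Function.Injective (algebraMap (AdjoinRoot fP) (Localization.Away G)) :=
    IsLocalization.injective _ hle
  intro q hq _
  have hqp : Prime q := hq.prime
  -- the residue field of the prime divisor `q = 0`
  have hI : (Ideal.span {q}).IsPrime := (Ideal.span_singleton_prime hqp.ne_zero).2 hqp
  let E : Type := FractionRing (P ⧸ Ideal.span {q})
  let χ : P →+* E := (algebraMap (P ⧸ Ideal.span {q}) E).comp (Ideal.Quotient.mk _)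
  have hχ : ∀ t, χ t = 0 → q ∣ t := by
    intro t ht
    have h1 : algebraMap (P ⧸ Ideal.span {q}) E (Ideal.Quotient.mk _ t) = 0 := ht
    have h2 := (injective_iff_map_eq_zero _).1
      (IsFractionRing.injective (P ⧸ Ideal.span {q}) E) _ h1
    rwa [Ideal.Quotient.eq_zero_iff_mem, Ideal.mem_span_singleton] at h2
  have hχq : χ q = 0 := by
    have h1 : (Ideal.Quotient.mk (Ideal.span {q})) q = 0 :=
      Ideal.Quotient.eq_zero_iff_mem.2 (Ideal.mem_span_singleton_self q)
    change algebraMap (P ⧸ Ideal.span {q}) E (Ideal.Quotient.mk _ q) = 0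
    rw [h1, map_zero]
  have hdE := hdom E χ
  have hΦq : bc χ fP (AdjoinRoot.of fP (C q)) = 0 := by
    rw [bc_of]
    simp [hχq]
  have hdvd : ∀ u, AdjoinRoot.of fP (C q) ∣ u ↔ bc χ fP u = 0 := by
    intro u
    constructor
    · rintro ⟨v, rfl⟩
      rw [map_mul, hΦq, zero_mul]
    · exact dvd_of_bc hmP hχ
  have hofP : Function.Injective (AdjoinRoot.of fP) := by
    refine AdjoinRoot.of.injective_of_degree_ne_zero fun h0 => ?_
    have h1 : fP.natDegree = 0 := natDegree_eq_of_degree_eq_some h0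
    rw [hfP, hm.natDegree_map] at h1
    omega
  have hprime : Prime (AdjoinRoot.of fP (C q)) := by
    refine ⟨?_, ?_, ?_⟩
    · intro h0
      have h1 : C q = 0 := hofP (by rw [h0, map_zero])
      exact hqp.ne_zero (C_eq_zero.1 h1)
    · intro hu
      have h1 := hu.map (bc χ fP)
      rw [hΦq] at h1
      exact not_isUnit_zero h1
    · intro u v huv
      rw [hdvd, map_mul, mul_eq_zero] at huv
      rwa [hdvd, hdvd]
  have hnG : ∀ n : ℕ, ¬ AdjoinRoot.of fP (C q) ∣ G ^ n := by
    intro n hn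
    have h1 := hβ q (hprime.dvd_of_dvd_pow hn)
    exact hq.not_isUnit (isUnit_of_dvd_unit h1 hβ')
  -- divisibility in the localisation
  have hloc : ∀ u v : AdjoinRoot fP,
      algebraMap (AdjoinRoot fP) (Localization.Away G) u ∣ algebraMap _ _ v →
        ∃ n : ℕ, u ∣ G ^ n * v := by
    rintro u v ⟨w, hw⟩
    obtain ⟨⟨a, s⟩, has⟩ := IsLocalization.surj (Submonoid.powers G) w
    obtain ⟨n, hn⟩ := s.2
    refine ⟨n, a, hinj ?_⟩
    rw [map_mul, map_mul, ← has, hw]
    simp only [hn]
    ring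
  refine ⟨⟨?_, ?_, ?_⟩, ?_⟩
  · intro h0
    exact hprime.ne_zero (hinj (by rw [map_zero]; exact h0))
  · intro hu
    have h1 : algebraMap (AdjoinRoot fP) (Localization.Away G) (AdjoinRoot.of fP (C q)) ∣
        algebraMap (AdjoinRoot fP) (Localization.Away G) 1 := by
      rw [map_one]
      exact hu.dvd
    obtain ⟨n, hn⟩ := hloc _ _ h1
    rw [mul_one] at hn
    exact hnG n hn
  · intro x y hxy
    change algebraMap (AdjoinRoot fP) (Localization.Away G) (AdjoinRoot.of fP (C q)) ∣ x ∨
      algebraMap (AdjoinRoot fP) (Localization.Away G) (AdjoinRoot.of fP (C q)) ∣ y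
    change algebraMap (AdjoinRoot fP) (Localization.Away G) (AdjoinRoot.of fP (C q)) ∣ x * y at hxy
    obtain ⟨⟨a, s⟩, has⟩ := IsLocalization.surj (Submonoid.powers G) x
    obtain ⟨⟨b, t⟩, hbt⟩ := IsLocalization.surj (Submonoid.powers G) y
    have hsu : IsUnit (algebraMap (AdjoinRoot fP) (Localization.Away G) s) :=
      IsLocalization.map_units _ s
    have htu : IsUnit (algebraMap (AdjoinRoot fP) (Localization.Away G) t) :=
      IsLocalization.map_units _ t
    have h1 : algebraMap (AdjoinRoot fP) (Localization.Away G) (AdjoinRoot.of fP (C q)) ∣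
        algebraMap _ _ (a * b) := by
      rw [map_mul, ← has, ← hbt]
      refine hxy.trans ⟨algebraMap (AdjoinRoot fP) (Localization.Away G) s *
        algebraMap (AdjoinRoot fP) (Localization.Away G) t, by ring⟩
    obtain ⟨n, hn⟩ := hloc _ _ h1
    rcases hprime.dvd_or_dvd hn with h2 | h2
    · exact absurd h2 (hnG n)
    rcases hprime.dvd_or_dvd h2 with h3 | h3
    · left
      have h4 := map_dvd (algebraMap (AdjoinRoot fP) (Localization.Away G)) h3
      rw [← has] at h4
      exact hsu.dvd_mul_right.1 h4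
    · right
      have h4 := map_dvd (algebraMap (AdjoinRoot fP) (Localization.Away G)) h3
      rw [← hbt] at h4
      exact htu.dvd_mul_right.1 h4
  · intro a ha
    change algebraMap (AdjoinRoot fP) (Localization.Away G) (AdjoinRoot.of fP (C q)) ∣
      algebraMap (AdjoinRoot fP) (Localization.Away G) (AdjoinRoot.of fP (C a)) at ha
    obtain ⟨n, hn⟩ := hloc _ _ ha
    rcases hprime.dvd_or_dvd hn with h2 | h2
    · exact absurd h2 (hnG n)
    rw [hdvd, bc_of] at h2
    have h3 : mapRingHom χ (C a) = 0 := by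
      have h4 := AdjoinRoot.of.injective_of_degree_ne_zero (hdegE E χ)
      exact h4 (by rw [h2, map_zero])
    rw [coe_mapRingHom, map_C, C_eq_zero] at h3
    exact hχ a h3

end Pool.Agent.Lib.MP_1a0ddd_nt.Nc
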