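import Pool.Agent.Lib.MP_1a0ddd_nt.Nc.Irr
import Pool.Agent.Lib.MP_1a0ddd_nt.Cn.Km

/-! Models over the fraction field of the base. -/

set_option autoImplicit false

namespace Pool.Agent.Lib.MP_1a0ddd_nt.Nc

open Polynomial Pool.Agent.Lib.MP_1a0ddd_nt.Cn Pool.Agent.Lib.MP_1a0ddd_nt.Fb

/-- common denominators for one polynomial -/
private theorem denom1 {R T P : Type} [CommRing R] [IsDomain R] [CommRing T] [Algebra R T]
    [CommRing P] {j : T →+* P} {κ : FractionRing R →+* P} (hj : KModel R j κ) (α : P[X]) :
    ∃ (α' : T[X]) (r : R), r ≠ 0 ∧ α * C (j (algebraMap R T r)) = α'.map j := by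
  induction α using Polynomial.induction_on' with
  | add p q hp hq =>
    obtain ⟨p', r, hr, e⟩ := hp
    obtain ⟨q', r', hr', e'⟩ := hq
    refine ⟨p' * C (algebraMap R T r') + q' * C (algebraMap R T r), r * r',
      mul_ne_zero hr hr', ?_⟩
    rw [Polynomial.map_add, Polynomial.map_mul, Polynomial.map_mul, ← e, ← e', map_C, map_C,
      map_mul, map_mul, C_mul]
    ring
  | monomial n o =>
    obtain ⟨s, r, hr, e⟩ := hj.surj o
    refine ⟨monomial n s, r, hr, ?_⟩
    rw [map_monomial, ← e, monomial_mul_C]

/-- common denominators for one polynomial in two variables -/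
private theorem denom2 {R T P : Type} [CommRing R] [IsDomain R] [CommRing T] [Algebra R T]
    [CommRing P] {j : T →+* P} {κ : FractionRing R →+* P} (hj : KModel R j κ) (α : P[X][X]) :
    ∃ (α' : T[X][X]) (r : R), r ≠ 0 ∧
      α * C (C (j (algebraMap R T r))) = α'.map (mapRingHom j) := by
  induction α using Polynomial.induction_on' with
  | add p q hp hq =>
    obtain ⟨p', r, hr, e⟩ := hp
    obtain ⟨q', r', hr', e'⟩ := hq
    refine ⟨p' * C (C (algebraMap R T r')) + q' * C (C (algebraMap R T r)), r * r',
      mul_ne_zero hr hr', ?_⟩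
    rw [Polynomial.map_add, Polynomial.map_mul, Polynomial.map_mul, ← e, ← e', map_C, map_C,
      coe_mapRingHom, map_C, map_C, map_mul, map_mul, C_mul, C_mul]
    ring
  | monomial n o =>
    obtain ⟨s, r, hr, e⟩ := denom1 hj o
    refine ⟨monomial n s, r, hr, ?_⟩
    rw [map_monomial, coe_mapRingHom, ← e, monomial_mul_C]

private theorem kb_mk {T P : Type} [CommRing T] [CommRing P] (ρ : T →+* P) (f : T[X][X])
    (p : T[X][X]) : bc ρ f (AdjoinRoot.mk f p) =
      AdjoinRoot.mk (f.map (mapRingHom ρ)) (p.map (mapRingHom ρ)) := by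
  unfold bc AdjoinRoot.map
  rw [AdjoinRoot.lift_mk, ← eval₂_map, ← AdjoinRoot.aeval_eq]
  rfl

private theorem kb_alg {R T : Type} [CommRing R] [CommRing T] [Algebra R T] (f : T[X][X]) (r : R) :
    algebraMap R (AdjoinRoot f) r = AdjoinRoot.mk f (C (C (algebraMap R T r))) := rfl

theorem kmodel_bc {R T P : Type} [CommRing R] [IsDomain R] [CommRing T] [Algebra R T]
    [CommRing P] {j : T →+* P} {κ : FractionRing R →+* P} (hj : KModel R j κ) {f : T[X][X]}
    (hm : f.Monic) : KModel R (bc j f)
      ((AdjoinRoot.of (f.map (mapRingHom j))).comp (C.comp κ)) := by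
  refine ⟨bc_injective hj.inj hm, fun r => ?_, fun o => ?_⟩
  · rw [kb_alg, kb_mk, map_C, coe_mapRingHom, map_C, AdjoinRoot.mk_C, RingHom.comp_apply,
      RingHom.comp_apply, hj.comp]
  · obtain ⟨p, rfl⟩ := AdjoinRoot.mk_surjective o
    obtain ⟨q, r, hr, e⟩ := denom2 hj p
    refine ⟨AdjoinRoot.mk f q, r, hr, ?_⟩
    rw [kb_alg, kb_mk, kb_mk, ← e, map_C, coe_mapRingHom, map_C, map_mul]

/-- as `loc_model` in `Cn/Loc.lean` -/
theorem kmodel_away {R S O : Type} [CommRing R] [IsDomain R] [CommRing S] [Algebra R S]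
    [IsDomain S] [CommRing O] {j : S →+* O} {κ : FractionRing R →+* O} (hj : KModel R j κ)
    {g : S} (hg : g ≠ 0) : KModel R (Localization.awayMap j g)
      ((algebraMap O (Localization.Away (j g))).comp κ) := by
  have hdO : IsDomain O := kmodel_domain hj
  have hg' : j g ≠ 0 := (map_ne_zero_iff j hj.inj).2 hg
  set A := algebraMap S (Localization.Away g) with hA
  set A' := algebraMap O (Localization.Away (j g)) with hA'
  have hinj' : Function.Injective A' :=
    IsLocalization.injective (Localization.Away (j g))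
      (powers_le_nonZeroDivisors_of_noZeroDivisors hg')
  have hgu : IsUnit (A g) := IsLocalization.Away.algebraMap_isUnit (S := Localization.Away g) g
  have hj' : ∀ s : S, Localization.awayMap j g (A s) = A' (j s) := by
    intro s
    exact IsLocalization.map_eq _ s
  refine ⟨?_, fun r => ?_, fun o => ?_⟩
  · rw [injective_iff_map_eq_zero]
    intro x hx
    obtain ⟨n, s, h⟩ := IsLocalization.Away.surj g x
    have h' : x * A g ^ n = A s := h
    have h1 := congrArg (Localization.awayMap j g) h'
    rw [map_mul, hx, zero_mul, hj'] at h1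
    have h2 : s = 0 := by
      have h3 : j s = 0 := hinj' (by rw [← h1, map_zero])
      exact hj.inj (by rw [h3, map_zero])
    rw [h2, map_zero] at h'
    exact ((hgu.pow n).mul_left_eq_zero).1 h'
  · rw [RingHom.comp_apply, hj.comp, IsScalarTower.algebraMap_apply R S (Localization.Away g)]
    exact (hj' _).symm
  · obtain ⟨n, o₁, h⟩ := IsLocalization.Away.surj (j g) o
    have h' : o * A' (j g) ^ n = A' o₁ := h
    obtain ⟨s, r, hr, hs⟩ := hj.surj o₁
    refine ⟨A s * (↑(hgu.unit⁻¹) : Localization.Away g) ^ n, r, hr, ?_⟩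
    rw [IsScalarTower.algebraMap_apply R S (Localization.Away g)]
    have e1 : Localization.awayMap j g (algebraMap S (Localization.Away g) (algebraMap R S r)) =
        A' (j (algebraMap R S r)) := hj' _
    rw [e1, map_mul, map_pow, hj', ← hs, map_mul, ← h']
    have e2 : A' (j g) * Localization.awayMap j g (↑(hgu.unit⁻¹) : Localization.Away g) = 1 := by
      rw [← hj', ← map_mul]
      have : A g * (↑(hgu.unit⁻¹) : Localization.Away g) = 1 := hgu.mul_val_inv
      rw [this, map_one]
    have e3 : A' (j g) ^ n *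
        Localization.awayMap j g (↑(hgu.unit⁻¹) : Localization.Away g) ^ n = 1 := by
      rw [← mul_pow, e2, one_pow]
    linear_combination (-(o * A' (j (algebraMap R S r)))) * e3

/-- irreducibility of fibres may be checked on models (`kmodel_equiv`) -/
theorem irr_model {R T S P Q : Type} [CommRing R] [IsDomain R] [CommRing T] [Algebra R T]
    [CommRing S] [Algebra R S] [CommRing P] [CommRing Q] [IsDomain T] [IsDomain S]
    (hT : Function.Injective (algebraMap R T)) (hS : Function.Injective (algebraMap R S))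
    (φ : T →ₐ[R] S) {j : T →+* P} {κ : FractionRing R →+* P} (hj : KModel R j κ)
    {k : S →+* Q} {κ' : FractionRing R →+* Q} (hk : KModel R k κ') (ι : P →+* Q)
    (hι : ∀ t : T, ι (j t) = k (φ t)) (h : IrrOver ι 1) : IrrOver (baseK φ) 1 := by
  obtain ⟨e, he, -⟩ := kmodel_equiv hT hj
  obtain ⟨e', he', -⟩ := kmodel_equiv hS hk
  have hb : ∀ t : T, baseK φ (toGen (algebraMap R T) t) = toGen (algebraMap R S) (φ t) := by
    intro t
    have hle : (nonZeroDivisors R).map (algebraMap R T) ≤
        ((nonZeroDivisors R).map (algebraMap R S)).comap (φ : T →+* S) := by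
      rintro _ ⟨r, hr, rfl⟩
      exact ⟨r, hr, (φ.commutes r).symm⟩
    have h1 : IsLocalization.map (M := (nonZeroDivisors R).map (algebraMap R T))
        (T := (nonZeroDivisors R).map (algebraMap R S))
        (S := Localization ((nonZeroDivisors R).map (algebraMap R T)))
        (Localization ((nonZeroDivisors R).map (algebraMap R S))) (φ : T →+* S) hle
        (algebraMap T (Localization ((nonZeroDivisors R).map (algebraMap R T))) t) =
        algebraMap S (Localization ((nonZeroDivisors R).map (algebraMap R S)))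
          ((φ : T →+* S) t) := IsLocalization.map_eq _ t
    exact h1
  have hcomm : ∀ x : Gen (algebraMap R T), e' (baseK φ x) = ι (e x) := by
    intro x
    have key : ∀ f₁ f₂ : Localization ((nonZeroDivisors R).map (algebraMap R T)) →+* Q,
        (∀ t : T, f₁ (algebraMap T (Localization ((nonZeroDivisors R).map (algebraMap R T))) t) =
          f₂ (algebraMap T (Localization ((nonZeroDivisors R).map (algebraMap R T))) t)) →
        f₁ = f₂ := fun f₁ f₂ h1 =>
      IsLocalization.ringHom_ext ((nonZeroDivisors R).map (algebraMap R T)) (RingHom.ext h1)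
    have h1 : ((e' : Gen (algebraMap R S) →+* Q).comp (baseK φ)) =
        ι.comp (e : Gen (algebraMap R T) →+* P) := by
      refine key _ _ fun t => ?_
      change e' (baseK φ (toGen (algebraMap R T) t)) = ι (e (toGen (algebraMap R T) t))
      rw [hb, he, he', hι]
    exact RingHom.congr_fun h1 x
  intro q hq hq1
  have hq' : Irreducible (e q) := (MulEquiv.irreducible_iff e).2 hq
  have hq1' : ¬ e q ∣ 1 := fun h1 => hq'.not_isUnit (isUnit_of_dvd_one h1)
  obtain ⟨h1, h2⟩ := h (e q) hq' hq1'
  refine ⟨?_, fun a ha => ?_⟩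
  · rw [← hcomm] at h1
    exact (MulEquiv.prime_iff e').1 h1
  · have h3 := map_dvd e' ha
    rw [hcomm, hcomm] at h3
    have h4 := map_dvd e.symm (h2 _ h3)
    rwa [e.symm_apply_apply, e.symm_apply_apply] at h4

end Pool.Agent.Lib.MP_1a0ddd_nt.Nc
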