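import Pool.Agent.Lib.MP_1a0ddd_nt.Nc.Defs

/-! Localisations inside a field. -/

set_option autoImplicit false

namespace Pool.Agent.Lib.MP_1a0ddd_nt.Nc

open Polynomial Un

variable {R A B L : Type} [CommRing R] [CommRing A] [CommRing B] [Field L] [Algebra R A]
  [Algebra R B] [Algebra R L]

/-- the subring `A[1/a]` of `L` -/
def loc (j : A →ₐ[R] L) (a : A) : Subalgebra R L :=
  Algebra.adjoin R (Set.range j ∪ {(j a)⁻¹})

private theorem map_mem_loc (j : A →ₐ[R] L) (a x : A) : j x ∈ loc j a :=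
  Algebra.subset_adjoin (Or.inl ⟨x, rfl⟩)

private theorem inv_mem_loc (j : A →ₐ[R] L) (a : A) : (j a)⁻¹ ∈ loc j a :=
  Algebra.subset_adjoin (Or.inr rfl)

private theorem loc_le (j : A →ₐ[R] L) {a : A} {S : Subalgebra R L} (h1 : ∀ x : A, j x ∈ S)
    (h2 : (j a)⁻¹ ∈ S) : loc j a ≤ S := by
  rw [loc, Algebra.adjoin_le_iff]
  rintro x (⟨r, rfl⟩ | hx)
  · exact h1 r
  · rw [Set.mem_singleton_iff.1 hx]
    exact h2

theorem mem_loc (j : A →ₐ[R] L) {a : A} (ha : j a ≠ 0) (z : L) :
    z ∈ loc j a ↔ ∃ (x : A) (m : ℕ), z * j a ^ m = j x := by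
  constructor
  · intro hz
    unfold loc at hz
    induction hz using Algebra.adjoin_induction with
    | mem x hx =>
      rcases hx with ⟨r, rfl⟩ | hx
      · exact ⟨r, 0, by rw [pow_zero, mul_one]⟩
      · refine ⟨1, 1, ?_⟩
        rw [Set.mem_singleton_iff.1 hx, pow_one, inv_mul_cancel₀ ha, map_one]
    | algebraMap r => exact ⟨algebraMap R A r, 0, by rw [pow_zero, mul_one, j.commutes]⟩
    | add x y _ _ hx hy =>
      obtain ⟨r, n, h⟩ := hx
      obtain ⟨q, k, h'⟩ := hy
      refine ⟨r * a ^ k + q * a ^ n, n + k, ?_⟩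
      simp only [map_add, map_mul, map_pow, ← h, ← h', pow_add]
      ring
    | mul x y _ _ hx hy =>
      obtain ⟨r, n, h⟩ := hx
      obtain ⟨q, k, h'⟩ := hy
      refine ⟨r * q, n + k, ?_⟩
      simp only [map_mul, ← h, ← h', pow_add]
      ring
  · rintro ⟨x, m, h⟩
    have h5 : z = j x * ((j a)⁻¹) ^ m := by
      rw [inv_pow, ← h, mul_inv_cancel_right₀ (pow_ne_zero m ha)]
    rw [h5]
    exact (loc j a).mul_mem (map_mem_loc j a x) ((loc j a).pow_mem (inv_mem_loc j a) m)

theorem loc_equiv (j : A →ₐ[R] L) (hj : Function.Injective j) {a : A} (ha : a ≠ 0) :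
    ∃ e : Localization.Away a ≃ₐ[R] loc j a,
      ∀ x : A, (e (algebraMap A (Localization.Away a) x) : L) = j x := by
  have hja : j a ≠ 0 := fun h => ha (hj (by rw [h, map_zero]))
  have hu : IsUnit ((j : A →+* L) a) := isUnit_iff_ne_zero.2 hja
  obtain ⟨l, hl⟩ : ∃ l : Localization.Away a →+* L,
      ∀ x, l (algebraMap A (Localization.Away a) x) = j x :=
    ⟨IsLocalization.Away.lift a hu, fun x => IsLocalization.Away.lift_eq a hu x⟩
  have hc : ∀ r : R, l (algebraMap R (Localization.Away a) r) = algebraMap R L r := by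
    intro r
    rw [IsScalarTower.algebraMap_apply R A (Localization.Away a), hl, j.commutes]
  obtain ⟨φ, hφ⟩ : ∃ φ : Localization.Away a →ₐ[R] L, ∀ x, φ x = l x :=
    ⟨{ l with commutes' := hc }, fun x => rfl⟩
  have h1 : ∀ x, φ (algebraMap A (Localization.Away a) x) = j x := fun x => by rw [hφ, hl]
  have h2 : φ (IsLocalization.Away.invSelf a) = (j a)⁻¹ := by
    have h3 : j a * φ (IsLocalization.Away.invSelf a) = 1 := by
      rw [← h1 a, ← map_mul, IsLocalization.Away.mul_invSelf, map_one]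
    exact eq_inv_of_mul_eq_one_right h3
  have hsurj : ∀ x : Localization.Away a, ∃ (n : ℕ) (r : A),
      x * algebraMap A (Localization.Away a) a ^ n = algebraMap A (Localization.Away a) r := by
    intro x
    obtain ⟨n, r, h⟩ := IsLocalization.Away.surj a x
    exact ⟨n, r, h⟩
  have hinj : Function.Injective φ := by
    rw [injective_iff_map_eq_zero]
    intro x hx
    obtain ⟨n, r, h⟩ := hsurj x
    have h4 : j r = 0 := by
      rw [← h1 r, ← h, map_mul, hx, zero_mul]
    have h5 : r = 0 := hj (by rw [h4, map_zero])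
    rw [h5, map_zero] at h
    have h7 : IsUnit (algebraMap A (Localization.Away a) a ^ n) :=
      (IsLocalization.Away.algebraMap_isUnit a).pow n
    exact (h7.mul_left_eq_zero).1 h
  have hrange : φ.range = loc j a := by
    apply le_antisymm
    · rintro _ ⟨x, rfl⟩
      obtain ⟨n, r, h⟩ := hsurj x
      refine (mem_loc j hja _).2 ⟨r, n, ?_⟩
      rw [← h1 r, ← h, map_mul, map_pow, h1]
      rfl
    · exact loc_le j (fun r => ⟨_, h1 r⟩) ⟨_, h2⟩
  refine ⟨(AlgEquiv.ofInjective φ hinj).trans (Subalgebra.equivOfEq _ _ hrange), fun x => ?_⟩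
  exact h1 x

private theorem inv_of_mul (j : A →ₐ[R] L) {a b : A} (h : j (a * b) ≠ 0) :
    (j a)⁻¹ ∈ loc j (a * b) := by
  rw [map_mul] at h
  have hb : j b ≠ 0 := right_ne_zero_of_mul h
  have h1 : (j a)⁻¹ = j b * (j (a * b))⁻¹ := by
    rw [map_mul, mul_inv, mul_comm (j a)⁻¹, ← mul_assoc, mul_inv_cancel₀ hb, one_mul]
  rw [h1]
  exact (loc j (a * b)).mul_mem (map_mem_loc j _ b) (inv_mem_loc j _)

private theorem loc_mono (j : A →ₐ[R] L) {a a' : A} (h : j a' ≠ 0) (hd : a ∣ a') :
    loc j a ≤ loc j a' := by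
  obtain ⟨b, rfl⟩ := hd
  exact loc_le j (fun x => map_mem_loc j _ x) (inv_of_mul j h)

/-- a finitely generated ring is contained in `A[1/s]` -/
private theorem exists_s (hB : Algebra.FiniteType R B) (j : A →ₐ[R] L) (k : B →ₐ[R] L)
    (hj : Function.Injective j) (hfj : ∀ z : L, ∃ x y : A, y ≠ 0 ∧ z * j y = j x) :
    ∃ s : A, j s ≠ 0 ∧ ∀ b : B, k b ∈ loc j s := by
  classical
  obtain ⟨T, hT⟩ := hB.out
  choose r q hq hr using fun b : B => hfj (k b)
  have hs : j (∏ b ∈ T, q b) ≠ 0 := by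
    rw [map_prod]
    exact Finset.prod_ne_zero_iff.2 fun b _ h => hq b (hj (by rw [h, map_zero]))
  refine ⟨∏ b ∈ T, q b, hs, fun b => ?_⟩
  have hgen : ∀ b ∈ T, k b ∈ loc j (∏ b ∈ T, q b) := by
    intro b hb
    refine (mem_loc j hs _).2 ⟨r b * ∏ c ∈ T.erase b, q c, 1, ?_⟩
    rw [pow_one, ← Finset.mul_prod_erase T q hb, map_mul, ← mul_assoc, hr, ← map_mul]
  have hb : b ∈ Algebra.adjoin R (T : Set B) := by rw [hT]; trivial
  induction hb using Algebra.adjoin_induction with
  | mem x hx => exact hgen x hx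
  | algebraMap n =>
    rw [k.commutes]
    exact Subalgebra.algebraMap_mem _ n
  | add x y _ _ hx hy => rw [map_add]; exact Subalgebra.add_mem _ hx hy
  | mul x y _ _ hx hy => rw [map_mul]; exact Subalgebra.mul_mem _ hx hy

/-- Two finitely generated domains with the same fraction field are equal after inverting
elements. Proof: `s ∈ A` with `k B ⊆ A[1/s]`, `t ∈ B` with `j A ⊆ B[1/t]`; write
`k t = j t' / j s ^ m`; put `a = a₀ s t'`. For `a' = a c` write `j a' = k b' / k t ^ l`; then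
`A[1/a'] = B[1/(t b')]` -/
theorem loc_birat (hA : Algebra.FiniteType R A) (hB : Algebra.FiniteType R B) (j : A →ₐ[R] L)
    (k : B →ₐ[R] L) (hj : Function.Injective j) (hk : Function.Injective k)
    (hfj : ∀ z : L, ∃ x y : A, y ≠ 0 ∧ z * j y = j x)
    (hfk : ∀ z : L, ∃ x y : B, y ≠ 0 ∧ z * k y = k x) (a₀ : A) (h0 : a₀ ≠ 0) :
    ∃ a : A, a ≠ 0 ∧ a₀ ∣ a ∧ ∀ a' : A, a' ≠ 0 → a ∣ a' →
      ∃ b' : B, b' ≠ 0 ∧ loc j a' = loc k b' := by
  have hj0 : ∀ x : A, j x = 0 → x = 0 := fun x h => hj (by rw [h, map_zero])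
  have hk0 : ∀ x : B, k x = 0 → x = 0 := fun x h => hk (by rw [h, map_zero])
  obtain ⟨s, hs, hBs⟩ := exists_s hB j k hj hfj
  obtain ⟨t, ht, hAt⟩ := exists_s hA k j hk hfk
  obtain ⟨t', m, ht'⟩ := (mem_loc j hs (k t)).1 (hBs t)
  have ht'0 : j t' ≠ 0 := by
    rw [← ht']
    exact mul_ne_zero ht (pow_ne_zero m hs)
  have h0' : j a₀ ≠ 0 := fun h => h0 (hj0 _ h)
  refine ⟨a₀ * (s * t'), fun h => ?_, dvd_mul_right _ _, fun a' ha' hd => ?_⟩
  · have h1 : j (a₀ * (s * t')) = 0 := by rw [h, map_zero]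
    rw [map_mul, map_mul] at h1
    exact mul_ne_zero h0' (mul_ne_zero hs ht'0) h1
  have hja' : j a' ≠ 0 := fun h => ha' (hj0 _ h)
  obtain ⟨b, l, hb⟩ := (mem_loc k ht (j a')).1 (hAt a')
  have hkb : k b ≠ 0 := by
    rw [← hb]
    exact mul_ne_zero hja' (pow_ne_zero l ht)
  have htb : k (t * b) ≠ 0 := by
    rw [map_mul]
    exact mul_ne_zero ht hkb
  refine ⟨t * b, fun h => htb (by rw [h, map_zero]), ?_⟩
  have hsa : s ∣ a' := ((dvd_mul_right s t').trans (dvd_mul_left _ a₀)).trans hd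
  have hta : t' ∣ a' := ((dvd_mul_left t' s).trans (dvd_mul_left _ a₀)).trans hd
  have hls : loc j s ≤ loc j a' := loc_mono j hja' hsa
  have hlt : loc j t' ≤ loc j a' := loc_mono j hja' hta
  have hkt : (k t)⁻¹ ∈ loc j a' := by
    have h1 : (k t)⁻¹ = j s ^ m * (j t')⁻¹ := by
      rw [← ht', mul_inv, mul_comm (k t)⁻¹, ← mul_assoc, mul_inv_cancel₀ (pow_ne_zero m hs),
        one_mul]
    rw [h1]
    exact (loc j a').mul_mem ((loc j a').pow_mem (map_mem_loc j _ s) m)
      (hlt (inv_mem_loc j t'))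
  have hltb : loc k t ≤ loc k (t * b) := loc_mono k htb (dvd_mul_right t b)
  have hlbb : loc k b ≤ loc k (t * b) := loc_mono k htb (dvd_mul_left b t)
  apply le_antisymm
  · refine loc_le j (fun x => hltb (hAt x)) ?_
    have h1 : (j a')⁻¹ = k t ^ l * (k b)⁻¹ := by
      rw [← hb, mul_inv, mul_comm (j a')⁻¹, ← mul_assoc, mul_inv_cancel₀ (pow_ne_zero l ht),
        one_mul]
    rw [h1]
    exact (loc k (t * b)).mul_mem ((loc k (t * b)).pow_mem (map_mem_loc k _ t) l)
      (hlbb (inv_mem_loc k b))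
  · refine loc_le k (fun x => hls (hBs x)) ?_
    have h1 : (k (t * b))⁻¹ = (k t)⁻¹ * ((j a')⁻¹ * (k t)⁻¹ ^ l) := by
      rw [map_mul, ← hb, mul_inv, mul_inv, inv_pow]
    rw [h1]
    exact (loc j a').mul_mem hkt ((loc j a').mul_mem (inv_mem_loc j a')
      ((loc j a').pow_mem hkt l))

private theorem cst_toGen' {A B : Type} [CommRing A] [CommRing B] (f : A →+* B) (a : A) :
    Fb.cst f (algebraMap A (FractionRing A) a) = Fb.toGen f (f a) := by
  have h1 : IsLocalization.map (M := nonZeroDivisors A) (T := (nonZeroDivisors A).map f)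
      (Localization ((nonZeroDivisors A).map f)) f (Submonoid.le_comap_map _)
      (algebraMap A (FractionRing A) a) =
        algebraMap B (Localization ((nonZeroDivisors A).map f)) (f a) :=
    IsLocalization.map_eq _ a
  exact h1

/-- transport of the Tate property along an isomorphism -/
theorem tate_equiv {R S S' : Type} [CommRing R] [IsDomain R] [CommRing S] [Algebra R S]
    [CommRing S'] [Algebra R S'] (f : S ≃ₐ[R] S') {d n e : ℕ} (h : Tate R S d n e) :
    Tate R S' d n e := by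
  have hfc : ∀ r : R, f (algebraMap R S r) = algebraMap R S' r := f.commutes
  have hgeo := h.geo
  have := hgeo.dom
  have := hgeo.ufd
  -- the isomorphism of the generic fibres
  have hM : ((nonZeroDivisors R).map (algebraMap R S)).map f.toRingEquiv.toMonoidHom =
      (nonZeroDivisors R).map (algebraMap R S') := by
    ext x
    constructor
    · rintro ⟨_, ⟨r, hr, rfl⟩, rfl⟩
      exact ⟨r, hr, (hfc r).symm⟩
    · rintro ⟨r, hr, rfl⟩
      exact ⟨_, ⟨r, hr, rfl⟩, hfc r⟩
  obtain ⟨g, hg⟩ : ∃ g : Fb.Gen (algebraMap R S) ≃+* Fb.Gen (algebraMap R S'),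
      ∀ s, g (Fb.toGen (algebraMap R S) s) = Fb.toGen (algebraMap R S') (f s) :=
    ⟨IsLocalization.ringEquivOfRingEquiv
      (Localization ((nonZeroDivisors R).map (algebraMap R S)))
      (Localization ((nonZeroDivisors R).map (algebraMap R S'))) f.toRingEquiv hM,
      fun s => by
        have h1 := IsLocalization.ringEquivOfRingEquiv_eq
          (S := Localization ((nonZeroDivisors R).map (algebraMap R S)))
          (Q := Localization ((nonZeroDivisors R).map (algebraMap R S'))) hM s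
        exact h1⟩
  have hgc : ∀ c : FractionRing R, g (Fb.cst (algebraMap R S) c) =
      Fb.cst (algebraMap R S') c := by
    have h1 : (g : Fb.Gen (algebraMap R S) →+* Fb.Gen (algebraMap R S')).comp
        (Fb.cst (algebraMap R S)) = Fb.cst (algebraMap R S') := by
      apply IsLocalization.ringHom_ext (nonZeroDivisors R)
      ext r
      have h2 : g (Fb.cst (algebraMap R S) (algebraMap R (FractionRing R) r)) =
          Fb.cst (algebraMap R S') (algebraMap R (FractionRing R) r) := by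
        rw [cst_toGen', cst_toGen', hg, hfc]
      exact h2
    intro c
    exact RingHom.congr_fun h1 c
  have hcard : ∀ (D : R) (p : ℕ), Nat.card {σ : S →+* ZMod p // σ (algebraMap R S D) ≠ 0} =
      Nat.card {σ : S' →+* ZMod p // σ (algebraMap R S' D) ≠ 0} := by
    intro D p
    refine Nat.card_congr
      { toFun := fun σ => ⟨σ.1.comp (f.symm : S' →+* S), ?_⟩
        invFun := fun σ => ⟨σ.1.comp (f : S →+* S'), ?_⟩
        left_inv := fun σ => ?_
        right_inv := fun σ => ?_ }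
    · have h1 : f.symm (algebraMap R S' D) = algebraMap R S D := f.symm.commutes D
      change σ.1 (f.symm (algebraMap R S' D)) ≠ 0
      rw [h1]
      exact σ.2
    · change σ.1 (f (algebraMap R S D)) ≠ 0
      rw [hfc]
      exact σ.2
    · refine Subtype.ext (RingHom.ext fun s => ?_)
      change σ.1 (f.symm (f s)) = σ.1 s
      rw [f.symm_apply_apply]
    · refine Subtype.ext (RingHom.ext fun s => ?_)
      change σ.1 (f (f.symm s)) = σ.1 s
      rw [f.apply_symm_apply]
  refine ⟨⟨f.symm.toMulEquiv.isDomain S, ?_, Algebra.FiniteType.equiv hgeo.finite f, ?_,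
    g.toMulEquiv.uniqueFactorizationMonoid hgeo.ufd, ?_⟩, ?_⟩
  · intro x y hxy
    apply hgeo.inj
    apply f.injective
    rw [hfc, hfc, hxy]
  · rw [← hgeo.dim]
    exact f.trdeg_eq.symm
  · obtain ⟨γ, hγ⟩ := hgeo.units
    obtain ⟨u, hu⟩ : ∃ u : (Fb.Gen (algebraMap R S))ˣ ≃* (Fb.Gen (algebraMap R S'))ˣ,
      ∀ x, ((u x : (Fb.Gen (algebraMap R S'))ˣ) : Fb.Gen (algebraMap R S')) =
        g (x : Fb.Gen (algebraMap R S)) := ⟨Units.mapEquiv g.toMulEquiv, fun x => rfl⟩
    have huc : ∀ c : (FractionRing R)ˣ, u (Units.map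
        (Fb.cst (algebraMap R S) : FractionRing R →* Fb.Gen (algebraMap R S)) c) =
        Units.map (Fb.cst (algebraMap R S') : FractionRing R →* Fb.Gen (algebraMap R S')) c := by
      intro c
      apply Units.ext
      rw [hu]
      exact hgc c
    refine ⟨fun i => u (γ i), ⟨fun v => ?_, fun c m hm => ?_⟩⟩
    · obtain ⟨c, m, hcm⟩ := hγ.gen (u.symm v)
      refine ⟨c, m, ?_⟩
      have h1 := congrArg u hcm
      rw [u.apply_symm_apply, map_mul, huc, map_prod] at h1
      rw [h1]
      simp only [map_zpow]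
    · apply hγ.indep c m
      apply u.injective
      rw [huc, ← hm, map_prod]
      simp only [map_zpow]
  · obtain ⟨D₀, h0, h1⟩ := h.count
    refine ⟨D₀, h0, fun D hD hd => ?_⟩
    have h2 : countD R S' D d n = countD R S D d n := by
      funext p
      rw [countD, countD, hcard]
    rw [h2]
    exact h1 D hD hd

end Pool.Agent.Lib.MP_1a0ddd_nt.Nc
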