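import Pool.Agent.Lib.MP_1a0ddd_nt.Nc.Ord
import Pool.Agent.Lib.MP_1a0ddd_nt.Nc.Plx

/-! Models of the residue fields. -/

set_option autoImplicit false

namespace Pool.Agent.Lib.MP_1a0ddd_nt.Nc

open Polynomial

/-! ### Auxiliary lemmas -/

private theorem toL_inj {T S : Type} [CommRing T] [CommRing S] [IsDomain S] {φ : T →+* S}
    (hφ : Function.Injective φ) : Function.Injective (toL φ) :=
  (IsFractionRing.injective S (FractionRing S)).comp hφ

private theorem toL_mem {T S : Type} [CommRing T] [CommRing S] [IsDomain S] (φ : T →+* S)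
    (t : T) : toL φ t ∈ baseF φ :=
  Subfield.subset_closure ⟨t, rfl⟩

/-- `baseF φ` consists of the quotients of elements of `T` -/
private theorem baseF_quot {T S : Type} [CommRing T] [IsDomain T] [CommRing S] [IsDomain S]
    {φ : T →+* S} (hφ : Function.Injective φ) {y : FractionRing S} (hy : y ∈ baseF φ) :
    ∃ a b : T, b ≠ 0 ∧ y * toL φ b = toL φ a := by
  rw [baseF, Subfield.mem_closure_iff] at hy
  obtain ⟨u, hu, w, hw, rfl⟩ := hy
  have e : Subring.closure (Set.range (toL φ)) = (toL φ).range := by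
    rw [← RingHom.coe_range, Subring.closure_eq]
  rw [e] at hu hw
  obtain ⟨a, rfl⟩ := hu
  obtain ⟨b, rfl⟩ := hw
  by_cases hb : b = 0
  · refine ⟨0, 1, one_ne_zero, ?_⟩
    rw [hb, map_zero, div_zero, zero_mul]
  · refine ⟨a, b, hb, ?_⟩
    rw [div_mul_cancel₀]
    exact (map_ne_zero_iff _ (toL_inj hφ)).2 hb

/-- the map from `T` to a valuation ring -/
private theorem toV {T S : Type} [CommRing T] [CommRing S] [IsDomain S] (φ : T →+* S)
    (V : Place (baseF φ)) : ∃ j : T →+* V.1, ∀ t, (j t : FractionRing S) = toL φ t :=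
  ⟨(toL φ).codRestrict V.1 fun t => V.2.2 (toL_mem φ t), fun _ => rfl⟩

private theorem toV_res {T S : Type} [CommRing T] [CommRing S] [IsDomain S] {φ : T →+* S}
    (hφ : Function.Injective φ) {V : Place (baseF φ)} {j : T →+* V.1}
    (hj : ∀ t, (j t : FractionRing S) = toL φ t) {t : T} (ht : t ≠ 0) :
    IsLocalRing.residue V.1 (j t) ≠ 0 := by
  have h0 : toL φ t ≠ 0 := (map_ne_zero_iff _ (toL_inj hφ)).2 ht
  have h1 : (toL φ t)⁻¹ ∈ V.1 := V.2.2 ((baseF φ).inv_mem (toL_mem φ t))
  have h2 : IsUnit (j t) := by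
    refine IsUnit.of_mul_eq_one ⟨_, h1⟩ (Subtype.ext ?_)
    show (j t : FractionRing S) * (toL φ t)⁻¹ = 1
    rw [hj, mul_inv_cancel₀ h0]
  exact (h2.map (IsLocalRing.residue V.1)).ne_zero

/-- clearing of denominators -/
private theorem clear {T S : Type} [CommRing T] [IsDomain T] [CommRing S] [IsDomain S]
    {φ : T →+* S} (hφ : Function.Injective φ) (P : (baseF φ)[X]) :
    ∃ (b : T) (Q : T[X]), b ≠ 0 ∧
      Q.map (toL φ) = C (toL φ b) * P.map (baseF φ).subtype := by
  induction P using Polynomial.induction_on' with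
  | add p q hp hq =>
    obtain ⟨b, Q, hb, h1⟩ := hp
    obtain ⟨b', Q', hb', h2⟩ := hq
    refine ⟨b * b', C b' * Q + C b * Q', mul_ne_zero hb hb', ?_⟩
    rw [Polynomial.map_add, Polynomial.map_mul, Polynomial.map_mul, h1, h2, Polynomial.map_C,
      Polynomial.map_C, Polynomial.map_add, map_mul, C_mul]
    ring
  | monomial n a =>
    obtain ⟨c, b, hb, h1⟩ := baseF_quot hφ a.2
    refine ⟨b, monomial n c, hb, ?_⟩
    rw [Polynomial.map_monomial, Polynomial.map_monomial, C_mul_monomial, ← h1, mul_comm]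
    rfl

/-- proof: `place_residue` and clearing of denominators (`baseF φ` consists of the quotients of
elements of `T`) -/
theorem resModel_alg {T S A : Type} [CommRing T] [IsDomain T] [CommRing S] [IsDomain S]
    [CharZero S] [CommRing A] {φ : T →+* S} (hφ : Function.Injective φ)
    (htr : Algebra.trdeg (baseF φ) (FractionRing S) = 1) {V : Place (baseF φ)} {ψ : T →+* A}
    (h : ResModel φ V ψ) : IsDomain A ∧ Function.Injective ψ ∧
      ∀ x : A, ∃ P : T[X], P ≠ 0 ∧ P.eval₂ ψ x = 0 := by
  obtain ⟨ι, i1, i2, -⟩ := h.emb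
  obtain ⟨j, hj⟩ := toV φ V
  have i3 : ∀ t, ι (ψ t) = IsLocalRing.residue V.1 (j t) := fun t => i2 t (j t) (hj t)
  refine ⟨i1.isDomain ι, ?_, fun x => ?_⟩
  · rw [injective_iff_map_eq_zero]
    intro t ht
    by_contra h0
    refine toV_res hφ hj h0 ?_
    rw [← i3, ht, map_zero]
  · obtain ⟨v, hv⟩ := IsLocalRing.residue_surjective (R := V.1) (ι x)
    obtain ⟨P, hP, hw⟩ := place_residue htr V v
    obtain ⟨b, Q, hb, hQ⟩ := clear hφ P
    have hb0 : toL φ b ≠ 0 := (map_ne_zero_iff _ (toL_inj hφ)).2 hb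
    refine ⟨Q, ?_, i1 ?_⟩
    · rintro rfl
      rw [Polynomial.map_zero] at hQ
      have h1 := hQ.symm
      rw [mul_eq_zero] at h1
      rcases h1 with h1 | h1
      · exact hb0 (C_eq_zero.1 h1)
      · exact hP ((Polynomial.map_eq_zero _).1 h1)
    · rw [map_zero, Polynomial.hom_eval₂, ← hv]
      have e1 : ι.comp ψ = (IsLocalRing.residue V.1).comp j := RingHom.ext fun t => i3 t
      rw [e1, ← Polynomial.hom_eval₂]
      -- the value of `P` at `v`
      have hPv : ∀ R : (baseF φ)[X], R.eval₂ (baseF φ).subtype (v : FractionRing S) ∈ V.1 := by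
        intro R
        rw [Polynomial.eval₂_eq_sum_range]
        exact sum_mem fun i _ => mul_mem (V.2.2 (R.coeff i).2) (pow_mem v.2 i)
      have h1 := hw ⟨_, hPv P⟩ rfl
      have e2 : Q.eval₂ j v = j b * ⟨_, hPv P⟩ := by
        refine Subtype.ext ?_
        have e3 : ((Q.eval₂ j v : V.1) : FractionRing S) =
            Q.eval₂ (toL φ) (v : FractionRing S) := by
          have e4 := Polynomial.hom_eval₂ Q j V.1.subtype v
          have e5 : V.1.subtype.comp j = toL φ := RingHom.ext fun t => hj t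
          rw [e5] at e4
          exact e4
        rw [e3]
        show _ = (j b : FractionRing S) * P.eval₂ (baseF φ).subtype (v : FractionRing S)
        rw [hj, ← Polynomial.eval_map, hQ, Polynomial.eval_mul, Polynomial.eval_C,
          Polynomial.eval_map]
      rw [e2, map_mul, h1, mul_zero]

/-- Proof: `A` is the subring of the residue field generated by the image of `T` and the residues
of `s`, `s` from `place_gen` -/
theorem resModel_exists {T S : Type} [CommRing T] [IsDomain T] [CommRing S] [IsDomain S]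
    [CharZero S] {φ : T →+* S} (hφ : Function.Injective φ)
    (htr : Algebra.trdeg (baseF φ) (FractionRing S) = 1)
    (hfg : ∃ s : Set (FractionRing S), s.Finite ∧
      Subfield.closure ((baseF φ : Set (FractionRing S)) ∪ s) = ⊤) (V : Place (baseF φ)) :
    ∃ (A : Type) (_ : CommRing A) (ψ : T →+* A), ResModel φ V ψ := by
  obtain ⟨s, hs, hsV, hgen⟩ := place_gen htr hfg V
  obtain ⟨j, hj⟩ := toV φ V
  let aT : Algebra T (IsLocalRing.ResidueField V.1) := ((IsLocalRing.residue V.1).comp j).toAlgebra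
  have haT : ∀ t, algebraMap T (IsLocalRing.ResidueField V.1) t =
      IsLocalRing.residue V.1 (j t) := fun t => rfl
  obtain ⟨s', hs'⟩ : ∃ s' : Set (IsLocalRing.ResidueField V.1), s' =
    IsLocalRing.residue V.1 '' {v : V.1 | (v : FractionRing S) ∈ s} := ⟨_, rfl⟩
  have hfin : s'.Finite := by
    rw [hs']
    refine Set.Finite.image _ ?_
    exact hs.preimage Subtype.val_injective.injOn
  have hft : Algebra.FiniteType T (Algebra.adjoin T s') := by
    rw [← Subalgebra.fg_iff_finiteType]
    exact Subalgebra.fg_def.2 ⟨s', hfin, rfl⟩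
  -- the elements which are quotients of elements of `A`
  have hquot : ∀ u ∈ Subring.closure ((baseF φ : Set (FractionRing S)) ∪ s),
      ∃ h : u ∈ V.1, ∃ a b : Algebra.adjoin T s', b ≠ 0 ∧
        IsLocalRing.residue V.1 ⟨u, h⟩ * (b : IsLocalRing.ResidueField V.1) = a := by
    intro u hu
    induction hu using Subring.closure_induction with
    | mem x hx =>
      rcases hx with hx | hx
      · obtain ⟨a, b, hb, h1⟩ := baseF_quot hφ hx
        refine ⟨V.2.2 hx, algebraMap T _ a, algebraMap T _ b, ?_, ?_⟩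
        · intro h0
          have h2 : algebraMap T (IsLocalRing.ResidueField V.1) b = 0 := congrArg Subtype.val h0
          exact toV_res hφ hj hb h2
        · show IsLocalRing.residue V.1 ⟨x, _⟩ * IsLocalRing.residue V.1 (j b) =
            IsLocalRing.residue V.1 (j a)
          rw [← map_mul]
          congr 1
          refine Subtype.ext ?_
          show x * (j b : FractionRing S) = j a
          rw [hj, hj, h1]
      · have hm : IsLocalRing.residue V.1 ⟨x, hsV hx⟩ ∈ Algebra.adjoin T s' := by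
          refine Algebra.subset_adjoin ?_
          rw [hs']
          exact ⟨⟨x, hsV hx⟩, hx, rfl⟩
        refine ⟨hsV hx, ⟨_, hm⟩, 1, one_ne_zero, ?_⟩
        show _ * (1 : IsLocalRing.ResidueField V.1) = _
        rw [mul_one]
    | zero =>
      refine ⟨zero_mem _, 0, 1, one_ne_zero, ?_⟩
      have e : (⟨0, zero_mem _⟩ : V.1) = 0 := rfl
      rw [e, map_zero, zero_mul]
      rfl
    | one =>
      refine ⟨one_mem _, 1, 1, one_ne_zero, ?_⟩
      have e : (⟨1, one_mem _⟩ : V.1) = 1 := rfl
      rw [e, map_one, one_mul]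
    | add x y _ _ hx hy =>
      obtain ⟨h1, a, b, hb, e1⟩ := hx
      obtain ⟨h2, c, d, hd, e2⟩ := hy
      refine ⟨add_mem h1 h2, a * d + c * b, b * d, mul_ne_zero hb hd, ?_⟩
      have e : (⟨x + y, add_mem h1 h2⟩ : V.1) = ⟨x, h1⟩ + ⟨y, h2⟩ := rfl
      rw [e, map_add]
      push_cast
      rw [← e1, ← e2]
      ring
    | neg x _ hx =>
      obtain ⟨h1, a, b, hb, e1⟩ := hx
      refine ⟨neg_mem h1, -a, b, hb, ?_⟩
      have e : (⟨-x, neg_mem h1⟩ : V.1) = -⟨x, h1⟩ := rfl
      rw [e, map_neg]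
      push_cast
      rw [← e1]
      ring
    | mul x y _ _ hx hy =>
      obtain ⟨h1, a, b, hb, e1⟩ := hx
      obtain ⟨h2, c, d, hd, e2⟩ := hy
      refine ⟨mul_mem h1 h2, a * c, b * d, mul_ne_zero hb hd, ?_⟩
      have e : (⟨x * y, mul_mem h1 h2⟩ : V.1) = ⟨x, h1⟩ * ⟨y, h2⟩ := rfl
      rw [e, map_mul]
      push_cast
      rw [← e1, ← e2]
      ring
  refine ⟨Algebra.adjoin T s', inferInstance, algebraMap T _, ?_, ?_⟩
  · exact RingHom.finiteType_algebraMap.2 hft
  · refine ⟨(Algebra.adjoin T s').val, Subtype.val_injective, fun t v hv => ?_, fun x => ?_⟩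
    · show IsLocalRing.residue V.1 (j t) = _
      congr 1
      exact Subtype.ext ((hj t).trans hv.symm)
    · obtain ⟨v, rfl⟩ := IsLocalRing.residue_surjective x
      obtain ⟨u, hu, hvu⟩ := hgen v v.2
      obtain ⟨h1, a, b, hb, e1⟩ := hquot u hu
      refine ⟨a, b, hb, ?_⟩
      have e2 : IsLocalRing.residue V.1 v = IsLocalRing.residue V.1 ⟨u, h1⟩ := by
        rw [← sub_eq_zero, ← map_sub, IsLocalRing.residue_eq_zero_iff,
          IsLocalRing.mem_maximalIdeal]
        have h3 : ((v - ⟨u, h1⟩ : V.1) : FractionRing S) ∈ V.1.nonunits := hvu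
        exact ValuationSubring.coe_mem_nonunits_iff.1 h3
      rw [e2]
      exact e1

end Pool.Agent.Lib.MP_1a0ddd_nt.Nc
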