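import Pool.Agent.Lib.MP_1a0ddd_nt.LW.CReg
import Pool.Agent.Lib.MP_1a0ddd_nt.LW.CFld

/-! Plane models of families of curves. -/

set_option autoImplicit false

namespace Pool.Agent.Lib.MP_1a0ddd_nt.Nc

open Polynomial

private theorem pm_lift {A k : Type} [CommRing A] [IsDomain A] [Field k] [Algebra A k]
    (f₀ : k[X][X]) (hm : f₀.Monic)
    (hc : ∀ i j, ((f₀.coeff i).coeff j) ∈ Set.range (algebraMap A k)) :
    ∃ f : A[X][X], f.map (mapRingHom (algebraMap A k)) = f₀ ∧ f.natDegree = f₀.natDegree ∧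
      f.Monic := by
  have hlift : f₀ ∈ lifts (mapRingHom (algebraMap A k)) := by
    rw [lifts_iff_coeff_lifts]
    intro i
    have h1 : f₀.coeff i ∈ lifts (algebraMap A k) := by
      rw [lifts_iff_coeff_lifts]
      exact hc i
    obtain ⟨q, hq⟩ := (mem_lifts _).1 h1
    exact ⟨q, hq⟩
  exact lifts_and_natDegree_eq_and_monic hlift hm

private theorem pm_abs {A k : Type} [CommRing A] [IsDomain A] [Field k] [Algebra A k]
    [IsFractionRing A k] (f₀ : k[X][X]) (f : A[X][X])
    (hf₀ : f.map (mapRingHom (algebraMap A k)) = f₀) (h : LW.AbsIrr f₀) : LW.AbsIrr f := by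
  intro E _ φ hφ
  have h1 := h E (IsFractionRing.lift hφ) (RingHom.injective _)
  rw [← hf₀, Polynomial.map_map, mapRingHom_comp] at h1
  have h2 : (IsFractionRing.lift hφ : k →+* E).comp (algebraMap A k) = φ :=
    RingHom.ext fun r => IsFractionRing.lift_algebraMap hφ r
  rw [h2] at h1
  exact h1

/-- `f₀` is the minimal polynomial of `y` over `k(x)` -/
private theorem pm_min {k K : Type} [Field k] [Field K] (G₀ : k[X] →+* K)
    (hG₀ : Function.Injective G₀) (y : K) (f₀ : k[X][X]) (hm : f₀.Monic) (hirr : Irreducible f₀)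
    (hf₀y : f₀.eval₂ G₀ y = 0) (r : k[X][X]) (hr : r.eval₂ G₀ y = 0)
    (hdeg : r.degree < f₀.degree) : r = 0 := by
  let ψ : FractionRing k[X] →+* K := IsFractionRing.lift hG₀
  have hψ : ψ.comp (algebraMap k[X] (FractionRing k[X])) = G₀ :=
    RingHom.ext fun r => IsFractionRing.lift_algebraMap hG₀ r
  let _ := ψ.toAlgebra
  have h1 : ∀ q : k[X][X], aeval y (q.map (algebraMap k[X] (FractionRing k[X]))) =
      q.eval₂ G₀ y := by
    intro q
    rw [aeval_def, eval₂_map, ← hψ]
    rfl
  have h2 : f₀.map (algebraMap k[X] (FractionRing k[X])) =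
      minpoly (FractionRing k[X]) y :=
    minpoly.eq_of_irreducible_of_monic
      (hm.irreducible_iff_irreducible_map_fraction_map.1 hirr) (by rw [h1, hf₀y])
      (hm.map _)
  have h3 : r.map (algebraMap k[X] (FractionRing k[X])) = 0 := by
    by_contra h4
    have h5 := minpoly.degree_le_of_ne_zero (FractionRing k[X]) y h4 (by rw [h1, hr])
    rw [← h2, degree_map_eq_of_injective (IsFractionRing.injective _ _),
      degree_map_eq_of_injective (IsFractionRing.injective _ _)] at h5
    exact absurd h5 (not_le.2 hdeg)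
  exact (Polynomial.map_eq_zero_iff (IsFractionRing.injective _ _)).1 h3

private theorem pm_theta {A k K : Type} [CommRing A] [IsDomain A] [Field k] [Algebra A k]
    [IsFractionRing A k] [Field K] [Algebra k K] (x y : K) (hx : Transcendental k x)
    (f₀ : k[X][X]) (hm : f₀.Monic) (hirr : Irreducible f₀)
    (hf₀y : f₀.eval₂ (eval₂RingHom (algebraMap k K) x) y = 0)
    (htop : IntermediateField.adjoin k {x, y} = ⊤) (f : A[X][X]) (hfm : f.Monic)
    (hf₀ : f.map (mapRingHom (algebraMap A k)) = f₀) :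
    ∃ θ : AdjoinRoot f →+* K, Function.Injective θ ∧
      (∀ a : A, θ (AdjoinRoot.of f (C a)) = algebraMap k K (algebraMap A k a)) ∧
      ∀ z : K, z ∈ Subfield.closure (Set.range θ) := by
  let G₀ : k[X] →+* K := eval₂RingHom (algebraMap k K) x
  have hG₀ : Function.Injective G₀ := transcendental_iff_injective.1 hx
  let g : A[X] →+* K := G₀.comp (mapRingHom (algebraMap A k))
  have hg : ∀ q : A[X][X], q.eval₂ g y = (q.map (mapRingHom (algebraMap A k))).eval₂ G₀ y := by
    intro q
    rw [eval₂_map]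
  have hmapinj : Function.Injective (mapRingHom (algebraMap A k)) :=
    Polynomial.map_injective _ (IsFractionRing.injective A k)
  let θ : AdjoinRoot f →+* K := AdjoinRoot.lift g y (by rw [hg, hf₀, hf₀y])
  have hθ : Function.Injective θ := by
    rw [injective_iff_map_eq_zero]
    intro z hz
    obtain ⟨P, rfl⟩ := AdjoinRoot.mk_surjective z
    have h1 : AdjoinRoot.mk f P = AdjoinRoot.mk f (P %ₘ f) := by
      rw [AdjoinRoot.mk_eq_mk]
      exact ⟨P /ₘ f, by
        have := modByMonic_add_div P f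
        linear_combination -this⟩
    rw [h1] at hz ⊢
    have h2 : (P %ₘ f).eval₂ g y = 0 := by
      rw [← hz]
      exact (AdjoinRoot.lift_mk _ _).symm
    rw [hg] at h2
    have h3 := pm_min G₀ hG₀ y f₀ hm hirr hf₀y _ h2 (by
      rw [← hf₀, degree_map_eq_of_injective hmapinj, degree_map_eq_of_injective hmapinj]
      exact degree_modByMonic_lt P hfm)
    have h4 : P %ₘ f = 0 := (Polynomial.map_eq_zero_iff hmapinj).1 h3
    rw [h4, map_zero]
  have hof : ∀ a : A, θ (AdjoinRoot.of f (C a)) = algebraMap k K (algebraMap A k a) := by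
    intro a
    simp only [θ, g, G₀]
    rw [AdjoinRoot.lift_of, RingHom.comp_apply, coe_mapRingHom, map_C, coe_eval₂RingHom, eval₂_C]
  have hofx : θ (AdjoinRoot.of f X) = x := by
    simp only [θ, g, G₀]
    rw [AdjoinRoot.lift_of, RingHom.comp_apply, coe_mapRingHom, map_X, coe_eval₂RingHom, eval₂_X]
  have hofy : θ (AdjoinRoot.root f) = y := AdjoinRoot.lift_root _
  refine ⟨θ, hθ, hof, fun z => ?_⟩
  let F : Subfield K := Subfield.closure (Set.range θ)
  have hF : ∀ w : AdjoinRoot f, θ w ∈ F := fun w => Subfield.subset_closure ⟨w, rfl⟩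
  have hkF : ∀ w : k, algebraMap k K w ∈ F := by
    intro w
    obtain ⟨a, b, hb, rfl⟩ := IsFractionRing.div_surjective A w
    rw [map_div₀, ← hof, ← hof]
    exact div_mem (hF _) (hF _)
  let G : IntermediateField k K := F.toIntermediateField hkF
  have h1 : IntermediateField.adjoin k {x, y} ≤ G := by
    rw [IntermediateField.adjoin_le_iff]
    intro w hw
    rcases hw with hw | hw
    · change w ∈ F
      rw [hw, ← hofx]
      exact hF _
    · rw [Set.mem_singleton_iff] at hw
      change w ∈ F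
      rw [hw, ← hofy]
      exact hF _
  have h2 : z ∈ IntermediateField.adjoin k {x, y} := by
    rw [htop]
    trivial
  exact h1 h2

/-- scaling the roots by a unit -/
private theorem pm_irr {D : Type} [CommRing D] [IsDomain D] {p : D[X]} (hp : Irreducible p)
    {s t : D} (hst : s * t = 1) : Irreducible (scaleRoots p s) := by
  have hts : t * s = 1 := by rw [mul_comm, hst]
  let _ : Invertible t := ⟨s, hst, hts⟩
  have h1 : Irreducible (algEquivCMulXAddC t 0 p) :=
    (MulEquiv.irreducible_iff (algEquivCMulXAddC t (0 : D)).toMulEquiv).2 hp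
  have h2 : scaleRoots p s = C (s ^ p.natDegree) * algEquivCMulXAddC t 0 p := by
    ext i
    rw [coeff_scaleRoots, coeff_C_mul, algEquivCMulXAddC_apply, C_0, add_zero, ← comp_eq_aeval,
      comp_C_mul_X_coeff]
    rcases Nat.lt_or_ge p.natDegree i with hi | hi
    · rw [coeff_eq_zero_of_natDegree_lt hi]
      ring
    · have h3 : s ^ p.natDegree = s ^ (p.natDegree - i) * s ^ i := by
        rw [← pow_add]
        congr 1
        omega
      rw [h3]
      have h4 : s ^ i * t ^ i = 1 := by rw [← mul_pow, hst, one_pow]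
      linear_combination -(p.coeff i * s ^ (p.natDegree - i)) * h4
  rw [h2, irreducible_isUnit_mul]
  · exact h1
  · rw [isUnit_C]
    exact (IsUnit.of_mul_eq_one t hst).pow _

private theorem pm_frac {A K : Type} [CommRing A] [Field K] (k : A →+* K)
    (z : K) (hz : z ∈ Subfield.closure (Set.range k)) : ∃ a b : A, k b ≠ 0 ∧ z * k b = k a := by
  obtain ⟨y, hy, w, hw, e⟩ := Subfield.mem_closure_iff.1 hz
  have hr : Subring.closure (Set.range k) = k.range := by
    rw [← RingHom.coe_range, Subring.closure_eq]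
  rw [hr] at hy hw
  obtain ⟨a, rfl⟩ := hy
  obtain ⟨b, rfl⟩ := hw
  by_cases hb : k b = 0
  · refine ⟨0, 1, by rw [map_one]; exact one_ne_zero, ?_⟩
    rw [← e, hb, div_zero, zero_mul, map_zero]
  · exact ⟨a, b, hb, by rw [← e, div_mul_cancel₀ _ hb]⟩

/-- Proof. Let `F` be the subfield generated by `θ T`. Take `x ∈ L` transcendental over `F`; `L` is
finite over `F(x)` (finitely generated and algebraic). `LW.exists_curve` gives `y` and `f₀ ∈ F[x][Y]`,
`LW.absIrr_of_regular` gives `AbsIrr f₀`. Let `c ∈ T`, `c ≠ 0`, be a common denominator of the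
coefficients of `f₀`; replace `y` by `c y` and `f₀` by `c^deg f₀ (Y / c)`, which has
coefficients in `T`. The kernel of `T[x][Y] → L` is generated by `f` (monic, irreducible over `F`) -/
theorem plane_model {T L : Type} [CommRing T] [IsDomain T] [CharZero T] [Field L] (θ : T →+* L)
    (hθ : Function.Injective θ)
    (hcl : ∀ x : L, IsAlgebraic (Subfield.closure (Set.range θ)) x →
      x ∈ Subfield.closure (Set.range θ))
    (htr : Algebra.trdeg (Subfield.closure (Set.range θ)) L = 1)
    (hfg : ∃ s : Set L, s.Finite ∧ Subfield.closure (Set.range θ ∪ s) = ⊤) :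
    ∃ (f : T[X][X]) (k : AdjoinRoot f →+* L), f.Monic ∧ 0 < f.natDegree ∧ LW.AbsIrr f ∧
      Function.Injective k ∧ (∀ t : T, k (AdjoinRoot.of f (C t)) = θ t) ∧
      ∀ z : L, ∃ a b : AdjoinRoot f, b ≠ 0 ∧ z * k b = k a := by
  classical
  obtain ⟨F, hF⟩ : ∃ F : Subfield L, F = Subfield.closure (Set.range θ) := ⟨_, rfl⟩
  rw [← hF] at hcl htr
  have hθF : ∀ t, θ t ∈ F := fun t => by
    rw [hF]
    exact Subfield.subset_closure ⟨t, rfl⟩
  let _ : Algebra T F := (θ.codRestrict F hθF).toAlgebra
  have hTF : ∀ t : T, algebraMap F L (algebraMap T F t) = θ t := fun t => rfl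
  have hinj : Function.Injective (algebraMap T F) := by
    intro a b h
    exact hθ (by rw [← hTF, ← hTF, h])
  have : FaithfulSMul T F := (faithfulSMul_iff_algebraMap_injective T F).2 hinj
  have hfrac : IsFractionRing T F := by
    refine IsFractionRing.of_field T F fun z => ?_
    obtain ⟨a, b, hb, hab⟩ := pm_frac θ (z : L) (by rw [← hF]; exact z.2)
    refine ⟨a, b, Subtype.ext ?_⟩
    show (z : L) = θ a / θ b
    rw [eq_div_iff hb, hab]
  have hF0 : CharZero F := charZero_of_injective_algebraMap hinj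
  -- the transcendental element
  obtain ⟨s, hs⟩ := exists_isTranscendenceBasis F L
  have hcard := hs.cardinalMk_eq_trdeg
  rw [htr, Cardinal.eq_one_iff_unique] at hcard
  obtain ⟨hsub, ⟨⟨x, hxs⟩⟩⟩ := hcard
  have hx : Transcendental F x := hs.1.transcendental ⟨x, hxs⟩
  have hsx : Set.range (Subtype.val : s → L) = {x} := by
    ext z
    constructor
    · rintro ⟨w, rfl⟩
      rw [Set.mem_singleton_iff, Subsingleton.elim w ⟨x, hxs⟩]
    · intro hz
      rw [Set.mem_singleton_iff] at hz
      exact ⟨⟨x, hxs⟩, hz.symm⟩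
  have halg := hs.isAlgebraic_field
  rw [hsx] at halg
  obtain ⟨u, hu, hutop⟩ := hfg
  have hfd : FiniteDimensional (IntermediateField.adjoin F {x}) L := by
    have : Finite u := hu
    have h1 : FiniteDimensional (IntermediateField.adjoin F {x})
        (IntermediateField.adjoin (IntermediateField.adjoin F {x}) u) :=
      IntermediateField.finiteDimensional_adjoin fun z _ => (halg.isAlgebraic z).isIntegral
    have h2 : IntermediateField.adjoin (IntermediateField.adjoin F {x}) u = ⊤ := by
      rw [eq_top_iff]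
      intro z _
      have h3 : z ∈ Subfield.closure (Set.range θ ∪ u) := by rw [hutop]; exact Subfield.mem_top z
      have h4 : Subfield.closure (Set.range θ ∪ u) ≤
          (IntermediateField.adjoin (IntermediateField.adjoin F {x}) u).toSubfield := by
        rw [Subfield.closure_le]
        rintro w (⟨t, rfl⟩ | hw)
        · have h5 : (algebraMap (IntermediateField.adjoin F {x}) L
              (algebraMap F (IntermediateField.adjoin F {x}) (algebraMap T F t))) = θ t := rfl
          show θ t ∈ IntermediateField.adjoin (IntermediateField.adjoin F {x}) u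
          rw [← h5]
          exact IntermediateField.algebraMap_mem _ _
        · exact IntermediateField.subset_adjoin _ _ hw
      exact h4 h3
    rw [h2] at h1
    exact Module.Finite.equiv (IntermediateField.topEquiv
      (F := IntermediateField.adjoin F {x}) (E := L)).toLinearEquiv
  obtain ⟨y₁, f₁, hm₁, hpos₁, hirr₁, hxy₁, htop₁⟩ := LW.exists_curve x hx
  have hf₁y : f₁.eval₂ (eval₂RingHom (algebraMap F L) x) y₁ = 0 := by
    have h1 := eval₂RingHom_eval₂RingHom (algebraMap F L) x y₁
    have h2 := RingHom.congr_fun h1 f₁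
    rw [RingHom.comp_apply, coe_mapRingHom, coe_evalEvalRingHom, hxy₁] at h2
    exact h2
  -- the denominator
  obtain ⟨⟨c, hc⟩, hcf⟩ := IsLocalization.exist_integer_multiples_of_finset (nonZeroDivisors T)
    (f₁.coeffs.biUnion fun q => q.coeffs : Finset F)
  have hc0 : c ≠ 0 := nonZeroDivisors.ne_zero hc
  have hcF : algebraMap T F c ≠ 0 := fun h => hc0 (hinj (by rw [h, map_zero]))
  have hint : ∀ i j, algebraMap T F c * (f₁.coeff i).coeff j ∈ Set.range (algebraMap T F) := by
    intro i j
    by_cases h0 : (f₁.coeff i).coeff j = 0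
    · exact ⟨0, by rw [map_zero, h0, mul_zero]⟩
    · have h1 : f₁.coeff i ≠ 0 := by
        intro h1
        rw [h1, coeff_zero] at h0
        exact h0 rfl
      have h2 : (f₁.coeff i).coeff j ∈ f₁.coeffs.biUnion fun q => q.coeffs := by
        rw [Finset.mem_biUnion]
        exact ⟨f₁.coeff i, coeff_mem_coeffs h1, coeff_mem_coeffs h0⟩
      obtain ⟨r, hr⟩ := hcf _ h2
      refine ⟨r, ?_⟩
      rw [hr, Algebra.smul_def]
  obtain ⟨f₀, hf₀⟩ : ∃ f₀ : F[X][X], f₀ = scaleRoots f₁ (C (algebraMap T F c)) := ⟨_, rfl⟩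
  obtain ⟨y, hy⟩ : ∃ y : L, y = θ c * y₁ := ⟨_, rfl⟩
  have hm₀ : f₀.Monic := by rw [hf₀]; exact (monic_scaleRoots_iff _).2 hm₁
  have hdeg₀ : f₀.natDegree = f₁.natDegree := by rw [hf₀, natDegree_scaleRoots]
  have hirr₀ : Irreducible f₀ := by
    rw [hf₀]
    exact pm_irr hirr₁ (t := C (algebraMap T F c)⁻¹) (by
      rw [← C_mul, mul_inv_cancel₀ hcF, C_1])
  have hθc : θ c ≠ 0 := fun h => hc0 (hθ (by rw [h, map_zero]))
  have hf₀y : f₀.eval₂ (eval₂RingHom (algebraMap F L) x) y = 0 := by
    have h1 := scaleRoots_eval₂_mul (p := f₁) (eval₂RingHom (algebraMap F L) x) y₁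
      (C (algebraMap T F c))
    rw [hf₁y, mul_zero, coe_eval₂RingHom, eval₂_C, hTF, ← hy, ← hf₀] at h1
    exact h1
  have htop₀ : IntermediateField.adjoin F {x, y} = ⊤ := by
    rw [eq_top_iff, ← htop₁, IntermediateField.adjoin_le_iff]
    intro w hw
    rcases hw with hw | hw
    · rw [hw]
      exact IntermediateField.subset_adjoin _ _ (Or.inl rfl)
    · rw [Set.mem_singleton_iff] at hw
      have h1 : w = (algebraMap F L (algebraMap T F c))⁻¹ * y := by
        rw [hw, hy, hTF, inv_mul_cancel_left₀ hθc]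
      rw [h1]
      exact mul_mem (inv_mem (IntermediateField.algebraMap_mem _ _))
        (IntermediateField.subset_adjoin _ _ (Or.inr rfl))
  have hcoef : ∀ i j, ((f₀.coeff i).coeff j) ∈ Set.range (algebraMap T F) := by
    intro i j
    rw [hf₀, coeff_scaleRoots, ← C_pow, coeff_mul_C]
    rcases lt_trichotomy i f₁.natDegree with hi | hi | hi
    · obtain ⟨r, hr⟩ := hint i j
      refine ⟨r * c ^ (f₁.natDegree - i - 1), ?_⟩
      rw [map_mul, hr, map_pow]
      have h1 : f₁.natDegree - i = (f₁.natDegree - i - 1) + 1 := by omega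
      conv_rhs => rw [h1, pow_succ]
      ring
    · rw [hi, hm₁.coeff_natDegree, Nat.sub_self, pow_zero, mul_one, coeff_one]
      split_ifs
      · exact ⟨1, map_one _⟩
      · exact ⟨0, map_zero _⟩
    · rw [coeff_eq_zero_of_natDegree_lt hi, coeff_zero, zero_mul]
      exact ⟨0, map_zero _⟩
  obtain ⟨f, hff₀, hfdeg, hfm⟩ := pm_lift f₀ hm₀ hcoef
  have habs₀ : LW.AbsIrr f₀ := by
    refine LW.absIrr_of_regular (K := L) (fun a ha => ⟨⟨a, hcl a ha⟩, rfl⟩) x y hx f₀ hm₀ hirr₀ ?_
    have h1 := eval₂RingHom_eval₂RingHom (algebraMap F L) x y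
    have h2 := RingHom.congr_fun h1 f₀
    rw [RingHom.comp_apply, coe_mapRingHom, coe_evalEvalRingHom] at h2
    rw [← h2]
    exact hf₀y
  obtain ⟨k, hk, hkt, hkcl⟩ := pm_theta x y hx f₀ hm₀ hirr₀ hf₀y htop₀ f hfm hff₀
  refine ⟨f, k, hfm, by rw [hfdeg, hdeg₀]; exact hpos₁, pm_abs f₀ f hff₀ habs₀, hk,
    fun t => by rw [hkt, hTF], fun z => ?_⟩
  obtain ⟨a, b, hb, hab⟩ := pm_frac k z (hkcl z)
  exact ⟨a, b, fun h => hb (by rw [h, map_zero]), hab⟩

end Pool.Agent.Lib.MP_1a0ddd_nt.Nc
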