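import Pool.Agent.Lib.MP_1a0ddd_nt.Nc.Loc
import Pool.Agent.Lib.MP_1a0ddd_nt.Nc.KMod
import Pool.Agent.Lib.MP_1a0ddd_nt.Nc.Plane
import Pool.Agent.Lib.MP_1a0ddd_nt.LW.BNoe

/-! Open subsets of a family of curves with irreducible fibres over prime divisors. -/

set_option autoImplicit false

namespace Pool.Agent.Lib.MP_1a0ddd_nt.Nc

open Polynomial Pool.Agent.Lib.MP_1a0ddd_nt.Cn Pool.Agent.Lib.MP_1a0ddd_nt.Fb Un

variable {R T S : Type} [CommRing R] [CommRing T] [CommRing S] [Algebra R T] [Algebra R S]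

private theorem shr_unit (φ : T →ₐ[R] S) (b : T) (g : S) :
    IsUnit (((algebraMap S (Localization.Away (g * φ b))).comp (φ : T →+* S)) b) := by
  have h1 : IsUnit (algebraMap S (Localization.Away (g * φ b)) (g * φ b)) :=
    IsLocalization.Away.algebraMap_isUnit (g * φ b)
  rw [map_mul] at h1
  exact isUnit_of_mul_isUnit_right h1

/-- the family over the open subset `b ≠ 0` of `Spec T`, without `g = 0` -/
noncomputable def shr (φ : T →ₐ[R] S) (b : T) (g : S) :
    Localization.Away b →ₐ[R] Localization.Away (g * φ b) :=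
  { IsLocalization.Away.lift (S := Localization.Away b) b (shr_unit φ b g) with
    commutes' := fun r => by
      rw [IsScalarTower.algebraMap_apply R T (Localization.Away b)]
      refine (IsLocalization.Away.lift_eq (S := Localization.Away b) b (shr_unit φ b g) _).trans ?_
      rw [IsScalarTower.algebraMap_apply R S (Localization.Away (g * φ b))]
      exact congrArg (algebraMap S (Localization.Away (g * φ b))) (φ.commutes r) }

theorem shr_apply (φ : T →ₐ[R] S) (b : T) (g : S) (t : T) :
    shr φ b g (algebraMap T (Localization.Away b) t) = algebraMap S _ (φ t) :=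
  IsLocalization.Away.lift_eq (S := Localization.Away b) b (shr_unit φ b g) t

section Loc

variable {A B L : Type} [CommRing A] [CommRing B] [Field L] [Algebra R A] [Algebra R B]
  [Algebra R L]

private theorem shr_map (j : A →ₐ[R] L) (a x : A) : j x ∈ loc j a :=
  Algebra.subset_adjoin (Or.inl ⟨x, rfl⟩)

private theorem shr_inv (j : A →ₐ[R] L) (a : A) : (j a)⁻¹ ∈ loc j a :=
  Algebra.subset_adjoin (Or.inr rfl)

private theorem shr_le (j : A →ₐ[R] L) {a : A} {S : Subalgebra R L} (h1 : ∀ x : A, j x ∈ S)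
    (h2 : (j a)⁻¹ ∈ S) : loc j a ≤ S := by
  rw [loc, Algebra.adjoin_le_iff]
  rintro x (⟨r, rfl⟩ | hx)
  · exact h1 r
  · rw [Set.mem_singleton_iff.1 hx]
    exact h2

private theorem shr_fac (j : A →ₐ[R] L) {a c : A} (h : j (a * c) ≠ 0) :
    (j a)⁻¹ ∈ loc j (a * c) := by
  rw [map_mul] at h
  have hb : j c ≠ 0 := right_ne_zero_of_mul h
  have h1 : (j a)⁻¹ = j c * (j (a * c))⁻¹ := by
    rw [map_mul, mul_inv, mul_comm (j a)⁻¹, ← mul_assoc, mul_inv_cancel₀ hb, one_mul]
  rw [h1]
  exact (loc j (a * c)).mul_mem (shr_map j _ c) (shr_inv j _)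

private theorem shr_fac' (j : A →ₐ[R] L) {a c : A} (h : j (a * c) ≠ 0) :
    (j c)⁻¹ ∈ loc j (a * c) := by
  rw [mul_comm] at h ⊢
  exact shr_fac j h

private theorem shr_loc_le (j : A →ₐ[R] L) (k : B →ₐ[R] L) {a c : A} {b d : B}
    (h : loc j a ≤ loc k b) (hcd : j c = k d) (hkb : k (b * d) ≠ 0) :
    loc j (a * c) ≤ loc k (b * d) := by
  have hm : loc k b ≤ loc k (b * d) := shr_le k (fun x => shr_map k _ x) (shr_fac k hkb)
  refine shr_le j (fun x => hm (h (shr_map j a x))) ?_
  rw [map_mul, mul_inv, hcd]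
  exact (loc k (b * d)).mul_mem (hm (h (shr_inv j a))) (shr_fac' k hkb)

private theorem shr_loc (j : A →ₐ[R] L) (k : B →ₐ[R] L) {a c : A} {b d : B}
    (h : loc j a = loc k b) (hcd : j c = k d) (hja : j (a * c) ≠ 0) (hkb : k (b * d) ≠ 0) :
    loc j (a * c) = loc k (b * d) :=
  le_antisymm (shr_loc_le j k h.le hcd hkb) (shr_loc_le k j h.ge hcd.symm hja)

private theorem shr_iso (j : A →ₐ[R] L) (k : B →ₐ[R] L) (hj : Function.Injective j)
    (hk : Function.Injective k) {a : A} {b : B} (ha : a ≠ 0) (hb : b ≠ 0)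
    (h : loc j a = loc k b) : ∃ Φ : Localization.Away a ≃ₐ[R] Localization.Away b,
      ∀ (x : A) (y : B), j x = k y →
        Φ (algebraMap A (Localization.Away a) x) = algebraMap B (Localization.Away b) y := by
  obtain ⟨e₁, he₁⟩ := loc_equiv j hj ha
  obtain ⟨e₂, he₂⟩ : ∃ e₂ : Localization.Away b ≃ₐ[R] loc j a,
      ∀ y : B, (e₂ (algebraMap B (Localization.Away b) y) : L) = k y := by
    rw [h]
    exact loc_equiv k hk hb
  refine ⟨e₁.trans e₂.symm, fun x y e => ?_⟩
  have h1 : e₁ (algebraMap A (Localization.Away a) x) =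
      e₂ (algebraMap B (Localization.Away b) y) := Subtype.ext (by rw [he₁, he₂, e])
  rw [AlgEquiv.trans_apply, h1, AlgEquiv.symm_apply_apply]

end Loc

/-- common denominators -/
private theorem shr_den {T P : Type} [CommRing T] [CommRing P] (ρ : T →+* P) (M : Submonoid T)
    (hM : ∀ x : P, ∃ (t c : T), c ∈ M ∧ x * ρ c = ρ t) (α : P[X]) :
    ∃ (α' : T[X]) (c : T), c ∈ M ∧ α * C (ρ c) = α'.map ρ := by
  induction α using Polynomial.induction_on' with
  | add p q hp hq =>
    obtain ⟨p', r, hr, e⟩ := hp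
    obtain ⟨q', r', hr', e'⟩ := hq
    refine ⟨p' * C r' + q' * C r, r * r', M.mul_mem hr hr', ?_⟩
    rw [Polynomial.map_add, Polynomial.map_mul, Polynomial.map_mul, ← e, ← e', map_C, map_C,
      map_mul, C_mul]
    ring
  | monomial n o =>
    obtain ⟨s, r, hr, e⟩ := hM o
    refine ⟨monomial n s, r, hr, ?_⟩
    rw [map_monomial, ← e, monomial_mul_C]

private theorem shr_mk {T P : Type} [CommRing T] [CommRing P] (ρ : T →+* P) (f : T[X][X])
    (p : T[X][X]) : bc ρ f (AdjoinRoot.mk f p) =
      AdjoinRoot.mk (f.map (mapRingHom ρ)) (p.map (mapRingHom ρ)) := by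
  unfold bc AdjoinRoot.map
  rw [AdjoinRoot.lift_mk, ← eval₂_map, ← AdjoinRoot.aeval_eq]
  rfl

private theorem shr_of {T P : Type} [CommRing T] [CommRing P] (ρ : T →+* P) (f : T[X][X])
    (t : T) : bc ρ f (AdjoinRoot.of f (C t)) =
      AdjoinRoot.of (f.map (mapRingHom ρ)) (C (ρ t)) := by
  unfold bc
  rw [AdjoinRoot.map_of, coe_mapRingHom, map_C]

private theorem shr_den2 {T P : Type} [CommRing T] [CommRing P] (ρ : T →+* P) (M : Submonoid T)
    (hM : ∀ x : P, ∃ (t c : T), c ∈ M ∧ x * ρ c = ρ t) (f : T[X][X])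
    (o : AdjoinRoot (f.map (mapRingHom ρ))) :
    ∃ (s : AdjoinRoot f) (c : T), c ∈ M ∧ o * bc ρ f (AdjoinRoot.of f (C c)) = bc ρ f s := by
  obtain ⟨p, rfl⟩ := AdjoinRoot.mk_surjective o
  obtain ⟨α, c', hc', e⟩ := shr_den (mapRingHom ρ) (M.map (C : T →+* T[X])) (fun x => by
    obtain ⟨t, c, hc, e⟩ := shr_den ρ M hM x
    exact ⟨t, C c, ⟨c, hc, rfl⟩, by rw [coe_mapRingHom, map_C, e]⟩) p
  obtain ⟨c, hc, rfl⟩ := hc'
  refine ⟨AdjoinRoot.mk f α, c, hc, ?_⟩
  rw [shr_mk, ← e, map_mul, shr_of, AdjoinRoot.mk_C]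
  congr 2
  rw [coe_mapRingHom]
  exact (map_C ρ).symm

/-- the localisation of `AdjoinRoot f` at `g`, a multiple of `b`, and its base change -/
private theorem shr_km {R T P : Type} [CommRing R] [IsDomain R] [CommRing T] [Algebra R T]
    [CommRing P] {ρ : T →+* P} {κ : FractionRing R →+* P} (hρ : Function.Injective ρ)
    (hc : ∀ r : R, κ (algebraMap R (FractionRing R) r) = ρ (algebraMap R T r)) (b : T)
    (hs : ∀ x : P, ∃ (t : T) (r : R) (n : ℕ), r ≠ 0 ∧ x * ρ (algebraMap R T r * b ^ n) = ρ t)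
    {f : T[X][X]} (hm : f.Monic) [IsDomain (AdjoinRoot f)] {g : AdjoinRoot f} (hg : g ≠ 0)
    (hbg : AdjoinRoot.of f (C b) ∣ g) : KModel R (Localization.awayMap (bc ρ f) g)
      ((algebraMap (AdjoinRoot (f.map (mapRingHom ρ))) (Localization.Away (bc ρ f g))).comp
        ((AdjoinRoot.of (f.map (mapRingHom ρ))).comp (C.comp κ))) := by
  have hbi := bc_injective hρ hm
  obtain ⟨A, hA⟩ : ∃ A : AdjoinRoot f →+* Localization.Away g,
    A = algebraMap (AdjoinRoot f) (Localization.Away g) := ⟨_, rfl⟩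
  obtain ⟨A', hA'⟩ : ∃ A' : AdjoinRoot (f.map (mapRingHom ρ)) →+* Localization.Away (bc ρ f g),
    A' = algebraMap _ (Localization.Away (bc ρ f g)) := ⟨_, rfl⟩
  have hgu : IsUnit (A g) := by
    rw [hA]
    exact IsLocalization.Away.algebraMap_isUnit (S := Localization.Away g) g
  have hj' : ∀ s : AdjoinRoot f, Localization.awayMap (bc ρ f) g (A s) = A' (bc ρ f s) := by
    intro s
    rw [hA, hA']
    exact IsLocalization.map_eq _ s
  have hker : ∀ s : AdjoinRoot f, A' (bc ρ f s) = 0 → s = 0 := by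
    intro s hs
    rw [hA'] at hs
    obtain ⟨⟨_, m, rfl⟩, h1⟩ := (IsLocalization.map_eq_zero_iff (Submonoid.powers (bc ρ f g))
      (Localization.Away (bc ρ f g)) _).1 hs
    have h2 : bc ρ f (g ^ m * s) = 0 := by
      rw [map_mul, map_pow]
      exact h1
    have h3 : g ^ m * s = 0 := hbi (by rw [h2, map_zero])
    exact (mul_eq_zero.1 h3).resolve_left (pow_ne_zero m hg)
  have hal : ∀ r : R, algebraMap R (Localization.Away g) r =
      A (AdjoinRoot.of f (C (algebraMap R T r))) := by
    intro r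
    rw [hA, IsScalarTower.algebraMap_apply R (AdjoinRoot f) (Localization.Away g)]
    rfl
  refine ⟨?_, fun r => ?_, fun o => ?_⟩
  · rw [injective_iff_map_eq_zero]
    intro x hx
    obtain ⟨n, s, h⟩ := IsLocalization.Away.surj g x
    have h' : x * A g ^ n = A s := by
      rw [hA]
      exact h
    have h1 := congrArg (Localization.awayMap (bc ρ f) g) h'
    rw [map_mul, hx, zero_mul, hj'] at h1
    have h2 : s = 0 := hker s h1.symm
    rw [h2, map_zero] at h'
    exact ((hgu.pow n).mul_left_eq_zero).1 h'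
  · rw [hal, hj', shr_of, RingHom.comp_apply, RingHom.comp_apply, RingHom.comp_apply, hc, hA']
  · obtain ⟨n, o₁, h⟩ := IsLocalization.Away.surj (bc ρ f g) o
    have h' : o * A' (bc ρ f g) ^ n = A' o₁ := by
      rw [hA']
      exact h
    obtain ⟨s, c, ⟨r, hr, m, hcr⟩, hsc⟩ := shr_den2 ρ
      { carrier := {c : T | ∃ r : R, r ≠ 0 ∧ ∃ n : ℕ, c = algebraMap R T r * b ^ n}
        one_mem' := ⟨1, one_ne_zero, 0, by rw [map_one, pow_zero, mul_one]⟩
        mul_mem' := by
          rintro x y ⟨r, hr, n, rfl⟩ ⟨r', hr', n', rfl⟩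
          exact ⟨r * r', mul_ne_zero hr hr', n + n', by rw [map_mul, pow_add]; ring⟩ }
      (fun x => by
        obtain ⟨t, r, n, hr, e⟩ := hs x
        exact ⟨t, _, ⟨r, hr, n, rfl⟩, e⟩) f o₁
    have hbu : IsUnit (A (AdjoinRoot.of f (C b))) := isUnit_of_dvd_unit (map_dvd A hbg) hgu
    refine ⟨A s * (↑(hgu.unit⁻¹) : Localization.Away g) ^ n *
      (↑(hbu.unit⁻¹) : Localization.Away g) ^ m, r, hr, ?_⟩
    obtain ⟨K, hK⟩ : ∃ K : Localization.Away g →+* Localization.Away (bc ρ f g),
      K = Localization.awayMap (bc ρ f) g := ⟨_, rfl⟩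
    rw [← hK] at hj' ⊢
    have e2 : A' (bc ρ f g) * K (↑(hgu.unit⁻¹) : Localization.Away g) = 1 := by
      rw [← hj', ← map_mul]
      have : A g * (↑(hgu.unit⁻¹) : Localization.Away g) = 1 := hgu.mul_val_inv
      rw [this, map_one]
    have e3 : A' (bc ρ f g) ^ n * K (↑(hgu.unit⁻¹) : Localization.Away g) ^ n = 1 := by
      rw [← mul_pow, e2, one_pow]
    have e4 : A' (bc ρ f (AdjoinRoot.of f (C b))) *
        K (↑(hbu.unit⁻¹) : Localization.Away g) = 1 := by
      rw [← hj', ← map_mul]
      have : A (AdjoinRoot.of f (C b)) * (↑(hbu.unit⁻¹) : Localization.Away g) = 1 :=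
        hbu.mul_val_inv
      rw [this, map_one]
    have e5 : A' (bc ρ f (AdjoinRoot.of f (C b))) ^ m *
        K (↑(hbu.unit⁻¹) : Localization.Away g) ^ m = 1 := by
      rw [← mul_pow, e4, one_pow]
    have e6 : A' (bc ρ f (AdjoinRoot.of f (C c))) =
        A' (bc ρ f (AdjoinRoot.of f (C (algebraMap R T r)))) *
          A' (bc ρ f (AdjoinRoot.of f (C b))) ^ m := by
      rw [hcr, C_mul, C_pow, map_mul, map_pow, map_mul, map_pow, map_mul, map_pow]
    have e7 : A' o₁ * A' (bc ρ f (AdjoinRoot.of f (C c))) = A' (bc ρ f s) := by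
      rw [← map_mul, hsc]
    rw [hal, hj', map_mul, map_mul, map_pow, map_pow, hj', ← e7, e6, ← h']
    linear_combination (-(o * A' (bc ρ f (AdjoinRoot.of f (C (algebraMap R T r)))))) * e3 -
      o * A' (bc ρ f (AdjoinRoot.of f (C (algebraMap R T r)))) * A' (bc ρ f g) ^ n *
        K (↑(hgu.unit⁻¹) : Localization.Away g) ^ n * e5

/-- transport of a model -/
private theorem shr_trans {R S S' O : Type} [CommRing R] [IsDomain R] [CommRing S] [CommRing S']
    [Algebra R S] [Algebra R S'] [CommRing O] {j : S →+* O} {κ : FractionRing R →+* O}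
    (hj : KModel R j κ) (e : S' ≃ₐ[R] S) : KModel R (j.comp (e : S' →+* S)) κ := by
  have he : ∀ x, (e : S' →+* S) x = e x := fun _ => rfl
  refine ⟨hj.inj.comp e.injective, fun r => ?_, fun o => ?_⟩
  · rw [RingHom.comp_apply, he, e.commutes, hj.comp]
  · obtain ⟨s, r, hr, h⟩ := hj.surj o
    refine ⟨e.symm s, r, hr, ?_⟩
    rw [RingHom.comp_apply, RingHom.comp_apply, he, he, e.commutes, e.apply_symm_apply, h]

private theorem shr_alg {R T : Type} [CommRing R] [CommRing T] [Algebra R T] (f : T[X][X])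
    (r : R) : algebraMap R (AdjoinRoot f) r = AdjoinRoot.of f (C (algebraMap R T r)) := rfl

private theorem shr_ft {R T : Type} [CommRing R] [CommRing T] [Algebra R T]
    (hT : Algebra.FiniteType R T) (f : T[X][X]) : Algebra.FiniteType R (AdjoinRoot f) := by
  have hT1 : Algebra.FiniteType R T[X] := Algebra.FiniteType.trans (S := T) hT inferInstance
  have hT2 : Algebra.FiniteType R T[X][X] :=
    Algebra.FiniteType.trans (S := T[X]) hT1 inferInstance
  let π : T[X][X] →ₐ[R] AdjoinRoot f := { AdjoinRoot.mk f with commutes' := fun r => rfl }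
  exact Algebra.FiniteType.of_surjective π AdjoinRoot.mk_surjective

private theorem shr_hom {R T L : Type} [CommRing R] [CommRing T] [Algebra R T] [Field L]
    [Algebra R L] {f : T[X][X]} (k : AdjoinRoot f →+* L)
    (h : ∀ r : R, k (AdjoinRoot.of f (C (algebraMap R T r))) = algebraMap R L r) :
    ∃ k' : AdjoinRoot f →ₐ[R] L, ∀ x, k' x = k x :=
  ⟨{ k with
      commutes' := fun r => by
        rw [shr_alg]
        exact h r }, fun _ => rfl⟩

/-- the fibres of `shr` on models -/
private theorem shr_fin [IsDomain R] [IsDomain T] [IsDomain S]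
    (hi : Function.Injective (algebraMap R T)) (φ : T →ₐ[R] S) (hφ : Function.Injective φ)
    {b : T} {g : S} (hb : b ≠ 0) (hS0 : g * φ b ≠ 0) {P Q : Type} [CommRing P] [CommRing Q]
    {j : Localization.Away b →+* P} {κ : FractionRing R →+* P} (hj : KModel R j κ)
    {k : Localization.Away (g * φ b) →+* Q} {κ' : FractionRing R →+* Q} (hk : KModel R k κ')
    (ι : P →+* Q) (hι : ∀ t : T, ι (j (algebraMap T (Localization.Away b) t)) =
      k (algebraMap S (Localization.Away (g * φ b)) (φ t))) (h : IrrOver ι 1) :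
    IrrOver (baseK (shr φ b g)) 1 := by
  have hdT : IsDomain (Localization.Away b) :=
    IsLocalization.isDomain_localization (powers_le_nonZeroDivisors_of_noZeroDivisors hb)
  have hdS : IsDomain (Localization.Away (g * φ b)) :=
    IsLocalization.isDomain_localization (powers_le_nonZeroDivisors_of_noZeroDivisors hS0)
  have hTbi : Function.Injective (algebraMap T (Localization.Away b)) :=
    IsLocalization.injective _ (powers_le_nonZeroDivisors_of_noZeroDivisors hb)
  have hSbi : Function.Injective (algebraMap S (Localization.Away (g * φ b))) :=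
    IsLocalization.injective _ (powers_le_nonZeroDivisors_of_noZeroDivisors hS0)
  have hRT : Function.Injective (algebraMap R (Localization.Away b)) := by
    rw [IsScalarTower.algebraMap_eq R T (Localization.Away b)]
    exact hTbi.comp hi
  have hRS' : Function.Injective (algebraMap R S) := fun x y e =>
    hi (hφ (by rw [φ.commutes, φ.commutes, e]))
  have hRS : Function.Injective (algebraMap R (Localization.Away (g * φ b))) := by
    rw [IsScalarTower.algebraMap_eq R S (Localization.Away (g * φ b))]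
    exact hSbi.comp hRS'
  refine irr_model hRT hRS (shr φ b g) hj hk ι (fun x => ?_) h
  have h1 : ι.comp j = k.comp (shr φ b g : Localization.Away b →+* Localization.Away (g * φ b)) :=
    IsLocalization.ringHom_ext (Submonoid.powers b) (RingHom.ext fun t => by
      have h3 : ((shr φ b g : Localization.Away b →+* Localization.Away (g * φ b))
          (algebraMap T (Localization.Away b) t)) =
          algebraMap S (Localization.Away (g * φ b)) (φ t) := shr_apply φ b g t
      rw [RingHom.comp_apply, RingHom.comp_apply, RingHom.comp_apply, RingHom.comp_apply, h3]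
      exact hι t)
  exact RingHom.congr_fun h1 x

/-- the part over the fraction field of `R` -/
private theorem shr_gen [IsDomain R] [IsDomain T] [IsDomain S]
    (hi : Function.Injective (algebraMap R T)) (φ : T →ₐ[R] S) (hφ : Function.Injective φ)
    {b : T} {g : S} (hb : b ≠ 0) (hS0 : g * φ b ≠ 0) {f : T[X][X]} (hm : f.Monic)
    (hd : 0 < f.natDegree) [IsDomain (AdjoinRoot f)] {h : T}
    (hh : ∀ (E : Type) [Field E] (φ : T →+* E), φ h ≠ 0 → Irreducible (f.map (mapRingHom φ)))
    {b' c : AdjoinRoot f} {β : T}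
    (hβ : ∀ (P : Type) [CommRing P] (ρ : T →+* P) (π : P),
      AdjoinRoot.of (f.map (mapRingHom ρ)) (C π) ∣ bc ρ f b' → π ∣ ρ β)
    (hdvd : h * β ∣ b) (hc : c = AdjoinRoot.of f (C b)) (hG0 : b' * c ≠ 0)
    (Φ : Localization.Away (g * φ b) ≃ₐ[R] Localization.Away (b' * c))
    (hΦt : ∀ t : T, Φ (algebraMap S (Localization.Away (g * φ b)) (φ t)) =
      algebraMap (AdjoinRoot f) (Localization.Away (b' * c)) (AdjoinRoot.of f (C t)))
    (hufd : UniqueFactorizationMonoid (Gen (algebraMap R (Localization.Away b)))) :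
    IrrOver (baseK (shr φ b g)) 1 := by
  have hdT : IsDomain (Localization.Away b) :=
    IsLocalization.isDomain_localization (powers_le_nonZeroDivisors_of_noZeroDivisors hb)
  have hTbi : Function.Injective (algebraMap T (Localization.Away b)) :=
    IsLocalization.injective _ (powers_le_nonZeroDivisors_of_noZeroDivisors hb)
  have hRT : Function.Injective (algebraMap R (Localization.Away b)) := by
    rw [IsScalarTower.algebraMap_eq R T (Localization.Away b)]
    exact hTbi.comp hi
  have hkm := kmodel_gen (R := R) (S := Localization.Away b) hRT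
  have hdP : IsDomain (Gen (algebraMap R (Localization.Away b))) := kmodel_domain hkm
  obtain ⟨ρ, hρ⟩ : ∃ ρ : T →+* Gen (algebraMap R (Localization.Away b)),
      ∀ t, ρ t = toGen (algebraMap R (Localization.Away b))
        (algebraMap T (Localization.Away b) t) :=
    ⟨(toGen (algebraMap R (Localization.Away b))).comp (algebraMap T (Localization.Away b)),
      fun _ => rfl⟩
  have hρi : Function.Injective ρ := by
    intro x y e
    rw [hρ, hρ] at e
    exact hTbi (hkm.inj e)
  have hρb : IsUnit (ρ b) := by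
    rw [hρ]
    exact (IsLocalization.Away.algebraMap_isUnit (S := Localization.Away b) b).map _
  have hρh : IsUnit (ρ h) :=
    isUnit_of_dvd_unit (map_dvd ρ ((dvd_mul_right h β).trans hdvd)) hρb
  have hρβ : IsUnit (ρ β) :=
    isUnit_of_dvd_unit (map_dvd ρ ((dvd_mul_left β h).trans hdvd)) hρb
  have hirr := irr_away ρ hm hd hh hρh (g := b' * c) (β := β) (fun π hπ => by
    refine hβ _ ρ π ?_
    rw [map_mul, hc, shr_of] at hπ
    have hu : IsUnit (AdjoinRoot.of (f.map (mapRingHom ρ)) (C (ρ b))) :=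
      (hρb.map C).map (AdjoinRoot.of (f.map (mapRingHom ρ)))
    exact hu.dvd_mul_right.1 hπ) hρβ
  have hcr : ∀ r : R, Fb.cst (algebraMap R (Localization.Away b))
      (algebraMap R (FractionRing R) r) = ρ (algebraMap R T r) := by
    intro r
    rw [hρ, hkm.comp, IsScalarTower.algebraMap_apply R T (Localization.Away b)]
  have hsu : ∀ x : Gen (algebraMap R (Localization.Away b)), ∃ (t : T) (r : R) (n : ℕ), r ≠ 0 ∧
      x * ρ (algebraMap R T r * b ^ n) = ρ t := by
    intro x
    obtain ⟨s, r, hr, e⟩ := hkm.surj x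
    obtain ⟨n, t, ht⟩ := IsLocalization.Away.surj b s
    refine ⟨t, r, n, hr, ?_⟩
    rw [hρ, hρ, ← ht, map_mul, map_mul, map_mul,
      ← IsScalarTower.algebraMap_apply R T (Localization.Away b), ← e, map_pow]
    ring
  have hk₂ := shr_km hρi hcr b hsu hm hG0 (by rw [hc]; exact dvd_mul_left _ _)
  have hk₁ := shr_trans hk₂ Φ
  refine shr_fin hi φ hφ hb hS0 hkm hk₁ _ (fun t => ?_) hirr
  have h2 : Localization.awayMap (bc ρ f) (b' * c)
      (algebraMap (AdjoinRoot f) (Localization.Away (b' * c)) (AdjoinRoot.of f (C t))) =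
      algebraMap _ (Localization.Away (bc ρ f (b' * c))) (bc ρ f (AdjoinRoot.of f (C t))) :=
    IsLocalization.map_eq _ _
  have h4 : (Φ : Localization.Away (g * φ b) →+* Localization.Away (b' * c))
      (algebraMap S (Localization.Away (g * φ b)) (φ t)) =
      algebraMap (AdjoinRoot f) (Localization.Away (b' * c)) (AdjoinRoot.of f (C t)) := hΦt t
  have h5 : (Localization.awayMap (bc ρ f) (b' * c)).comp
      (Φ : Localization.Away (g * φ b) →+* Localization.Away (b' * c))
        (algebraMap S (Localization.Away (g * φ b)) (φ t)) =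
      algebraMap _ (Localization.Away (bc ρ f (b' * c)))
        (AdjoinRoot.of (f.map (mapRingHom ρ)) (C (ρ t))) := by
    rw [RingHom.comp_apply, h4, h2, shr_of]
  exact (congrArg (fun x => algebraMap _ (Localization.Away (bc ρ f (b' * c)))
    (AdjoinRoot.of (f.map (mapRingHom ρ)) (C x))) (hρ t).symm).trans h5.symm

/-- Proof: `f`, `k` from `plane_model` (`θ = toL φ`), `h` from `LW.bertini_noether`. `loc_birat` for
`A = S`, `B = AdjoinRoot f` in `L = FractionRing S` gives `g` (with `g₀ ∣ g`) and `b'` with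
`loc j g = loc k b'`; `β` for `b'` from `adjoin_coeff`; `b₀ = h β`. Let `b₀ ∣ b`; then
`loc j (g * φ b) = loc k (b' * of b)`, so `Localization.Away (g * φ b)` is isomorphic to
`Localization.Away (b' * of b)` over `T`. A model of it is the localisation of `AdjoinRoot f_P`,
`P = Gen (algebraMap R (Localization.Away b))`, by the image of `b' * of b` (`kmodel_bc`,
`kmodel_away`), where `b` is a unit; use `irr_away`, `irr_model` -/
theorem shrink [IsDomain R] [CharZero R] [IsDomain T] [IsDomain S] (hT : Algebra.FiniteType R T)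
    (hS : Algebra.FiniteType R S) (hi : Function.Injective (algebraMap R T)) (φ : T →ₐ[R] S)
    (hφ : Function.Injective φ)
    (hcl : ∀ x : FractionRing S, IsAlgebraic (baseF (φ : T →+* S)) x →
      x ∈ baseF (φ : T →+* S))
    (htr : Algebra.trdeg (baseF (φ : T →+* S)) (FractionRing S) = 1)
    (g₀ : S)
    (h0 : g₀ ≠ 0) : ∃ g : S, g ≠ 0 ∧ g₀ ∣ g ∧ ∃ b₀ : T, b₀ ≠ 0 ∧ ∀ b : T, b ≠ 0 → b₀ ∣ b →
      UniqueFactorizationMonoid (Gen (algebraMap R (Localization.Away b))) →
      IrrOver (baseK (shr φ b g)) 1 := by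
  classical
  have hLi : Function.Injective (algebraMap S (FractionRing S)) := IsFractionRing.injective S _
  have hθ : Function.Injective (toL (φ : T →+* S)) := hLi.comp hφ
  have hT0 : CharZero T := charZero_of_injective_algebraMap hi
  have hfg : ∃ s : Set (FractionRing S), s.Finite ∧
      Subfield.closure (Set.range (toL (φ : T →+* S)) ∪ s) = ⊤ := by
    obtain ⟨G, hG⟩ := hS.out
    refine ⟨algebraMap S (FractionRing S) '' (G : Set S), G.finite_toSet.image _, ?_⟩
    have key : ∀ s : S, algebraMap S (FractionRing S) s ∈ Subfield.closure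
        (Set.range (toL (φ : T →+* S)) ∪ algebraMap S (FractionRing S) '' (G : Set S)) := by
      intro s
      have hs : s ∈ Algebra.adjoin R (G : Set S) := by rw [hG]; trivial
      induction hs using Algebra.adjoin_induction with
      | mem x hx => exact Subfield.subset_closure (Or.inr ⟨x, hx, rfl⟩)
      | algebraMap r =>
        rw [← φ.commutes r]
        exact Subfield.subset_closure (Or.inl ⟨algebraMap R T r, rfl⟩)
      | add x y _ _ hx hy => rw [map_add]; exact add_mem hx hy
      | mul x y _ _ hx hy => rw [map_mul]; exact mul_mem hx hy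
    rw [eq_top_iff]
    intro z _
    obtain ⟨a, d, hd, rfl⟩ := IsFractionRing.div_surjective S z
    exact div_mem (key a) (key d)
  unfold baseF at hcl htr
  obtain ⟨f, k, hm, hd, habs, hk, hkt, hkf⟩ := plane_model (toL (φ : T →+* S)) hθ hcl htr hfg
  obtain ⟨h, hh0, hh⟩ := LW.bertini_noether f hm habs
  -- the two rings in the function field
  obtain ⟨j, hj⟩ : ∃ j : S →ₐ[R] FractionRing S, ∀ s, j s = algebraMap S (FractionRing S) s :=
    ⟨IsScalarTower.toAlgHom R S (FractionRing S), fun _ => rfl⟩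
  obtain ⟨k', hk'⟩ := shr_hom (R := R) k (fun r => by
    rw [hkt, IsScalarTower.algebraMap_apply R S (FractionRing S), ← φ.commutes r]
    rfl)
  have hjinj : Function.Injective j := fun x y e => hLi (by rw [← hj, ← hj, e])
  have hkinj : Function.Injective k' := fun x y e => hk (by rw [← hk', ← hk', e])
  have hB : Algebra.FiniteType R (AdjoinRoot f) := shr_ft hT f
  obtain ⟨g, hg0, hgg, hg⟩ := loc_birat hS hB j k' hjinj hkinj (fun z => by
      obtain ⟨a, d, hd, rfl⟩ := IsFractionRing.div_surjective S z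
      have hd0 : algebraMap S (FractionRing S) d ≠ 0 := fun e =>
        nonZeroDivisors.ne_zero hd (hLi (by rw [e, map_zero]))
      exact ⟨a, d, nonZeroDivisors.ne_zero hd, by rw [hj, hj, div_mul_cancel₀ _ hd0]⟩)
    (fun z => by
      obtain ⟨a, b, hb, e⟩ := hkf z
      exact ⟨a, b, hb, by rw [hk', hk', e]⟩) g₀ h0
  obtain ⟨b', hb'0, hloc⟩ := hg g hg0 dvd_rfl
  obtain ⟨β, hβ0, hβ⟩ := adjoin_coeff hm hb'0
  refine ⟨g, hg0, hgg, h * β, mul_ne_zero hh0 hβ0, fun b hb hdvd hufd => ?_⟩
  have hdA : IsDomain (AdjoinRoot f) := hk.isDomain k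
  obtain ⟨c, hc⟩ : ∃ c : AdjoinRoot f, c = AdjoinRoot.of f (C b) := ⟨_, rfl⟩
  have hkc : k' c = toL (φ : T →+* S) b := by rw [hk', hc, hkt]
  have hc0 : c ≠ 0 := fun e => hb (hθ (by rw [← hkc, e, map_zero, map_zero]))
  have hG0 : b' * c ≠ 0 := mul_ne_zero hb'0 hc0
  have hS0 : g * φ b ≠ 0 := mul_ne_zero hg0 fun e => hb (hφ (by rw [e, map_zero]))
  have hloc' : loc j (g * φ b) = loc k' (b' * c) := by
    refine shr_loc j k' hloc (by rw [hkc, hj]; rfl) (fun e => hS0 (hjinj (by rw [e, map_zero])))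
      (fun e => hG0 (hkinj (by rw [e, map_zero])))
  obtain ⟨Φ, hΦ⟩ := shr_iso j k' hjinj hkinj hS0 hG0 hloc'
  have hΦt : ∀ t : T, Φ (algebraMap S (Localization.Away (g * φ b)) (φ t)) =
      algebraMap (AdjoinRoot f) (Localization.Away (b' * c)) (AdjoinRoot.of f (C t)) :=
    fun t => hΦ _ _ (by rw [hj, hk', hkt]; rfl)
  exact shr_gen hi φ hφ hb hS0 hm hd hh hβ hdvd hc hG0 Φ hΦt hufd

end Pool.Agent.Lib.MP_1a0ddd_nt.Nc
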