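import Pool.Agent.Lib.MP_1a0ddd_nt.Nc.Tow
import Pool.Agent.Lib.MP_1a0ddd_nt.Nc.Bir
import Pool.Agent.Lib.MP_1a0ddd_nt.Nc.Shr
import Pool.Agent.Lib.MP_1a0ddd_nt.Nc.Cnt
import Pool.Agent.Lib.MP_1a0ddd_nt.Nc.CoR
import Pool.Agent.Lib.MP_1a0ddd_nt.Nc.Cls
import Pool.Agent.Lib.MP_1a0ddd_nt.Nc.Res
import Pool.Agent.Lib.MP_1a0ddd_nt.Nc.Trd
import Pool.Agent.Lib.MP_1a0ddd_nt.Un.Main

/-! The Nagao conjecture for curves in towers of conics. -/

set_option autoImplicit false

namespace Pool.Agent.Lib.MP_1a0ddd_nt.Nc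

open Polynomial Pool.Agent.Lib.MP_1a0ddd_nt.Cn Pool.Agent.Lib.MP_1a0ddd_nt.Fb Un
  Pool.Agent.Lib.MP_1a0ddd_nt.V

variable {R T S : Type} [CommRing R] [IsDomain R] [CommRing T] [IsDomain T] [CommRing S]
  [IsDomain S] [Algebra R T] [Algebra R S]

private theorem ft_int {A : Type} [CommRing A] (i j : Algebra ℤ A)
    (h : @Algebra.FiniteType ℤ A _ _ i) : @Algebra.FiniteType ℤ A _ _ j := by
  rwa [Subsingleton.elim j i]

private theorem trdeg_int {A : Type} [CommRing A] (i j : Algebra ℤ A) :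
    @Algebra.trdeg ℤ A _ _ i = @Algebra.trdeg ℤ A _ _ j := by
  rw [Subsingleton.elim j i]

/-- the function field of `Spec S` is finitely generated -/
private theorem fg_top (hS : Algebra.FiniteType R S) (φ : T →ₐ[R] S) :
    ∃ s : Set (FractionRing S), s.Finite ∧ s ⊆ Set.range (algebraMap S (FractionRing S)) ∧
      (∀ x : S, algebraMap S (FractionRing S) x ∈
        Subring.closure ((baseF (φ : T →+* S) : Set (FractionRing S)) ∪ s)) ∧
      Subfield.closure ((baseF (φ : T →+* S) : Set (FractionRing S)) ∪ s) = ⊤ := by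
  classical
  obtain ⟨g, hg⟩ := hS.out
  have h1 : ∀ x : S, algebraMap S (FractionRing S) x ∈
      Subring.closure ((baseF (φ : T →+* S) : Set (FractionRing S)) ∪
        (algebraMap S (FractionRing S)) '' (g : Set S)) := by
    intro x
    have hx : x ∈ Algebra.adjoin R (g : Set S) := hg ▸ Algebra.mem_top
    induction hx using Algebra.adjoin_induction with
    | mem y hy => exact Subring.subset_closure (Or.inr ⟨y, hy, rfl⟩)
    | algebraMap r =>
      refine Subring.subset_closure (Or.inl ?_)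
      refine Subfield.subset_closure ⟨algebraMap R T r, ?_⟩
      change algebraMap S (FractionRing S) (φ (algebraMap R T r)) = _
      rw [φ.commutes]
    | add y z _ _ h1 h2 =>
      rw [map_add]
      exact Subring.add_mem _ h1 h2
    | mul y z _ _ h1 h2 =>
      rw [map_mul]
      exact Subring.mul_mem _ h1 h2
  refine ⟨_, (g.finite_toSet.image (algebraMap S (FractionRing S))),
    Set.image_subset_range _ _, h1, ?_⟩
  rw [eq_top_iff]
  intro z _
  obtain ⟨x, y, hy, hz⟩ := IsFractionRing.div_surjective (A := S) z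
  rw [← hz]
  have hle : (Subring.closure ((baseF (φ : T →+* S) : Set (FractionRing S)) ∪
      (algebraMap S (FractionRing S)) '' (g : Set S)) : Set (FractionRing S)) ⊆
      Subfield.closure ((baseF (φ : T →+* S) : Set (FractionRing S)) ∪
      (algebraMap S (FractionRing S)) '' (g : Set S)) :=
    fun w hw => Subfield.subring_closure_le _ hw
  exact Subfield.div_mem _ (hle (h1 x)) (hle (h1 y))

private theorem tau_val {c c' : ℕ → ℝ} {γ γ' : ℝ} (h : Quad.TauMean c γ)
    (hc : ∀ p : ℕ, p.Prime → c p = c' p) (hγ : γ = γ') : Quad.TauMean c' γ' := by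
  subst hγ
  refine Filter.Tendsto.congr (fun N => ?_) h
  congr 1
  refine Finset.sum_congr rfl fun p hp => ?_
  rw [hc p (Finset.mem_filter.1 hp).2]

/-- the data for one open subset -/
private theorem one_open {d n : ℕ} (hR : BaseVar R d)
    (hi : Function.Injective (algebraMap R T)) (φ : T →ₐ[R] S)
    (hφ : Function.Injective φ) {b₁ b₂ : T} {g₁ g : S} (hg : g ≠ 0) (hg₁ : g₁ ∣ g)
    (hT : ∀ b' : T, b' ≠ 0 → b₁ ∣ b' → ∃ e : ℕ, Tate R (Localization.Away b') d n e)
    (hS : ∀ g' : S, g' ≠ 0 → g₁ ∣ g' → ∃ e : ℕ, Tate R (Localization.Away g') d (n + 1) e)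
    (hirr : ∀ b : T, b ≠ 0 → b₂ ∣ b →
      UniqueFactorizationMonoid (Gen (algebraMap R (Localization.Away b))) →
      IrrOver (baseK (shr φ b g)) 1) (b : T) (hb : b ≠ 0) (h1 : b₁ ∣ b) (h2 : b₂ ∣ b) :
    ∃ u : ℕ, IsPrincipalIdealRing (coordR (φ : T →+* S) g) ∧
      Module.finrank ℤ (UnitsMod (baseC (φ : T →+* S) g)) = u ∧
      NagaoT (shr φ b g) (n + d) u := by
  obtain ⟨e, he⟩ := hT b hb h1
  have hφb : φ b ≠ 0 := (map_ne_zero_iff φ hφ).2 hb
  obtain ⟨e', he'⟩ := hS (g * φ b) (mul_ne_zero hg hφb) (hg₁.trans (dvd_mul_right _ _))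
  obtain ⟨u, hu, hN⟩ := main_T hR he he' (shr φ b g) (hirr b hb h2 he.geo.ufd)
  have hdT := he.geo.dom
  have hdom : IsDomain (Gen (algebraMap R (Localization.Away b))) :=
    kmodel_domain (kmodel_gen (R := R) he.geo.inj)
  obtain ⟨h3, h4⟩ := coordR_rank hi φ hφ hb hg hN.rank.2.1
  exact ⟨u, h3, by rw [← h4]; exact hN.rank.2.2, hN⟩

theorem nagao_of_tate {d n : ℕ} (hR : BaseVar R d) (hT : Algebra.FiniteType R T)
    (hS : Algebra.FiniteType R S) (hi : Function.Injective (algebraMap R T)) (φ : T →ₐ[R] S)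
    (hφ : Function.Injective φ)
    (hcl : ∀ x : FractionRing S, IsAlgebraic (baseF (φ : T →+* S)) x →
      x ∈ baseF (φ : T →+* S))
    (hT' : ∃ b : T, b ≠ 0 ∧ ∀ b' : T, b' ≠ 0 → b ∣ b' →
      ∃ e : ℕ, Tate R (Localization.Away b') d n e)
    (hS' : ∃ g : S, g ≠ 0 ∧ ∀ g' : S, g' ≠ 0 → g ∣ g' →
      ∃ e : ℕ, Tate R (Localization.Away g') d (n + 1) e) : Nagao (φ : T →+* S) (n + d) := by
  classical
  obtain ⟨b₁, hb₁, hT'⟩ := hT'
  obtain ⟨g₁, hg₁, hS'⟩ := hS'
  have hRz := hR.zero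
  have hRf := hR.finite
  have hTz : CharZero T := charZero_of_injective_ringHom hi
  have hSz : CharZero S := charZero_of_injective_ringHom (f := (φ : T →+* S)) hφ
  have hLz : CharZero (FractionRing S) :=
    charZero_of_injective_ringHom (IsFractionRing.injective S (FractionRing S))
  have hTi : Algebra.FiniteType ℤ T := Algebra.FiniteType.trans (S := R) hRf hT
  obtain ⟨eT, heT⟩ := hT' b₁ hb₁ dvd_rfl
  obtain ⟨eS, heS⟩ := hS' g₁ hg₁ dvd_rfl
  have htr := trdeg_one hR hi φ hφ hb₁ hg₁ heT heS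
  obtain ⟨s, hs, hs0, hs1, hs2⟩ := fg_top hS φ
  -- the coordinate rings
  have hfr : ∀ (g : S), ∀ x : FractionRing S, ∃ a ∈ coordR (φ : T →+* S) g,
      ∃ b ∈ coordR (φ : T →+* S) g, b ≠ 0 ∧ x * b = a := by
    intro g x
    obtain ⟨a, b, hb, hx⟩ := IsFractionRing.div_surjective (A := S) x
    have hb0 : algebraMap S (FractionRing S) b ≠ 0 :=
      (map_ne_zero_iff _ (IsFractionRing.injective S (FractionRing S))).2
        (nonZeroDivisors.ne_zero hb)
    refine ⟨_, Subring.subset_closure (Or.inl (Or.inr ⟨a, rfl⟩)), _,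
      Subring.subset_closure (Or.inl (Or.inr ⟨b, rfl⟩)), hb0, ?_⟩
    rw [← hx, div_mul_cancel₀ _ hb0]
  have hgen : ∀ g : S, ∃ s' : Set (FractionRing S), s'.Finite ∧
      coordR (φ : T →+* S) g =
        Subring.closure ((baseF (φ : T →+* S) : Set (FractionRing S)) ∪ s') := by
    intro g
    refine ⟨s ∪ {(algebraMap S (FractionRing S) g)⁻¹}, hs.union (Set.finite_singleton _), ?_⟩
    refine le_antisymm (Subring.closure_le.2 ?_) (Subring.closure_mono ?_)
    · rintro z ((hz | ⟨x, rfl⟩) | hz)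
      · exact Subring.subset_closure (Or.inl hz)
      · exact Subring.closure_mono (Set.union_subset_union_right _ Set.subset_union_left) (hs1 x)
      · exact Subring.subset_closure (Or.inr (Or.inr hz))
    · rintro z (hz | hz | hz)
      · exact Or.inl (Or.inl hz)
      · exact Or.inl (Or.inr (hs0 hz))
      · exact Or.inr hz
  have hclass : ∀ g : S, IsPrincipalIdealRing (coordR (φ : T →+* S) g) →
      (Out (φ : T →+* S) g).Finite ∧ Module.Finite ℤ (ClGp (baseF (φ : T →+* S))) ∧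
      Module.finrank ℤ (ClGp (baseF (φ : T →+* S))) +
        Module.finrank ℤ (UnitsMod (baseC (φ : T →+* S) g)) =
          (Out (φ : T →+* S) g).ncard := fun g hg =>
    class_rank (baseC (φ : T →+* S) g) (fun _ => rfl) (hgen g) hg (hfr g) htr hcl
  -- suitable open subsets
  have hopen : ∀ g₀ : S, g₀ ≠ 0 → ∃ g : S, g ≠ 0 ∧ g₀ ∣ g ∧ ∃ b₂ : T, b₂ ≠ 0 ∧
      ∀ b : T, b ≠ 0 → b₁ ∣ b → b₂ ∣ b → ∃ u : ℕ,
        IsPrincipalIdealRing (coordR (φ : T →+* S) g) ∧
        Module.finrank ℤ (UnitsMod (baseC (φ : T →+* S) g)) = u ∧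
        NagaoT (shr φ b g) (n + d) u := by
    intro g₀ h0
    obtain ⟨g, hg, hgd, b₂, hb₂, hirr⟩ := shrink hT hS hi φ hφ hcl htr (g₀ * g₁)
      (mul_ne_zero h0 hg₁)
    refine ⟨g, hg, (dvd_mul_right _ _).trans hgd, b₂, hb₂, fun b hb h1 h2 => ?_⟩
    exact one_open hR hi φ hφ hg ((dvd_mul_left _ _).trans hgd) hT' hS' hirr b hb h1 h2
  refine ⟨?_, resModel_exists (φ := (φ : T →+* S)) hφ htr ⟨s, hs, hs2⟩, ?_⟩
  · obtain ⟨g, hg, -, b₂, hb₂, h⟩ := hopen 1 one_ne_zero
    obtain ⟨u, h1, -, -⟩ := h (b₁ * b₂) (mul_ne_zero hb₁ hb₂) (dvd_mul_right _ _)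
      (dvd_mul_left _ _)
    exact (hclass g h1).2.1
  · intro g₀ h0
    obtain ⟨g, hg, hgd, b₂, hb₂, h⟩ := hopen g₀ h0
    obtain ⟨u₀, h1, -, -⟩ := h (b₁ * b₂) (mul_ne_zero hb₁ hb₂) (dvd_mul_right _ _)
      (dvd_mul_left _ _)
    obtain ⟨hfin, -, hrank⟩ := hclass g h1
    refine ⟨g, hg, hgd, h1, hfin, fun A _ ψ hA b₀ hb₀ => ?_⟩
    have hb : b₀ * (b₁ * b₂) ≠ 0 := mul_ne_zero hb₀ (mul_ne_zero hb₁ hb₂)
    set b := b₀ * (b₁ * b₂) with hbdef
    obtain ⟨u, -, h3, hN⟩ := h b hb ((dvd_mul_right _ _).trans (dvd_mul_left _ _))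
      ((dvd_mul_left _ _).trans (dvd_mul_left _ _))
    -- the models
    have hAm := fun V => resModel_alg (φ := (φ : T →+* S)) hφ htr (hA V)
    have hAdom : ∀ V, IsDomain (A V) := fun V => (hAm V).1
    have hAinj : ∀ V, Function.Injective (ψ V) := fun V => (hAm V).2.1
    have hAfin : ∀ V, Algebra.FiniteType ℤ (A V) := by
      intro V
      have h4 := (hA V).fin
      let _ : Algebra T (A V) := (ψ V).toAlgebra
      have h5 : Algebra.FiniteType T (A V) := h4
      exact Algebra.FiniteType.trans (S := T) hTi h5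
    have hTtr : Algebra.trdeg ℤ T = ((n + d : ℕ) : Cardinal) := by
      have hd1 := heT.geo.dom
      have h4 := trdeg_tower (R := R) (S := Localization.Away b₁) heT.geo.inj hR.dim heT.geo.dim
      rw [add_comm, ← h4]
      have h5 := trdeg_away (S := T) hb₁
      rw [← h5]
      exact trdeg_int _ _
    have : Fintype (Out (φ : T →+* S) g) := hfin.fintype
    obtain ⟨v⟩ : Nonempty (Fin (Out (φ : T →+* S) g).ncard ≃ Out (φ : T →+* S) g) := by
      rw [Set.ncard_eq_toFinset_card', Set.toFinset_card]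
      exact ⟨(Fintype.equivFin _).symm⟩
    have hψb : ∀ V, ψ V b ≠ 0 := fun V => (map_ne_zero_iff _ (hAinj V)).2 hb
    have hAz : ∀ V, CharZero (A V) := fun V => charZero_of_injective_ringHom (hAinj V)
    have hdA : ∀ i, IsDomain (Localization.Away (ψ (v i) b)) := fun i =>
      IsLocalization.isDomain_localization
        (powers_le_nonZeroDivisors_of_noZeroDivisors (hψb (v i)))
    have hfA : ∀ i, @Algebra.FiniteType ℤ (Localization.Away (ψ (v i) b)) _ _
        (Ring.toIntAlgebra _) := by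
      intro i
      have h4 := hAfin (v i)
      have h5 : Algebra.FiniteType (A (v i)) (Localization.Away (ψ (v i) b)) :=
        IsLocalization.finiteType_of_monoid_fg (Submonoid.powers (ψ (v i) b)) _
      exact ft_int _ _ (Algebra.FiniteType.trans (S := A (v i)) h4 h5)
    have hproj := hN.proj
    have h8 : ∀ i, Function.Injective (Localization.awayMap (ψ (v i)) b) := by
      intro i
      rw [Localization.awayMap_injective_iff]
      intro a ha
      exact ⟨0, by rw [(map_eq_zero_iff _ (hAinj (v i))).1 ha, mul_zero]⟩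
    have h9 : ∀ i, @Algebra.trdeg ℤ (Localization.Away (ψ (v i) b)) _ _
        (Ring.toIntAlgebra _) = ((n + d : ℕ) : Cardinal) := by
      intro i
      have h6 := trdeg_away (S := A (v i)) (hψb (v i))
      have h7 := trdeg_alg (ψ (v i)) (hAinj (v i)) (hAm (v i)).2.2
      rw [h7, hTtr] at h6
      rw [← h6]
      exact trdeg_int _ _
    obtain ⟨D₀, hD₀, hmean⟩ := @hproj (Out (φ : T →+* S) g).ncard
      (fun i => Localization.Away (ψ (v i) b)) _ hdA hfA
      (fun i => Localization.awayMap (ψ (v i)) b) h8 h9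
    have hTD : algebraMap R T D₀ ≠ 0 := (map_ne_zero_iff _ hi).2 hD₀
    refine ⟨algebraMap R T D₀ * b, mul_ne_zero hTD hb,
      (dvd_mul_right _ _).trans (dvd_mul_left _ _), ?_⟩
    refine tau_val (hmean D₀ hD₀ dvd_rfl) (fun p hp => avg_shr φ b g D₀ (n + d) p hp A ψ v) ?_
    have h5 : ((Module.finrank ℤ (ClGp (baseF (φ : T →+* S))) : ℕ) : ℝ) + u =
        ((Out (φ : T →+* S) g).ncard : ℝ) := by
      rw [← hrank, h3]
      push_cast
      ring
    rw [← h5]
    ring

theorem nagao {d n : ℕ} (hR : BaseVar R d) (φ : T →ₐ[R] S) (h : CurveFib φ n) :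
    Nagao (φ : T →+* S) (n + d) := by
  have hS : Function.Injective (algebraMap R S) := by
    have h1 : (algebraMap R S : R → S) = φ ∘ algebraMap R T := by
      funext r
      exact (φ.commutes r).symm
    rw [h1]
    exact h.inj.comp h.injT
  exact nagao_of_tate hR h.finT h.finS h.injT φ h.inj h.closed
    (tower_open hR h.finT h.injT h.towT) (tower_open hR h.finS hS h.towS)

end Pool.Agent.Lib.MP_1a0ddd_nt.Nc
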