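import Pool.Agent.Lib.MP_1a0ddd_nt.Nc.Defs

/-! The places of a function field of one variable. -/

set_option autoImplicit false

namespace Pool.Agent.Lib.MP_1a0ddd_nt.Nc

open Polynomial

/-- `ν` is the normalized order function of the valuation ring `V` -/
structure IsOrd {L : Type} [Field L] (V : ValuationSubring L) (ν : L → ℤ) : Prop where
  mul : ∀ x y : L, x ≠ 0 → y ≠ 0 → ν (x * y) = ν x + ν y
  one : ∃ π : L, π ≠ 0 ∧ ν π = 1
  mem : ∀ x : L, x ≠ 0 → (x ∈ V ↔ 0 ≤ ν x)

variable {L : Type} [Field L] [CharZero L] {F : Subfield L}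

omit [CharZero L] in
private theorem mem_of_integral (V : ValuationSubring L) {A : Type} [CommRing A] [Algebra A L]
    (φ : A →+* V) (hφ : ∀ a, ((φ a : V) : L) = algebraMap A L a) {b : L} (q : A[X])
    (hq : q.Monic) (h0 : eval₂ (algebraMap A L) b q = 0) : b ∈ V := by
  have hint : IsIntegral V b := by
    refine ⟨q.map φ, hq.map φ, ?_⟩
    rw [eval₂_map]
    have : (algebraMap V L).comp φ = algebraMap A L := RingHom.ext hφ
    rw [this, h0]
  obtain ⟨y, hy⟩ := IsIntegrallyClosed.isIntegral_iff.mp hint
  rw [← hy]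
  exact y.2

omit [CharZero L] in
private theorem core {B : Type} [CommRing B] [IsDedekindDomain B] [Algebra B L]
    [IsFractionRing B L] (V : ValuationSubring L) (hV : V ≠ ⊤)
    (hB : ∀ b : B, algebraMap B L b ∈ V) :
    ∃ P : IsDedekindDomain.HeightOneSpectrum B,
      (∀ b, b ∈ P.asIdeal ↔ algebraMap B L b ∈ V.nonunits) ∧
      V = (P.valuation L).valuationSubring := by
  have hmem : ∀ b : B, b ∈ (IsLocalRing.maximalIdeal V).comap
      ((algebraMap B L).codRestrict V.toSubring hB) ↔ algebraMap B L b ∈ V.nonunits := by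
    intro b
    rw [Ideal.mem_comap]
    exact (ValuationSubring.coe_mem_nonunits_iff (A := V)
      (a := (algebraMap B L).codRestrict V.toSubring hB b)).symm
  have hne : (IsLocalRing.maximalIdeal V).comap
      ((algebraMap B L).codRestrict V.toSubring hB) ≠ ⊥ := by
    intro hbot
    apply hV
    rw [eq_top_iff]
    intro z _
    obtain ⟨a, c, hc, rfl⟩ := IsFractionRing.div_surjective (A := B) z
    rw [div_eq_mul_inv]
    refine V.mul_mem _ _ (hB a) ?_
    by_contra hcon
    have hc0 : c ∈ (IsLocalRing.maximalIdeal V).comap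
        ((algebraMap B L).codRestrict V.toSubring hB) := by
      rw [hmem]
      exact (ValuationSubring.mem_nonunits_iff_or _).mpr (Or.inr hcon)
    rw [hbot, Ideal.mem_bot] at hc0
    exact nonZeroDivisors.ne_zero hc hc0
  refine ⟨⟨_, Ideal.comap_isPrime _ _, hne⟩, hmem, ?_⟩
  rw [← IsDedekindDomain.HeightOneSpectrum.valuationSubringAtPrime_eq_valuationSubring]
  symm
  refine ValuationSubring.eq_of_le_of_ne_top _ ?_ hV
  rintro z ⟨a, s, hs, rfl⟩
  refine V.mul_mem _ _ (hB a) ?_
  by_contra hcon
  apply hs
  show s ∈ (IsLocalRing.maximalIdeal V).comap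
        ((algebraMap B L).codRestrict V.toSubring hB)
  rw [hmem]
  exact (ValuationSubring.mem_nonunits_iff_or _).mpr (Or.inr hcon)

private theorem exists_ded (htr : Algebra.trdeg F L = 1)
    (hfg : ∃ s : Set L, s.Finite ∧ Subfield.closure ((F : Set L) ∪ s) = ⊤) (x : L)
    (hx : Transcendental F x) :
    ∃ (B : Type) (_ : CommRing B) (_ : IsDedekindDomain B) (_ : Algebra B L)
      (_ : IsFractionRing B L), (∃ b : B, algebraMap B L b = x) ∧
      (∃ t : Set L, t.Finite ∧ t ⊆ Set.range (algebraMap B L) ∧
        ∀ b : B, algebraMap B L b ∈ Subring.closure ((F : Set L) ∪ t)) ∧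
      ∀ V : ValuationSubring L, (F : Set L) ⊆ V → x ∈ V → ∀ b : B, algebraMap B L b ∈ V := by
  let : Algebra F[X] L := (aeval (R := F) x).toRingHom.toAlgebra
  have hal : ∀ p : F[X], algebraMap F[X] L p = aeval x p := fun p => rfl
  have : IsScalarTower F F[X] L := IsScalarTower.of_algebraMap_eq fun a => by
    rw [hal, Polynomial.algebraMap_eq, aeval_C]
  have hinj : Function.Injective (algebraMap F[X] L) := transcendental_iff_injective.mp hx
  have : FaithfulSMul F[X] L := (faithfulSMul_iff_algebraMap_injective _ _).mpr hinj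
  have halg : Algebra.IsAlgebraic F[X] L := by
    rw [← trdeg_eq_zero_iff]
    have h1 := trdeg_add_eq F F[X] (A := L)
    rw [Polynomial.trdeg_of_isDomain, htr] at h1
    refine Cardinal.eq_of_add_eq_add_left (a := 1) ?_ Cardinal.one_lt_aleph0
    rw [h1, add_zero]
  let : Algebra (FractionRing F[X]) L := FractionRing.liftAlgebra F[X] L
  have : IsScalarTower F[X] (FractionRing F[X]) L := FractionRing.isScalarTower_liftAlgebra _ _
  have : Algebra.IsAlgebraic (FractionRing F[X]) L :=
    (IsFractionRing.comap_isAlgebraic_iff (A := F[X])).mp halg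
  have : FiniteDimensional (FractionRing F[X]) L := by
    obtain ⟨s, hs, hcl⟩ := hfg
    have : Finite s := hs
    have hfd := IntermediateField.finiteDimensional_adjoin (K := FractionRing F[X]) (S := s)
      (fun y _ => (Algebra.IsAlgebraic.isAlgebraic y).isIntegral)
    have htop : IntermediateField.adjoin (FractionRing F[X]) s = ⊤ := by
      rw [eq_top_iff]
      intro y _
      have hy : y ∈ Subfield.closure ((F : Set L) ∪ s) := by rw [hcl]; trivial
      have hle : Subfield.closure ((F : Set L) ∪ s) ≤
          (IntermediateField.adjoin (FractionRing F[X]) s).toSubfield := by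
        rw [Subfield.closure_le]
        apply Set.union_subset
        · intro a ha
          have h2 : a = algebraMap (FractionRing F[X]) L
              (algebraMap F[X] (FractionRing F[X]) (C ⟨a, ha⟩)) := by
            rw [← IsScalarTower.algebraMap_apply, hal, aeval_C]
            rfl
          rw [h2]
          exact IntermediateField.algebraMap_mem _ _
        · exact IntermediateField.subset_adjoin _ _
      exact hle hy
    rw [htop] at hfd
    exact Module.Finite.equiv (IntermediateField.topEquiv
      (F := FractionRing F[X]) (E := L)).toLinearEquiv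
  have : CharZero (FractionRing F[X]) := (algebraMap (FractionRing F[X]) L).charZero
  have hded : IsDedekindDomain (integralClosure F[X] L) :=
    integralClosure.isDedekindDomain F[X] (FractionRing F[X]) L
  have hfr : IsFractionRing (integralClosure F[X] L) L :=
    integralClosure.isFractionRing_of_finite_extension (FractionRing F[X]) L
  have hfin : Module.Finite F[X] (integralClosure F[X] L) :=
    IsIntegralClosure.finite F[X] (FractionRing F[X]) L (integralClosure F[X] L)
  refine ⟨integralClosure F[X] L, inferInstance, hded, inferInstance, hfr, ?_, ?_, ?_⟩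
  · refine ⟨algebraMap F[X] (integralClosure F[X] L) X, ?_⟩
    rw [← IsScalarTower.algebraMap_apply, hal, aeval_X]
  · obtain ⟨S, hS⟩ := hfin.fg_top
    refine ⟨{x} ∪ (algebraMap (integralClosure F[X] L) L) '' (S : Set _),
      (Set.finite_singleton x).union (S.finite_toSet.image _), ?_, ?_⟩
    · apply Set.union_subset
      · rintro _ rfl
        refine ⟨algebraMap F[X] (integralClosure F[X] L) X, ?_⟩
        rw [← IsScalarTower.algebraMap_apply, hal, aeval_X]
      · rintro _ ⟨b, -, rfl⟩
        exact ⟨b, rfl⟩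
    · intro b
      have hb : b ∈ Submodule.span F[X] (S : Set (integralClosure F[X] L)) := by
        rw [hS]; trivial
      have hp : ∀ p : F[X], aeval x p ∈ Subring.closure ((F : Set L) ∪
          ({x} ∪ (algebraMap (integralClosure F[X] L) L) '' (S : Set _))) := by
        intro p
        rw [aeval_eq_sum_range]
        refine Subring.sum_mem _ fun i _ => ?_
        rw [Algebra.smul_def]
        have hxm : x ∈ Subring.closure ((F : Set L) ∪
            ({x} ∪ (algebraMap (integralClosure F[X] L) L) '' (S : Set _))) :=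
          Subring.subset_closure (Or.inr (Or.inl (Set.mem_singleton x)))
        exact Subring.mul_mem _ (Subring.subset_closure (Or.inl (p.coeff i).2))
          (Subring.pow_mem _ hxm _)
      induction hb using Submodule.span_induction with
      | mem y hy => exact Subring.subset_closure (Or.inr (Or.inr ⟨y, hy, rfl⟩))
      | zero => rw [map_zero]; exact Subring.zero_mem _
      | add y z _ _ hy hz => rw [map_add]; exact Subring.add_mem _ hy hz
      | smul p y _ hy =>
        rw [Algebra.smul_def, map_mul, ← IsScalarTower.algebraMap_apply, hal]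
        exact Subring.mul_mem _ (hp p) hy
  · intro V hFV hxV b
    have hp : ∀ p : F[X], (algebraMap F[X] L : F[X] →+* L) p ∈ V.toSubring := by
      intro p
      rw [hal, aeval_eq_sum_range]
      refine Subring.sum_mem _ fun i _ => ?_
      rw [Algebra.smul_def]
      exact Subring.mul_mem _ (hFV (p.coeff i).2) (Subring.pow_mem _ hxV _)
    obtain ⟨q, hq, hq0⟩ : IsIntegral F[X] (b : L) := b.2
    exact mem_of_integral V (A := F[X]) ((algebraMap F[X] L).codRestrict V.toSubring hp)
      (fun _ => rfl) q hq hq0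

omit [CharZero L] in
private theorem exists_trans (htr : Algebra.trdeg F L = 1) (V : ValuationSubring L) :
    ∃ x : L, Transcendental F x ∧ x ∈ V := by
  have h : Algebra.Transcendental F L := by
    rw [← trdeg_ne_zero_iff, htr]
    exact one_ne_zero
  obtain ⟨x, hx⟩ := h.transcendental
  rcases V.mem_or_inv_mem x with h | h
  · exact ⟨x, hx, h⟩
  · refine ⟨x⁻¹, fun hc => hx ?_, h⟩
    have := hc.inv
    rwa [inv_inv] at this

/-- Proof. Let `x ∈ V` be transcendental over `F` (`x` or `1/x` is in `V`), `B` the integral closure of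
`F[x]` in `L`, a Dedekind domain with fraction field `L` (`L` is finite over `F(x)`). Then `B ⊆ V`, the
maximal ideal of `V` contracts to a maximal ideal `v` of `B`, `B_v ⊆ V`, hence `V = B_v`
(`HeightOneSpectrum.valuation`) -/
theorem place_ord (htr : Algebra.trdeg F L = 1)
    (hfg : ∃ s : Set L, s.Finite ∧ Subfield.closure ((F : Set L) ∪ s) = ⊤) (V : Place F) :
    ∃ ν : L → ℤ, IsOrd V.1 ν := by
  obtain ⟨x, hx, hxV⟩ := exists_trans htr V.1
  obtain ⟨B, _, _, _, _, -, -, hB⟩ := exists_ded htr hfg x hx
  obtain ⟨P, -, hP⟩ := core V.1 V.2.1 (hB V.1 V.2.2 hxV)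
  have hv0 : ∀ y : L, y ≠ 0 → P.valuation L y ≠ 0 := fun y hy => (_root_.map_ne_zero _).mpr hy
  refine ⟨fun y => -WithZero.log (P.valuation L y), ?_, ?_, ?_⟩
  · intro y z hy hz
    rw [map_mul, WithZero.log_mul (hv0 y hy) (hv0 z hz)]
    ring
  · obtain ⟨π, hπ⟩ := P.valuation_exists_uniformizer L
    refine ⟨π, ?_, ?_⟩
    · rintro rfl
      rw [map_zero] at hπ
      exact WithZero.exp_ne_zero hπ.symm
    · rw [hπ, WithZero.log_exp]
      norm_num
  · intro y hy
    rw [hP, Valuation.mem_valuationSubring_iff, ← WithZero.log_le_log (hv0 y hy) one_ne_zero,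
      WithZero.log_one]
    constructor <;> intro h <;> linarith

/-- Proof. As in `place_ord`, with `x = 1/f`: if `f` is not in `V` then `x` is in the maximal ideal
of `V`, which corresponds to one of the finitely many primes of `B` over `x`. (If `f` is algebraic over
`F` it is in all `V`.) -/
theorem place_finite (htr : Algebra.trdeg F L = 1)
    (hfg : ∃ s : Set L, s.Finite ∧ Subfield.closure ((F : Set L) ∪ s) = ⊤) (f : L) :
    {V : Place F | f ∉ V.1}.Finite := by
  by_cases hf : IsAlgebraic F f
  · have he : {V : Place F | f ∉ V.1} = ∅ := by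
      rw [Set.eq_empty_iff_forall_notMem]
      intro V hV
      apply hV
      obtain ⟨q, hq, hq0⟩ := hf.isIntegral
      exact mem_of_integral V.1 ((algebraMap F L).codRestrict V.1.toSubring
        (fun a => V.2.2 a.2)) (fun _ => rfl) q hq hq0
    rw [he]
    exact Set.finite_empty
  have hx : Transcendental F f⁻¹ := by
    intro hc
    apply hf
    have := hc.inv
    rwa [inv_inv] at this
  have hf0 : f⁻¹ ≠ 0 := by
    intro h0
    apply hx
    rw [h0]
    exact isAlgebraic_zero
  obtain ⟨B, _, _, _, _, ⟨x, hxx⟩, -, hB⟩ := exists_ded htr hfg f⁻¹ hx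
  have hmem : ∀ V : {V : Place F | f ∉ V.1}, f⁻¹ ∈ V.1.1 := fun V =>
    (V.1.1.mem_or_inv_mem f).resolve_left V.2
  choose g hg1 hg2 using fun V : {V : Place F | f ∉ V.1} =>
    core V.1.1 V.1.2.1 (hB V.1.1 V.1.2.2 (hmem V))
  have hx0 : Ideal.span {x} ≠ 0 := by
    rw [Ne, Ideal.zero_eq_bot, Ideal.span_singleton_eq_bot]
    rintro rfl
    exact hf0 (by rw [← hxx, map_zero])
  have hfin := Ideal.finite_factors hx0
  have : Finite {v : IsDedekindDomain.HeightOneSpectrum B | v.asIdeal ∣ Ideal.span {x}} := hfin
  have hgm : ∀ V : {V : Place F | f ∉ V.1}, (g V).asIdeal ∣ Ideal.span {x} := by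
    intro V
    rw [Ideal.dvd_span_singleton, hg1, hxx]
    refine (ValuationSubring.mem_nonunits_iff_or _).mpr (Or.inr ?_)
    rw [inv_inv]
    exact V.2
  have : Finite {V : Place F | f ∉ V.1} :=
    Finite.of_injective (β := {v : IsDedekindDomain.HeightOneSpectrum B |
      v.asIdeal ∣ Ideal.span {x}}) (fun V => ⟨g V, hgm V⟩) (by
        intro V W hVW
        have h1 : g V = g W := congrArg Subtype.val hVW
        apply Subtype.ext
        apply Subtype.ext
        rw [hg2 V, hg2 W, h1])
  exact Set.toFinite _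

/-- Proof. `V = B_v` as in `place_ord`; `B` is a finitely generated `F`-algebra (finite over `F[x]`), and
`B → B/v`, the residue field of `V`, is surjective -/
theorem place_gen (htr : Algebra.trdeg F L = 1)
    (hfg : ∃ s : Set L, s.Finite ∧ Subfield.closure ((F : Set L) ∪ s) = ⊤) (V : Place F) :
    ∃ s : Set L, s.Finite ∧ s ⊆ V.1 ∧ ∀ v ∈ V.1, ∃ u ∈ Subring.closure ((F : Set L) ∪ s),
      v - u ∈ V.1.nonunits := by
  obtain ⟨x, hx, hxV⟩ := exists_trans htr V.1
  obtain ⟨B, _, _, _, _, -, ⟨t, htf, htr', htc⟩, hB⟩ := exists_ded htr hfg x hx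
  have hBV := hB V.1 V.2.2 hxV
  obtain ⟨P, hP1, hP⟩ := core V.1 V.2.1 hBV
  refine ⟨t, htf, ?_, ?_⟩
  · intro y hy
    obtain ⟨b, rfl⟩ := htr' hy
    exact hBV b
  · intro v hv
    have hv' : P.valuation L v ≤ 1 := by
      rw [hP] at hv
      exact (Valuation.mem_valuationSubring_iff _ _).mp hv
    obtain ⟨n, d, hnd⟩ := P.exists_primeCompl_mul_eq_of_integer v hv'
    obtain ⟨c, i, hi, hc⟩ := P.isMaximal.exists_inv d.2
    refine ⟨algebraMap B L (n * c), htc _, ?_⟩
    rw [hP1] at hi
    have he : v - algebraMap B L (n * c) = v * algebraMap B L i := by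
      rw [map_mul, ← hnd, eq_sub_of_add_eq' hc, map_sub, map_mul, map_one]
      ring
    rw [he]
    have h1 : (⟨algebraMap B L i, hBV _⟩ : V.1) ∈ IsLocalRing.maximalIdeal V.1 :=
      ValuationSubring.coe_mem_nonunits_iff.mp hi
    have h2 := Ideal.mul_mem_left (IsLocalRing.maximalIdeal V.1) ⟨v, hv⟩ h1
    exact ValuationSubring.coe_mem_nonunits_iff.mpr h2

end Pool.Agent.Lib.MP_1a0ddd_nt.Nc
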