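import Mathlib

/-! A conic with a rational point is rational. -/

set_option autoImplicit false

namespace Pool.Agent.Lib.MP_1a0ddd_nt.Nc

open Polynomial

private theorem par_key {L : Type} [Field L] (F : Subfield L) {x y : L}
    (hx : Transcendental F x) {t : L} (h1 : t ∈ Subfield.closure ((F : Set L) ∪ {x, y}))
    (h2 : x ∈ Subfield.closure ((F : Set L) ∪ {t}))
    (h3 : y ∈ Subfield.closure ((F : Set L) ∪ {t})) :
    Transcendental F t ∧
      Subfield.closure ((F : Set L) ∪ {x, y}) = Subfield.closure ((F : Set L) ∪ {t}) := by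
  constructor
  · intro ht
    apply hx
    have h4 : Subfield.closure ((F : Set L) ∪ {t}) ≤ (algebraicClosure F L).toSubfield := by
      rw [Subfield.closure_le]
      rintro z (hz | hz)
      · change z ∈ algebraicClosure F L
        rw [mem_algebraicClosure_iff]
        exact isAlgebraic_algebraMap (⟨z, hz⟩ : F)
      · rw [Set.mem_singleton_iff] at hz
        rw [hz]
        change t ∈ algebraicClosure F L
        rw [mem_algebraicClosure_iff]
        exact ht
    exact mem_algebraicClosure_iff.1 (h4 h2)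
  · apply le_antisymm
    · rw [Subfield.closure_le]
      rintro z (hz | hz)
      · exact Subfield.subset_closure (Or.inl hz)
      · rcases hz with hz | hz
        · rw [hz]
          exact h2
        · rw [Set.mem_singleton_iff] at hz
          rw [hz]
          exact h3
    · rw [Subfield.closure_le]
      rintro z (hz | hz)
      · exact Subfield.subset_closure (Or.inl hz)
      · rw [Set.mem_singleton_iff] at hz
        rw [hz]
        exact h1

/-- the affine case -/
private theorem par_aff {L : Type} [Field L] (F : Subfield L) {a b c x y : L}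
    (ha : a ∈ F) (hb : b ∈ F) (hx : Transcendental F x) (hne : b ^ 2 ≠ a * c)
    (h2 : (2 : L) ≠ 0)
    (hy : y ^ 2 = a * x ^ 2 + 2 * b * x + c) {x₁ y₁ : L} (hx₁ : x₁ ∈ F) (hy₁ : y₁ ∈ F)
    (hP : y₁ ^ 2 = a * x₁ ^ 2 + 2 * b * x₁ + c) :
    ∃ t : L, Transcendental F t ∧
      Subfield.closure ((F : Set L) ∪ {x, y}) = Subfield.closure ((F : Set L) ∪ {t}) := by
  have hxx : x - x₁ ≠ 0 := by
    intro h
    apply hx
    rw [sub_eq_zero] at h
    rw [h]
    exact isAlgebraic_algebraMap (⟨x₁, hx₁⟩ : F)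
  obtain ⟨t, ht⟩ : ∃ t : L, t = (y - y₁) / (x - x₁) := ⟨_, rfl⟩
  have hyt : y = y₁ + t * (x - x₁) := by
    rw [ht, div_mul_cancel₀ _ hxx]
    ring
  have h5 : 2 * y₁ * t + t ^ 2 * (x - x₁) = a * (x + x₁) + 2 * b := by
    apply mul_right_cancel₀ hxx
    have h6 : (y₁ + t * (x - x₁)) ^ 2 = a * x ^ 2 + 2 * b * x + c := by
      rw [← hyt]
      exact hy
    linear_combination h6 - hP
  have hta : t ^ 2 - a ≠ 0 := by
    intro h
    apply hne
    have h7 : t ^ 2 = a := sub_eq_zero.1 h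
    have h8 : y₁ * t = a * x₁ + b := by
      apply mul_left_cancel₀ h2
      linear_combination h5 - (x - x₁) * h7
    linear_combination -(y₁ * t + a * x₁ + b) * h8 + y₁ ^ 2 * h7 + a * hP
  have hxt : x = (a * x₁ + 2 * b - 2 * y₁ * t + t ^ 2 * x₁) / (t ^ 2 - a) := by
    rw [eq_div_iff hta]
    linear_combination h5
  have mF : ∀ z ∈ F, ∀ w : Set L, z ∈ Subfield.closure ((F : Set L) ∪ w) := fun z hz w =>
    Subfield.subset_closure (Or.inl hz)
  have mt : t ∈ Subfield.closure ((F : Set L) ∪ {t}) :=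
    Subfield.subset_closure (Or.inr rfl)
  have m2 : ∀ w : Set L, (2 : L) ∈ Subfield.closure ((F : Set L) ∪ w) := fun w => ofNat_mem _ 2
  have mx : x ∈ Subfield.closure ((F : Set L) ∪ {t}) := by
    rw [hxt]
    refine Subfield.div_mem _ (Subfield.add_mem _ (Subfield.sub_mem _ (Subfield.add_mem _
      (Subfield.mul_mem _ (mF a ha _) (mF x₁ hx₁ _)) (Subfield.mul_mem _ (m2 _) (mF b hb _)))
      (Subfield.mul_mem _ (Subfield.mul_mem _ (m2 _) (mF y₁ hy₁ _)) mt))
      (Subfield.mul_mem _ (Subfield.pow_mem _ mt 2) (mF x₁ hx₁ _)))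
      (Subfield.sub_mem _ (Subfield.pow_mem _ mt 2) (mF a ha _))
  refine ⟨t, par_key F hx ?_ mx ?_⟩
  · rw [ht]
    exact Subfield.div_mem _
      (Subfield.sub_mem _ (Subfield.subset_closure (Or.inr (Or.inr rfl))) (mF y₁ hy₁ _))
      (Subfield.sub_mem _ (Subfield.subset_closure (Or.inr (Or.inl rfl))) (mF x₁ hx₁ _))
  · rw [hyt]
    exact Subfield.add_mem _ (mF y₁ hy₁ _)
      (Subfield.mul_mem _ mt (Subfield.sub_mem _ mx (mF x₁ hx₁ _)))

/-- Proof. If `z₀ ≠ 0` let `z₀ = 1`, `t = (y - y₀) / (x - x₀)`; then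
`x (t² - a) = a x₀ + 2 b - 2 y₀ t + t² x₀`, and `t² = a` would give `b² = a c` (compare coefficients in
`x`, `t` is algebraic over `F` then). If `z₀ = 0` then `a = s²`, `t = y - s x`,
`x (2 s t - 2 b) = c - t²`, and `s t = b` would give `b² = a c` -/
theorem conic_rational {L : Type} [Field L] [CharZero L] (F : Subfield L) {a b c x y : L}
    (ha : a ∈ F) (hb : b ∈ F) (hc : c ∈ F) (hx : Transcendental F x) (hne : b ^ 2 ≠ a * c)
    (hy : y ^ 2 = a * x ^ 2 + 2 * b * x + c) {x₀ y₀ z₀ : L} (hx₀ : x₀ ∈ F) (hy₀ : y₀ ∈ F)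
    (hz₀ : z₀ ∈ F) (h0 : ¬ (x₀ = 0 ∧ z₀ = 0))
    (hP : y₀ ^ 2 = a * x₀ ^ 2 + 2 * b * x₀ * z₀ + c * z₀ ^ 2) :
    ∃ t : L, Transcendental F t ∧
      Subfield.closure ((F : Set L) ∪ {x, y}) = Subfield.closure ((F : Set L) ∪ {t}) := by
  have h2 : (2 : L) ≠ 0 := two_ne_zero
  by_cases hz : z₀ = 0
  · have hx0 : x₀ ≠ 0 := fun h => h0 ⟨h, hz⟩
    obtain ⟨s, hs⟩ : ∃ s : L, s = y₀ / x₀ := ⟨_, rfl⟩
    have hsF : s ∈ F := by
      rw [hs]
      exact F.div_mem hy₀ hx₀
    have hsa : a = s ^ 2 := by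
      rw [hs, div_pow, eq_div_iff (pow_ne_zero 2 hx0), hP, hz]
      ring
    obtain ⟨t, ht⟩ : ∃ t : L, t = y - s * x := ⟨_, rfl⟩
    have hyt : y = t + s * x := by
      rw [ht]
      ring
    have h5 : x * (2 * (s * t - b)) = c - t ^ 2 := by
      have h6 : (t + s * x) ^ 2 = a * x ^ 2 + 2 * b * x + c := by
        rw [← hyt]
        exact hy
      rw [hsa] at h6
      linear_combination h6
    have hst : s * t - b ≠ 0 := by
      intro h
      apply hne
      have h7 : s * t = b := sub_eq_zero.1 h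
      rw [h, mul_zero, mul_zero] at h5
      have h8 : c = t ^ 2 := (sub_eq_zero.1 h5.symm)
      rw [← h7, hsa, h8]
      ring
    have hd : 2 * (s * t - b) ≠ 0 := mul_ne_zero h2 hst
    have hxt : x = (c - t ^ 2) / (2 * (s * t - b)) := by
      rw [eq_div_iff hd]
      exact h5
    have mF : ∀ z ∈ F, ∀ w : Set L, z ∈ Subfield.closure ((F : Set L) ∪ w) := fun z hz w =>
      Subfield.subset_closure (Or.inl hz)
    have mt : t ∈ Subfield.closure ((F : Set L) ∪ {t}) :=
      Subfield.subset_closure (Or.inr rfl)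
    have m2 : ∀ w : Set L, (2 : L) ∈ Subfield.closure ((F : Set L) ∪ w) := fun w => ofNat_mem _ 2
    have mx : x ∈ Subfield.closure ((F : Set L) ∪ {t}) := by
      rw [hxt]
      exact Subfield.div_mem _ (Subfield.sub_mem _ (mF c hc _) (Subfield.pow_mem _ mt 2))
        (Subfield.mul_mem _ (m2 _) (Subfield.sub_mem _ (Subfield.mul_mem _ (mF s hsF _) mt)
          (mF b hb _)))
    refine ⟨t, par_key F hx ?_ mx ?_⟩
    · rw [ht]
      exact Subfield.sub_mem _ (Subfield.subset_closure (Or.inr (Or.inr rfl)))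
        (Subfield.mul_mem _ (mF s hsF _) (Subfield.subset_closure (Or.inr (Or.inl rfl))))
    · rw [hyt]
      exact Subfield.add_mem _ mt (Subfield.mul_mem _ (mF s hsF _) mx)
  · refine par_aff F ha hb hx hne h2 hy (F.div_mem hx₀ hz₀) (F.div_mem hy₀ hz₀) ?_
    field_simp
    linear_combination hP

end Pool.Agent.Lib.MP_1a0ddd_nt.Nc
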