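import Pool.Agent.Lib.MP_1a0ddd_nt.Nc.Par
import Pool.Agent.Lib.MP_1a0ddd_nt.Nc.Emb

/-! One step of a tower of conics. -/

set_option autoImplicit false

namespace Pool.Agent.Lib.MP_1a0ddd_nt.Nc

open Polynomial Un Pool.Agent.Lib.MP_1a0ddd_nt.Cn

variable {R L : Type} [CommRing R] [IsDomain R] [Field L] [Algebra R L] {d n e : ℕ}

omit [IsDomain R] in
/-- the field generated by `S[T]` -/
private theorem closure_adjoin (S : Subalgebra R L) (T : Set L) :
    Subfield.closure ((Algebra.adjoin R ((S : Set L) ∪ T) : Subalgebra R L) : Set L) =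
      Subfield.closure ((Subfield.closure (S : Set L) : Set L) ∪ T) := by
  apply le_antisymm
  · rw [Subfield.closure_le]
    intro z hz
    have hz' : z ∈ Algebra.adjoin R ((S : Set L) ∪ T) := hz
    induction hz' using Algebra.adjoin_induction with
    | mem w hw =>
      rcases hw with hw | hw
      · exact Subfield.subset_closure (Or.inl (Subfield.subset_closure hw))
      · exact Subfield.subset_closure (Or.inr hw)
    | algebraMap r =>
      exact Subfield.subset_closure (Or.inl (Subfield.subset_closure (S.algebraMap_mem r)))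
    | add u v _ _ hu hv => exact Subfield.add_mem _ (hu (by assumption)) (hv (by assumption))
    | mul u v _ _ hu hv => exact Subfield.mul_mem _ (hu (by assumption)) (hv (by assumption))
  · rw [Subfield.closure_le]
    rintro z (hz | hz)
    · exact Subfield.closure_mono (fun w hw => Algebra.subset_adjoin (Or.inl hw)) hz
    · exact Subfield.subset_closure (Algebra.subset_adjoin (Or.inr hz))

omit [IsDomain R] in
/-- elements of the fraction field of `S` are fractions -/
private theorem mem_frac (S : Subalgebra R L) {z : L} (hz : z ∈ Subfield.closure (S : Set L)) :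
    ∃ q ∈ S, q ≠ 0 ∧ q * z ∈ S := by
  rw [Subfield.mem_closure_iff] at hz
  obtain ⟨u, hu, v, hv, rfl⟩ := hz
  have hS : Subring.closure (S : Set L) = S.toSubring := by
    have h1 : ((S.toSubring : Subring L) : Set L) = (S : Set L) := rfl
    rw [← h1, Subring.closure_eq]
  rw [hS] at hu hv
  by_cases h0 : v = 0
  · refine ⟨1, S.one_mem, one_ne_zero, ?_⟩
    rw [h0, div_zero, mul_zero]
    exact S.zero_mem
  · refine ⟨v, hv, h0, ?_⟩
    rw [mul_div_cancel₀ _ h0]
    exact hu

/-- Proof. If the conic has a point over `F = Frac S`: `conic_rational`, `emb_line`. Otherwise let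
`q ∈ S`, `q ≠ 0`, with `q² a, q² b, q² c ∈ S`; replace `y` by `q y`. Invert the discriminant
`b² - a c` in `S` (`fin_closureU`, `loc_equiv`, `tate_equiv` for the inclusion of `S`), and use
`conicGeo_unit`, `fin_closureU` (`conic`), `emb_conic` -/
theorem tate_step (hR : BaseVar R d) (S : Subalgebra R L) (h : Tate R S d n e) {F : Subfield L}
    (hF : Subfield.closure (S : Set L) = F) {a b c x y : L} (ha : a ∈ F) (hb : b ∈ F)
    (hc : c ∈ F) (hx : Transcendental F x) (hne : b ^ 2 ≠ a * c)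
    (hy : y ^ 2 = a * x ^ 2 + 2 * b * x + c) :
    ∃ (S' : Subalgebra R L) (e' : ℕ), Tate R S' d (n + 1) e' ∧
      Subfield.closure (S' : Set L) = Subfield.closure ((F : Set L) ∪ {x, y}) := by
  classical
  subst hF
  have hR0 : CharZero R := hR.zero
  have hinj : Function.Injective (algebraMap R L) := by
    have h1 : algebraMap R L = (S.val : S →+* L).comp (algebraMap R S) := rfl
    rw [h1]
    exact Subtype.val_injective.comp h.geo.inj
  have hL0 : CharZero L := charZero_of_injective_algebraMap hinj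
  by_cases hpt : ∃ x₀ ∈ Subfield.closure (S : Set L), ∃ y₀ ∈ Subfield.closure (S : Set L),
      ∃ z₀ ∈ Subfield.closure (S : Set L), ¬ (x₀ = 0 ∧ z₀ = 0) ∧
        y₀ ^ 2 = a * x₀ ^ 2 + 2 * b * x₀ * z₀ + c * z₀ ^ 2
  · obtain ⟨x₀, hx₀, y₀, hy₀, z₀, hz₀, h0, hP⟩ := hpt
    obtain ⟨t, ht, hcl⟩ := conic_rational _ ha hb hc hx hne hy hx₀ hy₀ hz₀ h0 hP
    refine ⟨_, e, emb_line hR S h ht, ?_⟩
    rw [closure_adjoin, hcl]
  · push Not at hpt
    obtain ⟨q₁, hq₁, hq₁0, hq₁a⟩ := mem_frac S ha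
    obtain ⟨q₂, hq₂, hq₂0, hq₂b⟩ := mem_frac S hb
    obtain ⟨q₃, hq₃, hq₃0, hq₃c⟩ := mem_frac S hc
    obtain ⟨q, hq⟩ : ∃ q : L, q = q₁ * q₂ * q₃ := ⟨_, rfl⟩
    have hqS : q ∈ S := by rw [hq]; exact S.mul_mem (S.mul_mem hq₁ hq₂) hq₃
    have hq0 : q ≠ 0 := by rw [hq]; exact mul_ne_zero (mul_ne_zero hq₁0 hq₂0) hq₃0
    have hqF : q ∈ Subfield.closure (S : Set L) := Subfield.subset_closure hqS
    have hSa : q ^ 2 * a ∈ S := by
      have e1 : q ^ 2 * a = q * (q₂ * q₃) * (q₁ * a) := by rw [hq]; ring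
      rw [e1]
      exact S.mul_mem (S.mul_mem hqS (S.mul_mem hq₂ hq₃)) hq₁a
    have hSb : q ^ 2 * b ∈ S := by
      have e1 : q ^ 2 * b = q * (q₁ * q₃) * (q₂ * b) := by rw [hq]; ring
      rw [e1]
      exact S.mul_mem (S.mul_mem hqS (S.mul_mem hq₁ hq₃)) hq₂b
    have hSc : q ^ 2 * c ∈ S := by
      have e1 : q ^ 2 * c = q * (q₁ * q₂) * (q₃ * c) := by rw [hq]; ring
      rw [e1]
      exact S.mul_mem (S.mul_mem hqS (S.mul_mem hq₁ hq₂)) hq₃c
    -- the discriminant
    obtain ⟨Δ, hΔ⟩ : ∃ Δ : S, Δ = (⟨q ^ 2 * b, hSb⟩ : S) ^ 2 - ⟨q ^ 2 * a, hSa⟩ * ⟨q ^ 2 * c, hSc⟩ :=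
      ⟨_, rfl⟩
    have hΔv : (Δ : L) = q ^ 4 * (b ^ 2 - a * c) := by
      rw [hΔ]
      show (q ^ 2 * b) ^ 2 - q ^ 2 * a * (q ^ 2 * c) = _
      ring
    have hΔL : (Δ : L) ≠ 0 := by
      rw [hΔv]
      exact mul_ne_zero (pow_ne_zero _ hq0) (sub_ne_zero.2 hne)
    have hΔ0 : Δ ≠ 0 := fun h0 => hΔL (by rw [h0]; rfl)
    have hcl := fin_closureU R hR
    obtain ⟨m, hm⟩ := hcl.away S n e Δ h hΔ0
    obtain ⟨ε, _⟩ := loc_equiv S.val Subtype.val_injective hΔ0
    have hT1 : Tate R (loc S.val Δ) d n (e + m) := tate_equiv ε hm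
    -- the ring `S₁ = S[1/Δ]`
    obtain ⟨S₁, hS₁⟩ : ∃ S₁ : Subalgebra R L, S₁ = loc S.val Δ := ⟨_, rfl⟩
    rw [← hS₁] at hT1
    have hSS₁ : ∀ z ∈ S, z ∈ S₁ := by
      intro z hz
      rw [hS₁]
      exact Algebra.subset_adjoin (Or.inl ⟨⟨z, hz⟩, rfl⟩)
    have hΔi : (Δ : L)⁻¹ ∈ S₁ := by
      rw [hS₁]
      exact Algebra.subset_adjoin (Or.inr rfl)
    have hS₁F : ∀ z ∈ S₁, z ∈ Subfield.closure (S : Set L) := by
      intro z hz
      rw [hS₁] at hz
      unfold loc at hz
      induction hz using Algebra.adjoin_induction with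
      | mem w hw =>
        rcases hw with ⟨s, rfl⟩ | hw
        · exact Subfield.subset_closure s.2
        · rw [Set.mem_singleton_iff] at hw
          rw [hw]
          exact Subfield.inv_mem _ (Subfield.subset_closure Δ.2)
      | algebraMap r => exact Subfield.subset_closure (S.algebraMap_mem r)
      | add u v _ _ hu hv => exact Subfield.add_mem _ hu hv
      | mul u v _ _ hu hv => exact Subfield.mul_mem _ hu hv
    have hcl₁ : Subfield.closure (S₁ : Set L) = Subfield.closure (S : Set L) := by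
      apply le_antisymm
      · rw [Subfield.closure_le]
        exact hS₁F
      · exact Subfield.closure_mono hSS₁
    have hdom₁ : IsDomain S₁ := hT1.geo.dom
    obtain ⟨a', ha'⟩ : ∃ a' : S₁, (a' : L) = q ^ 2 * a := ⟨⟨_, hSS₁ _ hSa⟩, rfl⟩
    obtain ⟨b', hb'⟩ : ∃ b' : S₁, (b' : L) = q ^ 2 * b := ⟨⟨_, hSS₁ _ hSb⟩, rfl⟩
    obtain ⟨c', hc'⟩ : ∃ c' : S₁, (c' : L) = q ^ 2 * c := ⟨⟨_, hSS₁ _ hSc⟩, rfl⟩
    have haniso : ∀ x y z : S₁, y ^ 2 = a' * x ^ 2 + 2 * b' * x * z + c' * z ^ 2 →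
        x = 0 ∧ z = 0 := by
      intro u v w huvw
      have h1 : (v : L) ^ 2 = (a' : L) * (u : L) ^ 2 + 2 * (b' : L) * u * w +
          (c' : L) * (w : L) ^ 2 := by
        have h0 := congrArg S₁.val huvw
        simpa only [map_add, map_mul, map_pow, map_ofNat, Subalgebra.coe_val] using h0
      have h2 : (v : L) ^ 2 = q ^ 2 * a * (u : L) ^ 2 + 2 * (q ^ 2 * b) * u * w +
          q ^ 2 * c * (w : L) ^ 2 := by
        rw [h1, ha', hb', hc']
      have h3 : ((v : L) / q) ^ 2 = a * (u : L) ^ 2 + 2 * b * u * w + c * (w : L) ^ 2 := by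
        rw [div_pow, h2]
        field_simp
      by_contra hcon
      refine hpt u (hS₁F _ u.2) ((v : L) / q) (Subfield.div_mem _ (hS₁F _ v.2) hqF) w
        (hS₁F _ w.2) ?_ h3
      intro hu0 hw0
      exact hcon ⟨Subtype.ext hu0, Subtype.ext hw0⟩
    have hunit : IsUnit (b' ^ 2 - a' * c') := by
      have h1 : ((b' ^ 2 - a' * c' : S₁) : L) = Δ := by
        rw [hΔv]
        push_cast
        rw [ha', hb', hc']
        ring
      refine IsUnit.of_mul_eq_one (⟨(Δ : L)⁻¹, hΔi⟩ : S₁) (Subtype.ext ?_)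
      show ((b' ^ 2 - a' * c' : S₁) : L) * (Δ : L)⁻¹ = 1
      rw [h1, mul_inv_cancel₀ hΔL]
    have hgeo : ConicGeo R a' b' c' := conicGeo_unit hT1.geo.inj hunit haniso
    have hT2 := hcl.conic S₁ n (e + m) a' b' c' hT1 hgeo
    have hx' : Transcendental (Subfield.closure (S₁ : Set L)) x := by
      rw [hcl₁]; exact hx
    have hy' : (q * y) ^ 2 = (a' : L) * x ^ 2 + 2 * b' * x + c' := by
      rw [ha', hb', hc', mul_pow, hy]
      ring
    obtain ⟨ε'⟩ := emb_conic hx' hy' haniso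
    refine ⟨_, e + m, tate_equiv ε' hT2, ?_⟩
    rw [closure_adjoin, hcl₁]
    apply le_antisymm
    · rw [Subfield.closure_le]
      rintro z (hz | hz | hz)
      · exact Subfield.subset_closure (Or.inl hz)
      · rw [hz]; exact Subfield.subset_closure (Or.inr (Or.inl rfl))
      · rw [Set.mem_singleton_iff] at hz
        rw [hz]
        exact Subfield.mul_mem _ (Subfield.subset_closure (Or.inl hqF))
          (Subfield.subset_closure (Or.inr (Or.inr rfl)))
    · rw [Subfield.closure_le]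
      rintro z (hz | hz | hz)
      · exact Subfield.subset_closure (Or.inl hz)
      · rw [hz]; exact Subfield.subset_closure (Or.inr (Or.inl rfl))
      · rw [Set.mem_singleton_iff] at hz
        have e1 : q⁻¹ * (q * y) = y := by rw [inv_mul_cancel_left₀ hq0]
        rw [hz]
        have e2 : q⁻¹ * (q * y) ∈ Subfield.closure
            ((Subfield.closure (S : Set L) : Set L) ∪ {x, q * y}) :=
          Subfield.mul_mem _ (Subfield.inv_mem _ (Subfield.subset_closure (Or.inl hqF)))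
            (Subfield.subset_closure (Or.inr (Or.inr rfl)))
        rw [e1] at e2
        exact e2

end Pool.Agent.Lib.MP_1a0ddd_nt.Nc
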