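import Pool.Agent.Lib.MP_1a0ddd_nt.Nc.Stp
import Pool.Agent.Lib.MP_1a0ddd_nt.Nc.Bir

/-! Towers of conics have the Tate property. -/

set_option autoImplicit false

namespace Pool.Agent.Lib.MP_1a0ddd_nt.Nc

open Polynomial Un Pool.Agent.Lib.MP_1a0ddd_nt.Cn

variable {R L : Type} [CommRing R] [IsDomain R] [Field L] [Algebra R L] {d n e : ℕ}

/-- induction; for `n = 0` the ring is `⊥` (`Tate R R d 0 0` and `tate_equiv`) -/
theorem tower_tate (hR : BaseVar R d) (hi : Function.Injective (algebraMap R L))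
    (h : ConicTower R L n) : ∃ (S : Subalgebra R L) (e : ℕ), Tate R S d n e ∧
      Subfield.closure (S : Set L) = ⊤ := by
  obtain ⟨F, hF0, hFn, hF⟩ := h
  have key : ∀ i : ℕ, i ≤ n → ∃ (S : Subalgebra R L) (e : ℕ), Tate R S d i e ∧
      Subfield.closure (S : Set L) = F i := by
    intro i
    induction i with
    | zero =>
      intro _
      refine ⟨⊥, 0, tate_equiv (Algebra.botEquivOfInjective hi).symm (fin_closureU R hR).base, ?_⟩
      rw [hF0, Algebra.coe_bot]
    | succ i ih =>
      intro hin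
      obtain ⟨S, e, hS, hSF⟩ := ih (by omega)
      obtain ⟨a, ha, b, hb, c, hc, x, y, hx, hne, hy, hFi⟩ := hF i (by omega)
      obtain ⟨S', e', hS', hS'F⟩ := tate_step hR S hS hSF ha hb hc hx hne hy
      exact ⟨S', e', hS', by rw [hS'F, hFi]⟩
  obtain ⟨S, e, hS, hSF⟩ := key n le_rfl
  exact ⟨S, e, hS, by rw [hSF, hFn]⟩

omit [IsDomain R] in
private theorem tow_frac (S : Subalgebra R L) (hS : Subfield.closure (S : Set L) = ⊤) (z : L) :
    ∃ x y : S, y ≠ 0 ∧ z * S.val y = S.val x := by
  have hz : z ∈ Subfield.closure (S : Set L) := by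
    rw [hS]
    exact Subfield.mem_top z
  rw [Subfield.mem_closure_iff] at hz
  obtain ⟨u, hu, v, hv, rfl⟩ := hz
  have hS : Subring.closure (S : Set L) = S.toSubring := by
    have h1 : ((S.toSubring : Subring L) : Set L) = (S : Set L) := rfl
    rw [← h1, Subring.closure_eq]
  rw [hS] at hu hv
  by_cases h0 : v = 0
  · refine ⟨0, 1, one_ne_zero, ?_⟩
    rw [h0, div_zero, zero_mul, map_zero]
  · refine ⟨⟨u, hu⟩, ⟨v, hv⟩, fun h => h0 (congrArg Subtype.val h), ?_⟩
    show u / v * v = u
    rw [div_mul_cancel₀ _ h0]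

/-- proof: `tower_tate`, `tate_birat` with `L = FractionRing A`, `B = S` -/
theorem tower_open {A : Type} [CommRing A] [IsDomain A] [Algebra R A] (hR : BaseVar R d)
    (hf : Algebra.FiniteType R A) (hi : Function.Injective (algebraMap R A))
    (h : ConicTower R (FractionRing A) n) : ∃ a : A, a ≠ 0 ∧ ∀ a' : A, a' ≠ 0 → a ∣ a' →
      ∃ e' : ℕ, Tate R (Localization.Away a') d n e' := by
  have hi' : Function.Injective (algebraMap R (FractionRing A)) := by
    rw [IsScalarTower.algebraMap_eq R A (FractionRing A)]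
    exact (IsFractionRing.injective A (FractionRing A)).comp hi
  obtain ⟨S, e, hS, hST⟩ := tower_tate hR hi' h
  refine tate_birat hR hf (IsScalarTower.toAlgHom R A (FractionRing A)) S.val
    (IsFractionRing.injective A (FractionRing A)) Subtype.val_injective ?_
    (fun z => tow_frac S hST z) hS
  intro z
  obtain ⟨x, y, hy, rfl⟩ := IsFractionRing.div_surjective (A := A) z
  have hy0 : algebraMap A (FractionRing A) y ≠ 0 :=
    IsFractionRing.to_map_ne_zero_of_mem_nonZeroDivisors hy
  refine ⟨x, y, nonZeroDivisors.ne_zero hy, ?_⟩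
  show algebraMap A (FractionRing A) x / algebraMap A (FractionRing A) y *
    algebraMap A (FractionRing A) y = algebraMap A (FractionRing A) x
  rw [div_mul_cancel₀ _ hy0]

end Pool.Agent.Lib.MP_1a0ddd_nt.Nc
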